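import Mathlib

/-! # Elementary bound for Kloosterman sums modulo a prime -/

set_option autoImplicit false

noncomputable section

open Finset

namespace Pool.Agent.Helper94.NA

/-- sum over the units of `ψ (a u + b u⁻¹)` -/
def kl {R : Type} [CommRing R] [Fintype R] [DecidableEq R] (ψ : AddChar R ℂ) (a b : R) : ℂ :=
  ∑ u : Rˣ, ψ (a * u + b * ((u⁻¹ : Rˣ) : R))

section prime

variable {p : ℕ} [Fact p.Prime]

/-- pairs with the same sum and the same sum of the inverses -/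
def quad (p : ℕ) [Fact p.Prime] (x y : (ZMod p)ˣ × (ZMod p)ˣ) : Prop :=
  (x.1 : ZMod p) + x.2 = y.1 + y.2 ∧
    ((x.1⁻¹ : (ZMod p)ˣ) : ZMod p) + ((x.2⁻¹ : (ZMod p)ˣ) : ZMod p) =
      ((y.1⁻¹ : (ZMod p)ˣ) : ZMod p) + ((y.2⁻¹ : (ZMod p)ˣ) : ZMod p)

instance (x y : (ZMod p)ˣ × (ZMod p)ˣ) : Decidable (quad p x y) := by
  unfold quad; infer_instance

lemma quad_fiber (x : (ZMod p)ˣ × (ZMod p)ˣ) :
    (univ.filter (fun y => quad p x y)).card ≤
      if (x.1 : ZMod p) + x.2 = 0 then (p - 1) else 2 := by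
  split_ifs with h
  · have : (univ.filter (fun y => quad p x y)).card ≤
        (univ : Finset (ZMod p)ˣ).card := by
      apply Finset.card_le_card_of_injOn (fun y => y.1) (fun _ _ => by simp)
      intro y hy y' hy' hyy
      have hq := (mem_filter.1 (mem_coe.1 hy)).2
      have hq' := (mem_filter.1 (mem_coe.1 hy')).2
      have hq1 := hq.1
      have hq1' := hq'.1
      rw [h] at hq1 hq1'
      apply Prod.ext hyy
      apply Units.ext
      have h1 : (y.2 : ZMod p) = -y.1 := by linear_combination -hq1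
      have h2 : (y'.2 : ZMod p) = -y'.1 := by linear_combination -hq1'
      rw [h1, h2]
      simp only at hyy
      rw [hyy]
    refine this.trans (le_of_eq ?_)
    rw [Finset.card_univ, ZMod.card_units]
  · have hsub : univ.filter (fun y => quad p x y) ⊆ {x, (x.2, x.1)} := by
      intro y hy
      obtain ⟨h1, h2⟩ := (mem_filter.1 hy).2
      rw [mem_insert, mem_singleton]
      have hx1 : (x.1 : ZMod p) ≠ 0 := x.1.ne_zero
      have hx2 : (x.2 : ZMod p) ≠ 0 := x.2.ne_zero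
      have hy1 : (y.1 : ZMod p) ≠ 0 := y.1.ne_zero
      have hy2 : (y.2 : ZMod p) ≠ 0 := y.2.ne_zero
      have e : ∀ u : (ZMod p)ˣ, ((u⁻¹ : (ZMod p)ˣ) : ZMod p) = (u : ZMod p)⁻¹ := fun u => by
        rw [Units.val_inv_eq_inv_val]
      rw [e, e, e, e] at h2
      have h3 : (x.1 : ZMod p) * x.2 = y.1 * y.2 := by
        field_simp at h2
        have h4 : ((x.1 : ZMod p) + x.2) * (x.1 * x.2 - y.1 * y.2) = 0 := by
          linear_combination (-1) * h2 + (x.1 : ZMod p) * x.2 * h1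
        rcases mul_eq_zero.1 h4 with h5 | h5
        · exact absurd h5 h
        · linear_combination h5
      have h5 : ((y.1 : ZMod p) - x.1) * (y.1 - x.2) = 0 := by
        linear_combination h3 - (y.1 : ZMod p) * h1
      rcases mul_eq_zero.1 h5 with h6 | h6
      · left
        have a1 : y.1 = x.1 := Units.ext (by linear_combination h6)
        have a2 : y.2 = x.2 := Units.ext (by
          have : (y.2 : ZMod p) = x.2 := by linear_combination -h1 - h6
          exact this)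
        exact Prod.ext a1 a2
      · right
        have a1 : y.1 = x.2 := Units.ext (by linear_combination h6)
        have a2 : y.2 = x.1 := Units.ext (by
          have : (y.2 : ZMod p) = x.1 := by linear_combination -h1 - h6
          exact this)
        exact Prod.ext a1 a2
    exact (Finset.card_le_card hsub).trans Finset.card_le_two

lemma quad_count :
    (univ.filter (fun z : ((ZMod p)ˣ × (ZMod p)ˣ) × ((ZMod p)ˣ × (ZMod p)ˣ) =>
      quad p z.1 z.2)).card ≤ 3 * (p - 1) ^ 2 := by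
  have h1 : (univ.filter (fun z : ((ZMod p)ˣ × (ZMod p)ˣ) × ((ZMod p)ˣ × (ZMod p)ˣ) =>
      quad p z.1 z.2)).card =
      ∑ x : (ZMod p)ˣ × (ZMod p)ˣ, (univ.filter (fun y => quad p x y)).card := by
    rw [Finset.card_filter, Fintype.sum_prod_type]
    apply Finset.sum_congr rfl
    intro x _
    rw [Finset.card_filter]
  rw [h1]
  calc ∑ x : (ZMod p)ˣ × (ZMod p)ˣ, (univ.filter (fun y => quad p x y)).card
      ≤ ∑ x : (ZMod p)ˣ × (ZMod p)ˣ, ((if (x.1 : ZMod p) + x.2 = 0 then (p - 1) else 0) + 2) := by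
        apply Finset.sum_le_sum
        intro x _
        refine (quad_fiber x).trans ?_
        split_ifs <;> omega
    _ = (∑ x : (ZMod p)ˣ × (ZMod p)ˣ, if (x.1 : ZMod p) + x.2 = 0 then (p - 1) else 0) +
          2 * (p - 1) ^ 2 := by
        rw [Finset.sum_add_distrib, Finset.sum_const, Finset.card_univ, Fintype.card_prod,
          ZMod.card_units, smul_eq_mul]
        ring
    _ ≤ (p - 1) ^ 2 + 2 * (p - 1) ^ 2 := by
        apply Nat.add_le_add_right
        rw [← Finset.sum_filter, Finset.sum_const, smul_eq_mul, pow_two]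
        apply Nat.mul_le_mul_right
        calc (univ.filter (fun x : (ZMod p)ˣ × (ZMod p)ˣ => (x.1 : ZMod p) + x.2 = 0)).card
            ≤ (univ : Finset (ZMod p)ˣ).card := by
              apply Finset.card_le_card_of_injOn (fun y => y.1) (fun _ _ => by simp)
              intro y hy y' hy' hyy
              have hq := (mem_filter.1 (mem_coe.1 hy)).2
              have hq' := (mem_filter.1 (mem_coe.1 hy')).2
              simp only at hyy
              apply Prod.ext hyy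
              apply Units.ext
              rw [hyy] at hq
              linear_combination hq - hq'
          _ = p - 1 := by rw [Finset.card_univ, ZMod.card_units]
    _ = 3 * (p - 1) ^ 2 := by ring

/-- the fourth moment -/
lemma fourth_moment (ψ : AddChar (ZMod p) ℂ) (hψ : ψ.IsPrimitive) :
    ∑ a : ZMod p, ∑ b : ZMod p, ‖kl ψ a b‖ ^ 4 ≤ (p : ℝ) ^ 2 * (3 * ((p : ℝ) - 1) ^ 2) := by
  classical
  have hp : 1 ≤ p := (Fact.out : p.Prime).one_lt.le
  -- the square of `kl`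
  have hsq : ∀ a b : ZMod p, (kl ψ a b) ^ 2 = ∑ x : (ZMod p)ˣ × (ZMod p)ˣ,
      ψ (a * ((x.1 : ZMod p) + x.2) +
        b * (((x.1⁻¹ : (ZMod p)ˣ) : ZMod p) + ((x.2⁻¹ : (ZMod p)ˣ) : ZMod p))) := by
    intro a b
    rw [pow_two, kl, Finset.sum_mul_sum, Fintype.sum_prod_type]
    apply Finset.sum_congr rfl; intro u _
    apply Finset.sum_congr rfl; intro v _
    rw [← AddChar.map_add_eq_mul]
    congr 1; ring
  have hcj : ∀ x : ZMod p, starRingEnd ℂ (ψ x) = ψ (-x) := by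
    intro x
    rw [AddChar.map_neg_eq_conj]
  have h4 : ∀ a b : ZMod p, ((‖kl ψ a b‖ ^ 4 : ℝ) : ℂ) =
      ∑ z : ((ZMod p)ˣ × (ZMod p)ˣ) × ((ZMod p)ˣ × (ZMod p)ˣ),
        ψ (a * (((z.1.1 : ZMod p) + z.1.2) - (z.2.1 + z.2.2))) *
        ψ (b * ((((z.1.1⁻¹ : (ZMod p)ˣ) : ZMod p) + ((z.1.2⁻¹ : (ZMod p)ˣ) : ZMod p)) -
          (((z.2.1⁻¹ : (ZMod p)ˣ) : ZMod p) + ((z.2.2⁻¹ : (ZMod p)ˣ) : ZMod p)))) := by
    intro a b
    have e1 : ((‖kl ψ a b‖ ^ 4 : ℝ) : ℂ) = (kl ψ a b) ^ 2 * starRingEnd ℂ ((kl ψ a b) ^ 2) := by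
      rw [Complex.mul_conj, Complex.normSq_eq_norm_sq, norm_pow]
      push_cast
      ring
    rw [e1, hsq, map_sum, Finset.sum_mul_sum]
    symm
    rw [Fintype.sum_prod_type]
    symm
    apply Finset.sum_congr rfl; intro x _
    apply Finset.sum_congr rfl; intro y _
    rw [hcj, ← AddChar.map_add_eq_mul, ← AddChar.map_add_eq_mul]
    congr 1; ring
  have h5 : ((∑ a : ZMod p, ∑ b : ZMod p, ‖kl ψ a b‖ ^ 4 : ℝ) : ℂ) =
      ∑ z : ((ZMod p)ˣ × (ZMod p)ˣ) × ((ZMod p)ˣ × (ZMod p)ˣ),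
        if quad p z.1 z.2 then (p : ℂ) ^ 2 else 0 := by
    push_cast
    have : ∀ a b : ZMod p, (‖kl ψ a b‖ : ℂ) ^ 4 = ((‖kl ψ a b‖ ^ 4 : ℝ) : ℂ) := by
      intro a b; push_cast; rfl
    simp_rw [this, h4]
    rw [Finset.sum_congr rfl (fun a _ => Finset.sum_comm), Finset.sum_comm]
    apply Finset.sum_congr rfl; intro z _
    rw [← Finset.sum_mul_sum]
    rw [AddChar.sum_mulShift _ hψ, AddChar.sum_mulShift _ hψ]
    by_cases hz : quad p z.1 z.2
    · rw [if_pos hz, if_pos (by rw [hz.1]; ring), if_pos (by rw [hz.2]; ring)]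
      rw [ZMod.card]; ring
    · rw [if_neg hz]
      unfold quad at hz
      by_cases h1 : (z.1.1 : ZMod p) + z.1.2 - (z.2.1 + z.2.2) = 0
      · have h2 : ¬ ((((z.1.1⁻¹ : (ZMod p)ˣ) : ZMod p) + ((z.1.2⁻¹ : (ZMod p)ˣ) : ZMod p)) -
          (((z.2.1⁻¹ : (ZMod p)ˣ) : ZMod p) + ((z.2.2⁻¹ : (ZMod p)ˣ) : ZMod p))) = 0 := by
          intro h2
          exact hz ⟨by linear_combination h1, by linear_combination h2⟩
        rw [if_neg h2, Nat.cast_zero, mul_zero]
      · rw [if_neg h1, Nat.cast_zero, zero_mul]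
  have h6 : (∑ a : ZMod p, ∑ b : ZMod p, ‖kl ψ a b‖ ^ 4 : ℝ) =
      (p : ℝ) ^ 2 * ((univ.filter (fun z : ((ZMod p)ˣ × (ZMod p)ˣ) × ((ZMod p)ˣ × (ZMod p)ˣ) =>
        quad p z.1 z.2)).card : ℝ) := by
    have : ((∑ a : ZMod p, ∑ b : ZMod p, ‖kl ψ a b‖ ^ 4 : ℝ) : ℂ) =
      (((p : ℝ) ^ 2 * ((univ.filter (fun z : ((ZMod p)ˣ × (ZMod p)ˣ) × ((ZMod p)ˣ × (ZMod p)ˣ) =>
        quad p z.1 z.2)).card : ℝ) : ℝ) : ℂ) := by
      rw [h5, ← Finset.sum_filter, Finset.sum_const, nsmul_eq_mul]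
      push_cast
      ring
    exact_mod_cast this
  rw [h6]
  apply mul_le_mul_of_nonneg_left _ (by positivity)
  have := quad_count (p := p)
  calc ((univ.filter (fun z : ((ZMod p)ˣ × (ZMod p)ˣ) × ((ZMod p)ˣ × (ZMod p)ˣ) =>
        quad p z.1 z.2)).card : ℝ) ≤ ((3 * (p - 1) ^ 2 : ℕ) : ℝ) := by exact_mod_cast this
    _ = 3 * ((p : ℝ) - 1) ^ 2 := by push_cast [Nat.cast_sub hp]; ring

/-- the invariance -/
lemma kl_scale (ψ : AddChar (ZMod p) ℂ) (a b : ZMod p) (c : (ZMod p)ˣ) :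
    kl ψ (a * c) (b * ((c⁻¹ : (ZMod p)ˣ) : ZMod p)) = kl ψ a b := by
  unfold kl
  symm
  rw [← Equiv.sum_comp (Equiv.mulLeft c)]
  symm
  apply Finset.sum_congr rfl; intro u _
  simp only [Equiv.coe_mulLeft, mul_inv_rev, Units.val_mul]
  congr 1; ring

/-- `|K(a,b)|⁴ ≤ 3 p³` unless `a = b = 0` -/
lemma kl_prime_bound (ψ : AddChar (ZMod p) ℂ) (hψ : ψ.IsPrimitive) (a b : ZMod p)
    (hab : a ≠ 0 ∨ b ≠ 0) : ‖kl ψ a b‖ ^ 4 ≤ 3 * (p : ℝ) ^ 3 := by
  classical
  have hp2 : (2 : ℝ) ≤ p := by exact_mod_cast (Fact.out : p.Prime).two_le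
  -- the sum over all units
  have hone : ∀ c : ZMod p, c ≠ 0 → ∑ u : (ZMod p)ˣ, ψ (c * u) = -1 := by
    intro c hc
    have h1 := AddChar.sum_mulShift c hψ
    rw [if_neg hc] at h1
    have h2 : ∑ x : ZMod p, ψ (x * c) = ψ 0 + ∑ u : (ZMod p)ˣ, ψ (c * u) := by
      rw [← Finset.add_sum_erase univ (fun x => ψ (x * c)) (mem_univ 0), zero_mul]
      congr 1
      symm
      apply Finset.sum_bij (fun (u : (ZMod p)ˣ) _ => (u : ZMod p))
      · intro u _
        simp
      · intro u _ v _ h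
        exact Units.ext h
      · intro x hx
        rw [mem_erase] at hx
        exact ⟨Units.mk0 x hx.1, mem_univ _, rfl⟩
      · intro u _
        rw [mul_comm]
    rw [h2, AddChar.map_zero_eq_one] at h1
    linear_combination h1
  rcases eq_or_ne a 0 with ha | ha
  · have hb : b ≠ 0 := by tauto
    have : kl ψ a b = -1 := by
      refine Eq.trans ?_ (hone b hb)
      unfold kl
      rw [← Equiv.sum_comp (Equiv.inv (ZMod p)ˣ)]
      apply Finset.sum_congr rfl; intro u _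
      rw [ha, Equiv.inv_apply, inv_inv, zero_mul, zero_add]
    rw [this]
    norm_num
    nlinarith [pow_le_pow_left₀ (by norm_num) hp2 3]
  · rcases eq_or_ne b 0 with hb | hb
    · have : kl ψ a b = -1 := by
        refine Eq.trans ?_ (hone a ha)
        unfold kl
        apply Finset.sum_congr rfl; intro u _
        rw [hb, zero_mul, add_zero]
      rw [this]
      norm_num
      nlinarith [pow_le_pow_left₀ (by norm_num) hp2 3]
    · -- both nonzero
      have h1 := fourth_moment ψ hψ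
      have h2 : ∑ c : (ZMod p)ˣ, ‖kl ψ (a * c) (b * ((c⁻¹ : (ZMod p)ˣ) : ZMod p))‖ ^ 4 ≤
          ∑ x : ZMod p × ZMod p, ‖kl ψ x.1 x.2‖ ^ 4 := by
        have hinj : Function.Injective (fun c : (ZMod p)ˣ =>
            ((a * c, b * ((c⁻¹ : (ZMod p)ˣ) : ZMod p)) : ZMod p × ZMod p)) := by
          intro c d hcd
          simp only [Prod.mk.injEq] at hcd
          exact Units.ext (mul_left_cancel₀ ha hcd.1)
        calc ∑ c : (ZMod p)ˣ, ‖kl ψ (a * c) (b * ((c⁻¹ : (ZMod p)ˣ) : ZMod p))‖ ^ 4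
            = ∑ x ∈ univ.image (fun c : (ZMod p)ˣ =>
            ((a * c, b * ((c⁻¹ : (ZMod p)ˣ) : ZMod p)) : ZMod p × ZMod p)), ‖kl ψ x.1 x.2‖ ^ 4 := by
              rw [Finset.sum_image (fun x _ y _ h => hinj h)]
          _ ≤ _ := Finset.sum_le_sum_of_subset_of_nonneg (subset_univ _)
              (fun _ _ _ => by positivity)
      rw [Fintype.sum_prod_type] at h2
      simp_rw [kl_scale] at h2
      rw [Finset.sum_const, Finset.card_univ, ZMod.card_units, nsmul_eq_mul] at h2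
      have hp1 : 1 ≤ p := (Fact.out : p.Prime).one_lt.le
      rw [Nat.cast_sub hp1, Nat.cast_one] at h2
      have h3 := h2.trans h1
      have h4 : (0 : ℝ) < (p : ℝ) - 1 := by linarith
      have h5 : ‖kl ψ a b‖ ^ 4 ≤ (p : ℝ) ^ 2 * (3 * ((p : ℝ) - 1)) := by
        apply le_of_mul_le_mul_left _ h4
        calc ((p : ℝ) - 1) * ‖kl ψ a b‖ ^ 4 ≤ _ := h3
          _ = _ := by ring
      calc ‖kl ψ a b‖ ^ 4 ≤ (p : ℝ) ^ 2 * (3 * ((p : ℝ) - 1)) := h5
        _ ≤ 3 * (p : ℝ) ^ 3 := by nlinarith [sq_nonneg (p : ℝ)]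

end prime

end Pool.Agent.Helper94.NA
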