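import Mathlib
import Pool.Agent.Helper94.NA.Kloo

/-! # Kloosterman sums to moduli with a large prime dividing exactly -/

set_option autoImplicit false

noncomputable section

open Finset

namespace Pool.Agent.Helper94.NA

lemma kl_norm_le {R : Type} [CommRing R] [Fintype R] [DecidableEq R] (ψ : AddChar R ℂ) (a b : R) :
    ‖kl ψ a b‖ ≤ (Fintype.card Rˣ : ℝ) := by
  unfold kl
  refine (norm_sum_le _ _).trans ?_
  have : ∀ u : Rˣ, ‖ψ (a * u + b * ((u⁻¹ : Rˣ) : R))‖ = 1 := fun u => AddChar.norm_apply _ _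
  simp_rw [this]
  rw [Finset.sum_const, Finset.card_univ, nsmul_eq_mul, mul_one]

section prod

variable {R R1 R2 : Type} [CommRing R] [Fintype R] [DecidableEq R] [CommRing R1] [Fintype R1]
  [DecidableEq R1] [CommRing R2] [Fintype R2] [DecidableEq R2]

/-- first component of a character -/
def ch1 (e : R ≃+* R1 × R2) (ψ : AddChar R ℂ) : AddChar R1 ℂ :=
  ψ.compAddMonoidHom (e.symm.toAddEquiv.toAddMonoidHom.comp (AddMonoidHom.inl R1 R2))

/-- second component of a character -/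
def ch2 (e : R ≃+* R1 × R2) (ψ : AddChar R ℂ) : AddChar R2 ℂ :=
  ψ.compAddMonoidHom (e.symm.toAddEquiv.toAddMonoidHom.comp (AddMonoidHom.inr R1 R2))

omit [Fintype R] [DecidableEq R] [Fintype R1] [DecidableEq R1] [Fintype R2] [DecidableEq R2] in
lemma ch_mul (e : R ≃+* R1 × R2) (ψ : AddChar R ℂ) (x : R) :
    ψ x = ch1 e ψ (e x).1 * ch2 e ψ (e x).2 := by
  unfold ch1 ch2
  simp only [AddChar.compAddMonoidHom_apply, AddMonoidHom.comp_apply, AddMonoidHom.inl_apply,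
    AddMonoidHom.inr_apply]
  rw [← AddChar.map_add_eq_mul]
  congr 1
  have : x = e.symm ((e x).1, (e x).2) := by simp
  conv_lhs => rw [this]
  have h2 : (((e x).1, (e x).2) : R1 × R2) = ((e x).1, 0) + (0, (e x).2) := by simp
  rw [h2, map_add]
  rfl

lemma kl_prod (e : R ≃+* R1 × R2) (ψ : AddChar R ℂ) (a b : R) :
    kl ψ a b = kl (ch1 e ψ) (e a).1 (e b).1 * kl (ch2 e ψ) (e a).2 (e b).2 := by
  unfold kl
  rw [Finset.sum_mul_sum, ← Fintype.sum_prod_type']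
  let E : Rˣ ≃* R1ˣ × R2ˣ := (Units.mapEquiv e.toMulEquiv).trans MulEquiv.prodUnits
  apply Fintype.sum_equiv E.toEquiv
  intro u
  have h1 : (((E u).1 : R1ˣ) : R1) = (e (u : R)).1 := rfl
  have h2 : (((E u).2 : R2ˣ) : R2) = (e (u : R)).2 := rfl
  have h3 : ((((E u).1)⁻¹ : R1ˣ) : R1) = (e ((u⁻¹ : Rˣ) : R)).1 := by
    have : ((E u).1)⁻¹ = (E u⁻¹).1 := by rw [map_inv]; rfl
    rw [this]; rfl
  have h4 : ((((E u).2)⁻¹ : R2ˣ) : R2) = (e ((u⁻¹ : Rˣ) : R)).2 := by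
    have : ((E u).2)⁻¹ = (E u⁻¹).2 := by rw [map_inv]; rfl
    rw [this]; rfl
  change _ = ch1 e ψ ((e a).1 * (((E u).1 : R1ˣ) : R1) + (e b).1 * ((((E u).1)⁻¹ : R1ˣ) : R1)) *
    ch2 e ψ ((e a).2 * (((E u).2 : R2ˣ) : R2) + (e b).2 * ((((E u).2)⁻¹ : R2ˣ) : R2))
  rw [h1, h2, h3, h4, ch_mul e ψ]
  simp only [map_add, map_mul, Prod.fst_add, Prod.snd_add, Prod.fst_mul, Prod.snd_mul]

end prod

/-- The Kloosterman sum of modulus `g` with frequencies `k`, `l` -/
def klo (g : ℕ) [NeZero g] (k l : ℤ) : ℂ :=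
  kl (ZMod.stdAddChar (N := g)) (k : ZMod g) (l : ZMod g)

lemma klo_norm_le (g : ℕ) [NeZero g] (k l : ℤ) : ‖klo g k l‖ ≤ (g.totient : ℝ) := by
  have := kl_norm_le (ZMod.stdAddChar (N := g)) (k : ZMod g) (l : ZMod g)
  rwa [ZMod.card_units_eq_totient] at this

lemma klo_prime_bound (p g' : ℕ) [Fact p.Prime] [NeZero g'] [NeZero (p * g')]
    (hc : Nat.Coprime p g') (k l : ℤ) (h : ¬ ((p : ℤ) ∣ k ∧ (p : ℤ) ∣ l)) :
    ‖klo (p * g') k l‖ ^ 4 ≤ 3 * (p : ℝ) ^ 3 * (g' : ℝ) ^ 4 := by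
  set e := ZMod.chineseRemainder hc with he
  set ψ := ZMod.stdAddChar (N := p * g') with hψ
  have h0 : klo (p * g') k l = kl (ch1 e ψ) (k : ZMod p) (l : ZMod p) *
      kl (ch2 e ψ) (k : ZMod g') (l : ZMod g') := by
    unfold klo
    rw [kl_prod e]
    congr 1
    · congr 1
      · have : e (k : ZMod (p * g')) = (k : ZMod p × ZMod g') := by rw [map_intCast]
        rw [this]; simp
      · have : e (l : ZMod (p * g')) = (l : ZMod p × ZMod g') := by rw [map_intCast]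
        rw [this]; simp
    · congr 1
      · have : e (k : ZMod (p * g')) = (k : ZMod p × ZMod g') := by rw [map_intCast]
        rw [this]; simp
      · have : e (l : ZMod (p * g')) = (l : ZMod p × ZMod g') := by rw [map_intCast]
        rw [this]; simp
  have hprim : (ch1 e ψ).IsPrimitive := by
    apply AddChar.IsPrimitive.of_ne_one
    intro h1
    have h2 : ch1 e ψ 1 = 1 := by rw [h1]; rfl
    have h3 : ψ (e.symm (1, 0)) = ψ 0 := by
      rw [AddChar.map_zero_eq_one]; exact h2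
    have h4 := ZMod.injective_stdAddChar h3
    have h5 : ((1 : ZMod p), (0 : ZMod g')) = 0 := by
      have := congrArg e h4
      rwa [RingEquiv.apply_symm_apply, map_zero] at this
    exact one_ne_zero (congrArg Prod.fst h5)
  have hab : (k : ZMod p) ≠ 0 ∨ (l : ZMod p) ≠ 0 := by
    by_contra hcon
    push Not at hcon
    exact h ⟨(ZMod.intCast_zmod_eq_zero_iff_dvd _ _).1 hcon.1,
      (ZMod.intCast_zmod_eq_zero_iff_dvd _ _).1 hcon.2⟩
  rw [h0, norm_mul, mul_pow]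
  apply mul_le_mul (kl_prime_bound _ hprim _ _ hab) _ (by positivity) (by positivity)
  apply pow_le_pow_left₀ (norm_nonneg _)
  refine (kl_norm_le _ _ _).trans ?_
  rw [ZMod.card_units_eq_totient]
  exact_mod_cast Nat.totient_le g'

/-- if some prime `p > P` divides `g` exactly and does not divide both frequencies -/
lemma klo_bound (g : ℕ) [NeZero g] (k l : ℤ) (p P : ℕ) (hp : p.Prime) (hP : 0 < P) (hPp : P ≤ p)
    (hpg : p ∣ g) (hpg2 : ¬ p ^ 2 ∣ g) (h : ¬ ((p : ℤ) ∣ k ∧ (p : ℤ) ∣ l)) :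
    ‖klo g k l‖ ^ 4 ≤ 3 * (g : ℝ) ^ 4 / P := by
  obtain ⟨g', rfl⟩ := hpg
  haveI : Fact p.Prime := ⟨hp⟩
  have hg' : g' ≠ 0 := by
    rintro rfl
    exact NeZero.ne (p * 0) (by simp)
  haveI : NeZero g' := ⟨hg'⟩
  have hc : Nat.Coprime p g' := by
    rw [Nat.Prime.coprime_iff_not_dvd hp]
    intro h1
    apply hpg2
    rw [pow_two]
    exact Nat.mul_dvd_mul_left p h1
  refine (klo_prime_bound p g' hc k l h).trans ?_
  have hP' : (0 : ℝ) < P := by exact_mod_cast hP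
  have hp' : (0 : ℝ) < p := by exact_mod_cast hp.pos
  rw [le_div_iff₀ hP']
  push_cast
  have h1 : (P : ℝ) ≤ p := by exact_mod_cast hPp
  calc 3 * (p : ℝ) ^ 3 * (g' : ℝ) ^ 4 * P ≤ 3 * (p : ℝ) ^ 3 * (g' : ℝ) ^ 4 * p :=
        mul_le_mul_of_nonneg_left h1 (by positivity)
    _ = 3 * ((p : ℝ) * g') ^ 4 := by ring

end Pool.Agent.Helper94.NA
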