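import Mathlib

/-! # Almost every integer is divisible exactly once by some large prime -/

set_option autoImplicit false

noncomputable section

open Finset Filter Topology

namespace Pool.Agent.Helper94.NA

/-- no prime `≥ P` divides `g` exactly once -/
def bad (P g : ℕ) : Prop := ∀ p : ℕ, p.Prime → P ≤ p → p ∣ g → p ^ 2 ∣ g

lemma sq_count (X p : ℕ) (hp : 0 < p) :
    (((range X).filter (fun g => p ^ 2 ∣ g)).card : ℝ) ≤ (X : ℝ) * ((p : ℝ) ^ 2)⁻¹ + 1 := by
  have h1 : ((range X).filter (fun g => p ^ 2 ∣ g)).card ≤ X / p ^ 2 + 1 := by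
    have : (range X).filter (fun g => p ^ 2 ∣ g) ⊆
        (range (X / p ^ 2 + 1)).image (fun i => p ^ 2 * i) := by
      intro g hg
      rw [mem_filter, mem_range] at hg
      obtain ⟨i, rfl⟩ := hg.2
      rw [mem_image]
      refine ⟨i, ?_, rfl⟩
      rw [mem_range]
      have : i ≤ X / p ^ 2 := by
        rw [Nat.le_div_iff_mul_le (by positivity)]
        nlinarith [hg.1]
      omega
    refine (card_le_card this).trans ?_
    refine card_image_le.trans ?_
    rw [card_range]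
  calc (((range X).filter (fun g => p ^ 2 ∣ g)).card : ℝ) ≤ ((X / p ^ 2 + 1 : ℕ) : ℝ) := by
        exact_mod_cast h1
    _ = ((X / p ^ 2 : ℕ) : ℝ) + 1 := by push_cast; ring
    _ ≤ (X : ℝ) / ((p ^ 2 : ℕ) : ℝ) + 1 := by
        gcongr
        exact Nat.cast_div_le
    _ = _ := by push_cast; ring

lemma coprime_count (X W : ℕ) (hW : 0 < W) :
    (((range X).filter (fun g => W.Coprime g)).card : ℝ) ≤
      (X : ℝ) * ((W.totient : ℝ) / W) + W.totient := by
  have h2 := Nat.Ico_filter_coprime_le (a := W) 0 X hW.ne'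
  rw [zero_add, ← Finset.range_eq_Ico] at h2
  calc (((range X).filter (fun g => W.Coprime g)).card : ℝ) ≤ ((W.totient * (X / W + 1) : ℕ) : ℝ) := by
        exact_mod_cast h2
    _ = (W.totient : ℝ) * ((X / W : ℕ) : ℝ) + W.totient := by push_cast; ring
    _ ≤ (W.totient : ℝ) * ((X : ℝ) / W) + W.totient := by
        gcongr
        exact Nat.cast_div_le
    _ = _ := by ring

lemma totient_prod_primes (Q : Finset ℕ) (hQ : ∀ p ∈ Q, p.Prime) :
    (((∏ p ∈ Q, p).totient : ℝ) / ((∏ p ∈ Q, p : ℕ) : ℝ)) ≤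
      Real.exp (-∑ p ∈ Q, (1 : ℝ) / p) := by
  have hpos : 0 < ∏ p ∈ Q, p := Finset.prod_pos (fun p hp => (hQ p hp).pos)
  have h1 := Nat.totient_eq_mul_prod_factors (∏ p ∈ Q, p)
  rw [Nat.primeFactors_prod hQ] at h1
  have h2 : (((∏ p ∈ Q, p).totient : ℝ) : ℝ) =
      ((∏ p ∈ Q, p : ℕ) : ℝ) * ∏ p ∈ Q, (1 - (p : ℝ)⁻¹) := by
    have h3 := congrArg (fun x : ℚ => (x : ℝ)) h1
    push_cast at h3 ⊢
    exact h3
  rw [h2, mul_div_cancel_left₀ _ (by exact_mod_cast hpos.ne')]
  rw [← Finset.sum_neg_distrib, Real.exp_sum]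
  apply Finset.prod_le_prod
  · intro p hp
    have : (1 : ℝ) ≤ p := by exact_mod_cast (hQ p hp).one_lt.le
    have := inv_le_one_of_one_le₀ this
    linarith
  · intro p hp
    have := Real.add_one_le_exp (-(1 / (p : ℝ)))
    rw [one_div] at this ⊢
    linarith

/-- the bad integers have density zero -/
lemma bad_density (P : ℕ) (ε : ℝ) (hε : 0 < ε) :
    ∃ C : ℝ, 0 ≤ C ∧ ∀ X : ℕ, ∀ S : Finset ℕ, (∀ g ∈ S, g < X ∧ bad P g) →
      (S.card : ℝ) ≤ ε * X + C := by
  classical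
  -- choose the lower bound
  obtain ⟨P', hP'⟩ : ∃ P' : ℕ, P ≤ P' ∧ 2 / ((P' : ℝ) + 1) ≤ ε / 2 := by
    obtain ⟨n, hn⟩ := exists_nat_gt (4 / ε)
    refine ⟨max P n, le_max_left _ _, ?_⟩
    have h1 : (n : ℝ) ≤ ((max P n : ℕ) : ℝ) := by exact_mod_cast le_max_right _ _
    have h2 : 4 / ε < ((max P n : ℕ) : ℝ) + 1 := by linarith
    rw [div_le_iff₀ (by positivity)]
    rw [div_lt_iff₀ hε] at h2
    linarith
  -- divergence
  have hdiv : Tendsto (fun n : ℕ => ∑ i ∈ range n,
      Set.indicator {p : ℕ | p.Prime} (fun n : ℕ => (1 : ℝ) / n) i) atTop atTop := by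
    rw [← not_summable_iff_tendsto_nat_atTop_of_nonneg]
    · exact not_summable_one_div_on_primes
    · intro n
      apply Set.indicator_nonneg
      intro x _
      positivity
  obtain ⟨T, hT⟩ : ∃ T : ℝ, Real.exp (-T) ≤ ε / 2 := by
    refine ⟨-Real.log (ε / 2), ?_⟩
    rw [neg_neg, Real.exp_log (by positivity)]
  obtain ⟨Z, hZ, hZP⟩ := ((hdiv.eventually_ge_atTop (T + ∑ i ∈ range (P' + 1),
      Set.indicator {p : ℕ | p.Prime} (fun n : ℕ => (1 : ℝ) / n) i)).and
      (eventually_ge_atTop (P' + 1))).exists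
  set Q := (Ioo P' Z).filter Nat.Prime with hQ
  have hQp : ∀ p ∈ Q, p.Prime := fun p hp => (mem_filter.1 hp).2
  have hsumQ : T ≤ ∑ p ∈ Q, (1 : ℝ) / p := by
    have h1 : ∑ p ∈ Q, (1 : ℝ) / p = ∑ i ∈ Ico (P' + 1) Z,
      Set.indicator {p : ℕ | p.Prime} (fun n : ℕ => (1 : ℝ) / n) i := by
      rw [hQ, Finset.sum_filter]
      have : Ioo P' Z = Ico (P' + 1) Z := by
        ext x; simp only [mem_Ioo, mem_Ico]; omega
      rw [this]
      apply Finset.sum_congr rfl
      intro x _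
      rw [Set.indicator_apply]
      rfl
    rw [h1, Finset.sum_Ico_eq_sub _ hZP]
    linarith
  set W := ∏ p ∈ Q, p with hW
  have hWpos : 0 < W := Finset.prod_pos (fun p hp => (hQp p hp).pos)
  refine ⟨(Q.card : ℝ) + W.totient, by positivity, ?_⟩
  intro X S hS
  have hsub : S ⊆ (Q.biUnion (fun p => (range X).filter (fun g => p ^ 2 ∣ g))) ∪
      (range X).filter (fun g => W.Coprime g) := by
    intro g hg
    obtain ⟨h1, h2⟩ := hS g hg
    rw [mem_union]
    by_cases h3 : ∃ p ∈ Q, p ∣ g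
    · obtain ⟨p, hp, hpg⟩ := h3
      left
      rw [mem_biUnion]
      refine ⟨p, hp, ?_⟩
      rw [mem_filter, mem_range]
      refine ⟨h1, h2 p (hQp p hp) ?_ hpg⟩
      have := (mem_Ioo.1 (mem_filter.1 hp).1).1
      omega
    · right
      rw [mem_filter, mem_range]
      refine ⟨h1, ?_⟩
      apply Nat.Coprime.prod_left
      intro p hp
      rw [Nat.Prime.coprime_iff_not_dvd (hQp p hp)]
      intro h4
      exact h3 ⟨p, hp, h4⟩
  have hc1 : ((Q.biUnion (fun p => (range X).filter (fun g => p ^ 2 ∣ g))).card : ℝ) ≤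
      X * (ε / 2) + Q.card := by
    calc ((Q.biUnion (fun p => (range X).filter (fun g => p ^ 2 ∣ g))).card : ℝ)
        ≤ ((∑ p ∈ Q, ((range X).filter (fun g => p ^ 2 ∣ g)).card : ℕ) : ℝ) := by
          exact_mod_cast card_biUnion_le
      _ = ∑ p ∈ Q, (((range X).filter (fun g => p ^ 2 ∣ g)).card : ℝ) := by push_cast; rfl
      _ ≤ ∑ p ∈ Q, ((X : ℝ) * ((p : ℝ) ^ 2)⁻¹ + 1) :=
          Finset.sum_le_sum (fun p hp => sq_count X p (hQp p hp).pos)
      _ = X * ∑ p ∈ Q, ((p : ℝ) ^ 2)⁻¹ + Q.card := by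
          rw [Finset.sum_add_distrib, ← Finset.mul_sum]; simp
      _ ≤ X * ∑ p ∈ Ioo P' Z, ((p : ℝ) ^ 2)⁻¹ + Q.card := by
          gcongr
          exact filter_subset _ _
      _ ≤ X * (ε / 2) + Q.card := by
          gcongr
          exact (sum_Ioo_inv_sq_le P' Z).trans hP'.2
  have hc2 : (((range X).filter (fun g => W.Coprime g)).card : ℝ) ≤ X * (ε / 2) + W.totient := by
    have h5 : (W.totient : ℝ) / W ≤ ε / 2 := by
      refine (totient_prod_primes Q hQp).trans ?_
      refine le_trans ?_ hT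
      apply Real.exp_le_exp.2
      linarith
    refine (coprime_count X W hWpos).trans ?_
    gcongr
  calc (S.card : ℝ) ≤ (((Q.biUnion (fun p => (range X).filter (fun g => p ^ 2 ∣ g))) ∪
      (range X).filter (fun g => W.Coprime g)).card : ℝ) := by exact_mod_cast card_le_card hsub
    _ ≤ ((Q.biUnion (fun p => (range X).filter (fun g => p ^ 2 ∣ g))).card : ℝ) +
      (((range X).filter (fun g => W.Coprime g)).card : ℝ) := by exact_mod_cast card_union_le _ _
    _ ≤ _ := by linarith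

end Pool.Agent.Helper94.NA
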