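import Mathlib

/-! # The mean value of the totient over integers coprime to `N` -/

set_option autoImplicit false

noncomputable section

open Finset Filter Topology

namespace Pool.Agent.Helper94.NA

/-- the density constant -/
def rho (N : ℕ) : ℝ := 6 / Real.pi ^ 2 * ∏ p ∈ N.primeFactors, ((p : ℝ) / (p + 1))

lemma rho_pos (N : ℕ) : 0 < rho N := by
  unfold rho
  have : 0 < ∏ p ∈ N.primeFactors, ((p : ℝ) / (p + 1)) := by
    apply Finset.prod_pos
    intro p hp
    have : 0 < p := (Nat.prime_of_mem_primeFactors hp).pos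
    positivity
  have := Real.pi_pos
  positivity

/-- sum of the integers `< Y` coprime to `N` -/
def G (N Y : ℕ) : ℝ := ∑ e ∈ (range Y).filter (fun e => N.Coprime e), (e : ℝ)

lemma G_mono (N : ℕ) {Y Z : ℕ} (h : Y ≤ Z) : G N Y ≤ G N Z := by
  unfold G
  apply Finset.sum_le_sum_of_subset_of_nonneg
  · intro x hx
    rw [mem_filter, mem_range] at hx ⊢
    exact ⟨by omega, hx.2⟩
  · intro _ _ _; positivity

lemma G_block (N : ℕ) (s : ℕ) : G N (N * s) + (N * s : ℝ) * N.totient ≤ G N (N * (s + 1)) ∧
    G N (N * (s + 1)) ≤ G N (N * s) + (N * (s + 1) : ℝ) * N.totient := by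
  have h1 : G N (N * (s + 1)) = G N (N * s) +
      ∑ e ∈ (Ico (N * s) (N * s + N)).filter (fun e => N.Coprime e), (e : ℝ) := by
    unfold G
    rw [← Finset.sum_union]
    · congr 1
      ext x
      simp only [mem_union, mem_filter, mem_range, mem_Ico]
      have : N * (s + 1) = N * s + N := by ring
      rw [this]
      constructor
      · rintro ⟨h1, h2⟩
        by_cases h3 : x < N * s
        · exact Or.inl ⟨h3, h2⟩
        · exact Or.inr ⟨⟨by omega, h1⟩, h2⟩
      · rintro (⟨h1, h2⟩ | ⟨⟨h1, h2⟩, h3⟩)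
        · exact ⟨by omega, h2⟩
        · exact ⟨h2, h3⟩
    · rw [Finset.disjoint_left]
      intro x hx hx'
      rw [mem_filter, mem_range] at hx
      rw [mem_filter, mem_Ico] at hx'
      omega
  have hcard := Nat.filter_coprime_Ico_eq_totient N (N * s)
  constructor
  · rw [h1]
    gcongr
    calc (N * s : ℝ) * N.totient
        = ∑ e ∈ (Ico (N * s) (N * s + N)).filter (fun e => N.Coprime e), (N * s : ℝ) := by
          rw [Finset.sum_const, hcard, nsmul_eq_mul]; ring
      _ ≤ _ := by
          apply Finset.sum_le_sum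
          intro e he
          rw [mem_filter, mem_Ico] at he
          exact_mod_cast he.1.1
  · rw [h1]
    gcongr
    calc ∑ e ∈ (Ico (N * s) (N * s + N)).filter (fun e => N.Coprime e), (e : ℝ)
        ≤ ∑ e ∈ (Ico (N * s) (N * s + N)).filter (fun e => N.Coprime e), (N * (s + 1) : ℝ) := by
          apply Finset.sum_le_sum
          intro e he
          rw [mem_filter, mem_Ico] at he
          have : e ≤ N * (s + 1) := by nlinarith [he.1.2]
          exact_mod_cast this
      _ = _ := by
          rw [Finset.sum_const, hcard, nsmul_eq_mul]; ring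

lemma G_bounds (N : ℕ) (s : ℕ) : (N : ℝ) * N.totient * (s * (s - 1)) / 2 ≤ G N (N * s) ∧
    G N (N * s) ≤ (N : ℝ) * N.totient * (s * (s + 1)) / 2 := by
  induction s with
  | zero => simp [G]
  | succ s ih =>
    obtain ⟨h1, h2⟩ := G_block N s
    constructor
    · push_cast
      linarith [ih.1]
    · push_cast
      linarith [ih.2]

lemma tendsto_G (N : ℕ) (hN : 0 < N) :
    Tendsto (fun Y : ℕ => G N Y / (Y : ℝ) ^ 2) atTop (𝓝 ((N.totient : ℝ) / (2 * N))) := by
  have hN' : (0 : ℝ) < N := by exact_mod_cast hN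
  have key : ∀ Y : ℕ, 0 < Y → |G N Y / (Y : ℝ) ^ 2 - (N.totient : ℝ) / (2 * N)| ≤
      (3 * N * N.totient : ℝ) / (Y : ℝ) := by
    intro Y hY
    have hY' : (0 : ℝ) < Y := by exact_mod_cast hY
    have hY1 : (1 : ℝ) ≤ Y := by exact_mod_cast hY
    have hN1 : (1 : ℝ) ≤ N := by exact_mod_cast hN
    set s := Y / N with hs
    have e1 : N * s ≤ Y := Nat.mul_div_le Y N
    have e2 : Y ≤ N * (s + 1) := (Nat.lt_mul_div_succ Y hN).le
    have l1 : G N (N * s) ≤ G N Y := G_mono N e1
    have l2 : G N Y ≤ G N (N * (s + 1)) := G_mono N e2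
    have b1 := (G_bounds N s).1
    have b2 := (G_bounds N (s + 1)).2
    have e1' : (N : ℝ) * s ≤ Y := by exact_mod_cast e1
    have e2' : (Y : ℝ) ≤ N * (s + 1) := by exact_mod_cast e2
    push_cast at b2
    have ht : (0 : ℝ) ≤ N.totient := by positivity
    have hsn : (0 : ℝ) ≤ s := by positivity
    rw [abs_le]
    have hA : G N Y ≤ (N.totient : ℝ) / (2 * N) * (Y + N) * (Y + 2 * N) := by
      have h3 : (N : ℝ) * N.totient * ((s + 1) * ((s : ℝ) + 1 + 1)) / 2 =
          (N.totient : ℝ) / (2 * N) * ((N * s + N) * (N * s + 2 * N)) := by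
        field_simp
        ring
      have h4 : ((N : ℝ) * s + N) * (N * s + 2 * N) ≤ (Y + N) * (Y + 2 * N) := by
        apply mul_le_mul (by linarith) (by linarith) (by positivity) (by positivity)
      calc G N Y ≤ _ := l2.trans b2
        _ = _ := h3
        _ ≤ (N.totient : ℝ) / (2 * N) * ((Y + N) * (Y + 2 * N)) := by gcongr
        _ = _ := by ring
    have hB : (N.totient : ℝ) / (2 * N) * (Y ^ 2 - 3 * N * Y) ≤ G N Y := by
      have h3 : (N : ℝ) * N.totient * (s * ((s : ℝ) - 1)) / 2 =
          (N.totient : ℝ) / (2 * N) * ((N * s) * (N * s - N)) := by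
        field_simp
      have h4 : (Y : ℝ) ^ 2 - 3 * N * Y ≤ ((N : ℝ) * s) * (N * s - N) := by
        have h5 : (Y : ℝ) - N ≤ N * s := by linarith
        by_cases h6 : (2 * N : ℝ) ≤ Y
        · have : ((Y : ℝ) - N) * (Y - 2 * N) ≤ (N * s) * (N * s - N) := by
            apply mul_le_mul h5 (by linarith) (by linarith) (by positivity)
          nlinarith
        · push Not at h6
          have h7 : (Y : ℝ) ^ 2 - 3 * N * Y ≤ -(N * Y) := by nlinarith
          have h8 : -(N * Y : ℝ) ≤ (N * s) * (N * s - N) := by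
            nlinarith [mul_nonneg hN'.le hsn, sq_nonneg ((N : ℝ) * s)]
          linarith
      calc (N.totient : ℝ) / (2 * N) * (Y ^ 2 - 3 * N * Y)
          ≤ (N.totient : ℝ) / (2 * N) * (((N : ℝ) * s) * (N * s - N)) := by gcongr
        _ = _ := h3.symm
        _ ≤ _ := b1.trans l1
    constructor
    · have : (N.totient : ℝ) / (2 * N) + -((3 * N * N.totient : ℝ) / (Y : ℝ)) ≤
          G N Y / (Y : ℝ) ^ 2 := by
        rw [le_div_iff₀ (by positivity)]
        refine le_trans ?_ hB
        have h9 : ((N.totient : ℝ) / (2 * N) + -((3 * N * N.totient : ℝ) / (Y : ℝ))) *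
            (Y : ℝ) ^ 2 =
            (N.totient : ℝ) / (2 * N) * (Y ^ 2 - 3 * N * Y * (2 * N)) := by
          field_simp
          ring
        rw [h9]
        apply mul_le_mul_of_nonneg_left _ (by positivity)
        nlinarith [mul_pos hN' hY', mul_le_mul_of_nonneg_left hN1 (mul_pos hN' hY').le]
      linarith
    · rw [sub_le_iff_le_add, div_le_iff₀ (by positivity)]
      refine hA.trans ?_
      have h9 : ((3 * N * N.totient : ℝ) / (Y : ℝ) + (N.totient : ℝ) / (2 * N)) * (Y : ℝ) ^ 2 =
          (N.totient : ℝ) / (2 * N) * (Y ^ 2 + 6 * N * Y * N) := by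
        field_simp
        ring
      rw [h9, mul_assoc]
      gcongr
      nlinarith [mul_pos hN' hY', mul_pos hN' hN', mul_le_mul hN1 hY1 (by norm_num) hN'.le]
  rw [tendsto_iff_norm_sub_tendsto_zero]
  refine squeeze_zero' (Eventually.of_forall (fun _ => norm_nonneg _)) ?_
    (tendsto_const_div_atTop_nhds_zero_nat (3 * N * N.totient : ℝ))
  filter_upwards [eventually_gt_atTop 0] with Y hY
  exact key Y hY

/-- the inner sums -/
def T (N d X : ℕ) : ℝ := ∑ e ∈ (range X).filter (fun e => N.Coprime e ∧ d * e < X), (e : ℝ)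

lemma T_eq (N d X : ℕ) (hd : 0 < d) : T N d X = G N ((X + d - 1) / d) := by
  unfold T G
  congr 1
  ext e
  simp only [mem_filter, mem_range]
  have h1 : e < (X + d - 1) / d ↔ d * e < X := by
    rw [Nat.lt_iff_add_one_le, Nat.le_div_iff_mul_le hd]
    have : (e + 1) * d = d * e + d := by ring
    rw [this]
    omega
  rw [h1]
  constructor
  · rintro ⟨_, h2, h3⟩; exact ⟨h3, h2⟩
  · rintro ⟨h2, h3⟩
    exact ⟨lt_of_le_of_lt (Nat.le_mul_of_pos_left e hd) h2, h3, h2⟩

lemma T_nonneg (N d X : ℕ) : 0 ≤ T N d X := by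
  unfold T; positivity

lemma T_le (N d X : ℕ) (hd : 0 < d) : T N d X ≤ ((X : ℝ) / d) ^ 2 := by
  rcases Nat.eq_zero_or_pos X with rfl | hX
  · simp [T]
  have hd' : (0 : ℝ) < d := by exact_mod_cast hd
  set Z := (X - 1) / d with hZ
  have h1 : T N d X ≤ ∑ e ∈ range (Z + 1), (e : ℝ) := by
    unfold T
    apply Finset.sum_le_sum_of_subset_of_nonneg
    · intro e he
      rw [mem_filter, mem_range] at he
      rw [mem_range, Nat.lt_succ_iff, hZ, Nat.le_div_iff_mul_le hd]
      have := he.2.2
      rw [mul_comm] at this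
      omega
    · intro _ _ _; positivity
  have h2 : ∑ e ∈ range (Z + 1), (e : ℝ) ≤ (Z : ℝ) ^ 2 := by
    have h3 : ∀ Z : ℕ, ∑ e ∈ range (Z + 1), (e : ℝ) = (Z : ℝ) * (Z + 1) / 2 := by
      intro Z
      induction Z with
      | zero => simp
      | succ n ih => rw [Finset.sum_range_succ, ih]; push_cast; ring
    rw [h3]
    rcases Nat.eq_zero_or_pos Z with h0 | h0
    · rw [h0]; simp
    · have : (1 : ℝ) ≤ Z := by exact_mod_cast h0
      nlinarith
  refine h1.trans (h2.trans ?_)
  apply pow_le_pow_left₀ (by positivity)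
  rw [le_div_iff₀ hd']
  have : Z * d ≤ X := (Nat.div_mul_le_self _ _).trans (Nat.sub_le _ _)
  exact_mod_cast this

lemma T_tendsto (N d : ℕ) (hN : 0 < N) (hd : 0 < d) :
    Tendsto (fun X : ℕ => T N d X / (X : ℝ) ^ 2) atTop
      (𝓝 ((N.totient : ℝ) / (2 * N) / (d : ℝ) ^ 2)) := by
  have hd' : (0 : ℝ) < d := by exact_mod_cast hd
  have hY : Tendsto (fun X : ℕ => (X + d - 1) / d) atTop atTop := by
    rw [tendsto_atTop_atTop]
    intro b
    refine ⟨b * d, fun a ha => ?_⟩
    rw [Nat.le_div_iff_mul_le hd]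
    omega
  have h1 := (tendsto_G N hN).comp hY
  have h2 : Tendsto (fun X : ℕ => (((X + d - 1) / d : ℕ) : ℝ) / X) atTop (𝓝 (1 / (d : ℝ))) := by
    rw [tendsto_iff_norm_sub_tendsto_zero]
    refine squeeze_zero' (Eventually.of_forall (fun _ => norm_nonneg _)) ?_
      (tendsto_const_div_atTop_nhds_zero_nat (1 : ℝ))
    filter_upwards [eventually_gt_atTop 0] with X hX
    have hX' : (0 : ℝ) < X := by exact_mod_cast hX
    rw [Real.norm_eq_abs]
    have l1 : (X : ℝ) ≤ d * (((X + d - 1) / d : ℕ) : ℝ) := by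
      have : X ≤ d * ((X + d - 1) / d) := by
        have := Nat.lt_mul_div_succ (X + d - 1) hd
        have h' : d * ((X + d - 1) / d + 1) = d * ((X + d - 1) / d) + d := by ring
        rw [h'] at this
        omega
      exact_mod_cast this
    have l2 : (d : ℝ) * (((X + d - 1) / d : ℕ) : ℝ) ≤ X + d := by
      have : d * ((X + d - 1) / d) ≤ X + d := (Nat.mul_div_le _ _).trans (Nat.sub_le _ _)
      exact_mod_cast this
    have l3 : (((X + d - 1) / d : ℕ) : ℝ) / X - 1 / d =
        (d * (((X + d - 1) / d : ℕ) : ℝ) - X) / (X * d) := by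
      field_simp
    rw [l3, abs_of_nonneg (by apply div_nonneg (by linarith) (by positivity))]
    rw [div_le_div_iff₀ (by positivity) hX']
    nlinarith
  have h3 := h1.mul (h2.pow 2)
  have h4 : (N.totient : ℝ) / (2 * N) * (1 / (d : ℝ)) ^ 2 =
      (N.totient : ℝ) / (2 * N) / (d : ℝ) ^ 2 := by ring
  rw [h4] at h3
  refine h3.congr' ?_
  filter_upwards [eventually_gt_atTop 0] with X hX
  have hX' : (0 : ℝ) < X := by exact_mod_cast hX
  have hYp : (0 : ℝ) < (((X + d - 1) / d : ℕ) : ℝ) := by
    have : 0 < (X + d - 1) / d := Nat.div_pos (by omega) hd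
    exact_mod_cast this
  simp only [Function.comp]
  rw [T_eq N d X hd]
  field_simp

open ArithmeticFunction in
/-- the Möbius sum -/
lemma mu_sum (N : ℕ) (hN : 0 < N) :
    ∑' d : ℕ, (if N.Coprime d then (ArithmeticFunction.moebius d : ℝ) / (d : ℝ) ^ 2 else 0) *
      ((N.totient : ℝ) / (2 * N)) = rho N / 2 := by
  haveI : NeZero N := ⟨hN.ne'⟩
  rw [tsum_mul_right]
  have h1 := DirichletCharacter.LSeries.mul_mu_eq_one (1 : DirichletCharacter ℂ N) (s := 2)
    (by norm_num)
  have h2 : LSeries (fun n : ℕ => (1 : DirichletCharacter ℂ N) n) 2 =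
      (∏ p ∈ N.primeFactors, (1 - (p : ℂ) ^ (-2 : ℂ))) * riemannZeta 2 := by
    rw [← DirichletCharacter.LFunctionTrivChar_eq_mul_riemannZeta (by norm_num)]
    rw [DirichletCharacter.LFunctionTrivChar, DirichletCharacter.LFunction_eq_LSeries _ (by norm_num)]
  rw [h2, riemannZeta_two] at h1
  have h3 : LSeries ((fun n : ℕ => (1 : DirichletCharacter ℂ N) n) *
      (fun n : ℕ => ((moebius n : ℤ) : ℂ))) 2 =
      ((∑' d : ℕ, (if N.Coprime d then (moebius d : ℝ) / (d : ℝ) ^ 2 else 0) : ℝ) : ℂ) := by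
    rw [LSeries, Complex.ofReal_tsum]
    apply tsum_congr
    intro d
    rcases Nat.eq_zero_or_pos d with rfl | hd
    · simp
    · rw [LSeries.term_of_ne_zero hd.ne', Pi.mul_apply]
      by_cases hc : N.Coprime d
      · rw [if_pos hc]
        have hu : IsUnit (d : ZMod N) := by
          rw [ZMod.isUnit_iff_coprime]; exact hc.symm
        rw [MulChar.one_apply hu, one_mul]
        push_cast
        congr 1
        exact Complex.cpow_natCast (d : ℂ) 2
      · rw [if_neg hc]
        have hu : ¬ IsUnit (d : ZMod N) := by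
          rw [ZMod.isUnit_iff_coprime]; exact fun h => hc h.symm
        rw [MulChar.map_nonunit _ hu]
        simp
  rw [h3] at h1
  set S : ℝ := ∑' d : ℕ, (if N.Coprime d then (moebius d : ℝ) / (d : ℝ) ^ 2 else 0) with hS
  have h4 : (∏ p ∈ N.primeFactors, (1 - 1 / (p : ℝ) ^ 2)) * (Real.pi ^ 2 / 6) * S = 1 := by
    have h5 : (((∏ p ∈ N.primeFactors, (1 - 1 / (p : ℝ) ^ 2)) * (Real.pi ^ 2 / 6) * S : ℝ) : ℂ) =
        ((1 : ℝ) : ℂ) := by
      rw [Complex.ofReal_one, ← h1]
      push_cast
      congr 2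
      apply Finset.prod_congr rfl
      intro p _
      congr 1
      rw [Complex.cpow_neg, one_div]
      congr 1
      exact (Complex.cpow_natCast (p : ℂ) 2).symm
    exact_mod_cast h5
  have hprod : (∏ p ∈ N.primeFactors, (1 - 1 / (p : ℝ) ^ 2)) =
      (∏ p ∈ N.primeFactors, (1 - (p : ℝ)⁻¹)) / ∏ p ∈ N.primeFactors, ((p : ℝ) / (p + 1)) := by
    rw [← Finset.prod_div_distrib]
    apply Finset.prod_congr rfl
    intro p hp
    have : (0 : ℝ) < p := by exact_mod_cast (Nat.prime_of_mem_primeFactors hp).pos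
    field_simp
    ring
  have htot : (N.totient : ℝ) = N * ∏ p ∈ N.primeFactors, (1 - (p : ℝ)⁻¹) := by
    have h3 := congrArg (fun x : ℚ => (x : ℝ)) (Nat.totient_eq_mul_prod_factors N)
    push_cast at h3 ⊢
    exact h3
  have hpp : 0 < ∏ p ∈ N.primeFactors, ((p : ℝ) / (p + 1)) := by
    apply Finset.prod_pos
    intro p hp
    have : 0 < p := (Nat.prime_of_mem_primeFactors hp).pos
    positivity
  have hpi := Real.pi_pos
  have hN' : (0 : ℝ) < N := by exact_mod_cast hN
  set A := ∏ p ∈ N.primeFactors, (1 - (p : ℝ)⁻¹) with hA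
  set B := ∏ p ∈ N.primeFactors, ((p : ℝ) / (p + 1)) with hB
  have e1 : A / B * (Real.pi ^ 2 / 6) * S = 1 := by rw [← hprod]; exact h4
  unfold rho
  rw [htot, ← hB]
  have e2 : S * A = 6 / Real.pi ^ 2 * B := by
    field_simp at e1 ⊢
    linarith
  have e3 : S * (N * A / (2 * N)) = S * A / 2 := by
    field_simp
  rw [e3, e2]

/-- swapping the order of summation -/
lemma totient_sum (N X : ℕ) :
    ∑ g ∈ (range X).filter (fun g => N.Coprime g), (g.totient : ℝ) =
      ∑ d ∈ range X, if N.Coprime d then (ArithmeticFunction.moebius d : ℝ) * T N d X else 0 := by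
  have hphi : ∀ g : ℕ, 0 < g → (g.totient : ℝ) =
      ∑ x ∈ g.divisorsAntidiagonal, (ArithmeticFunction.moebius x.1 : ℝ) * (x.2 : ℝ) := by
    intro g hg
    symm
    apply (ArithmeticFunction.sum_eq_iff_sum_mul_moebius_eq (f := fun n => (n.totient : ℝ))
      (g := fun n => (n : ℝ))).1 _ g hg
    intro n _
    have := Nat.sum_totient n
    exact_mod_cast this
  set F : ℕ × ℕ → ℝ := fun x => (ArithmeticFunction.moebius x.1 : ℝ) * (x.2 : ℝ) with hF
  set U := (range X ×ˢ range X).filter
    (fun x : ℕ × ℕ => x.1 * x.2 < X ∧ x.1 * x.2 ≠ 0 ∧ N.Coprime (x.1 * x.2)) with hU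
  have h1 : ∑ x ∈ U, F x = ∑ g ∈ range X, ∑ x ∈ U.filter (fun x => x.1 * x.2 = g), F x := by
    rw [Finset.sum_fiberwise_of_maps_to]
    intro x hx
    rw [hU, mem_filter] at hx
    rw [mem_range]
    exact hx.2.1
  have h2 : ∑ g ∈ (range X).filter (fun g => N.Coprime g), (g.totient : ℝ) = ∑ x ∈ U, F x := by
    rw [h1, Finset.sum_filter]
    apply Finset.sum_congr rfl
    intro g hg
    rw [mem_range] at hg
    rcases Nat.eq_zero_or_pos g with rfl | hg0
    · have : U.filter (fun x => x.1 * x.2 = 0) = ∅ := by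
        rw [Finset.filter_eq_empty_iff]
        intro x hx
        rw [hU, mem_filter] at hx
        exact hx.2.2.1
      rw [this]
      simp
    · by_cases hc : N.Coprime g
      · rw [if_pos hc, hphi g hg0]
        congr 1
        ext ⟨a, b⟩
        rw [Nat.mem_divisorsAntidiagonal, mem_filter, hU, mem_filter, mem_product, mem_range,
          mem_range]
        constructor
        · rintro ⟨h3, h4⟩
          simp only at h3 ⊢
          have ha : 0 < a := Nat.pos_of_ne_zero (by rintro rfl; simp at h3; omega)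
          have hb : 0 < b := Nat.pos_of_ne_zero (by rintro rfl; simp at h3; omega)
          refine ⟨⟨⟨?_, ?_⟩, ?_, ?_, ?_⟩, h3⟩
          · nlinarith
          · nlinarith
          · omega
          · omega
          · rw [h3]; exact hc
        · rintro ⟨⟨_, _, h3, _⟩, h4⟩
          exact ⟨h4, by omega⟩
      · rw [if_neg hc]
        have : U.filter (fun x => x.1 * x.2 = g) = ∅ := by
          rw [Finset.filter_eq_empty_iff]
          intro x hx hxg
          rw [hU, mem_filter] at hx
          rw [hxg] at hx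
          exact hc hx.2.2.2
        rw [this]
        simp
  rw [h2, hU, Finset.sum_filter, Finset.sum_product]
  apply Finset.sum_congr rfl
  intro d _
  by_cases hc : N.Coprime d
  · rw [if_pos hc]
    unfold T
    rw [Finset.mul_sum, Finset.sum_filter]
    apply Finset.sum_congr rfl
    intro e _
    simp only [hF]
    by_cases h3 : N.Coprime e ∧ d * e < X
    · rw [if_pos h3]
      by_cases h4 : d * e = 0
      · rw [if_neg (by tauto)]
        rcases Nat.mul_eq_zero.1 h4 with rfl | rfl
        · simp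
        · simp
      · rw [if_pos ⟨h3.2, h4, Nat.Coprime.mul_right hc h3.1⟩]
    · rw [if_neg h3, if_neg]
      rintro ⟨h4, _, h5⟩
      exact h3 ⟨Nat.Coprime.coprime_mul_left_right h5, h4⟩
  · rw [if_neg hc]
    apply Finset.sum_eq_zero
    intro e _
    rw [if_neg]
    rintro ⟨_, _, h5⟩
    exact hc (Nat.Coprime.coprime_mul_right_right h5)

/-- the mean value -/
lemma tendsto_totient (N : ℕ) (hN : 0 < N) :
    Tendsto (fun X : ℕ => (∑ g ∈ (range X).filter (fun g => N.Coprime g), (g.totient : ℝ)) /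
      (X : ℝ) ^ 2) atTop (𝓝 (rho N / 2)) := by
  have h1 : ∀ X : ℕ, (∑ g ∈ (range X).filter (fun g => N.Coprime g), (g.totient : ℝ)) /
      (X : ℝ) ^ 2 = ∑' d : ℕ, (if N.Coprime d then
        (ArithmeticFunction.moebius d : ℝ) * (T N d X / (X : ℝ) ^ 2) else 0) := by
    intro X
    rw [totient_sum, Finset.sum_div]
    rw [tsum_eq_sum (s := range X)]
    · apply Finset.sum_congr rfl
      intro d _
      split_ifs
      · ring
      · simp
    · intro d hd
      rw [mem_range, not_lt] at hd
      split_ifs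
      · have : T N d X = 0 := by
          unfold T
          apply Finset.sum_eq_zero
          intro e he
          rw [mem_filter, mem_range] at he
          have : e = 0 := by
            by_contra h0
            have : 0 < e := Nat.pos_of_ne_zero h0
            nlinarith [he.2.2]
          rw [this]; simp
        rw [this]; simp
      · rfl
  simp_rw [h1]
  rw [← mu_sum N hN]
  have hb : Summable (fun d : ℕ => 1 / (d : ℝ) ^ 2) := Real.summable_one_div_nat_pow.2 (by norm_num)
  have := tendsto_tsum_of_dominated_convergence (𝓕 := atTop) (f := fun (X : ℕ) (d : ℕ) =>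
    (if N.Coprime d then (ArithmeticFunction.moebius d : ℝ) * (T N d X / (X : ℝ) ^ 2) else 0))
    (g := fun d : ℕ => (if N.Coprime d then (ArithmeticFunction.moebius d : ℝ) / (d : ℝ) ^ 2
      else 0) * ((N.totient : ℝ) / (2 * N))) hb ?_ ?_
  · exact this
  · intro d
    rcases Nat.eq_zero_or_pos d with rfl | hd
    · simp
    by_cases hc : N.Coprime d
    · simp only [if_pos hc]
      have := (T_tendsto N d hN hd).const_mul (ArithmeticFunction.moebius d : ℝ)
      have e : (ArithmeticFunction.moebius d : ℝ) / (d : ℝ) ^ 2 * ((N.totient : ℝ) / (2 * N)) =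
          (ArithmeticFunction.moebius d : ℝ) * ((N.totient : ℝ) / (2 * N) / (d : ℝ) ^ 2) := by
        ring
      rw [e]
      exact this
    · simp only [if_neg hc, zero_mul]
      exact tendsto_const_nhds
  · filter_upwards [eventually_gt_atTop 0] with X hX
    intro d
    have hX' : (0 : ℝ) < X := by exact_mod_cast hX
    rcases Nat.eq_zero_or_pos d with rfl | hd
    · simp
    have hd' : (0 : ℝ) < d := by exact_mod_cast hd
    split_ifs
    · rw [norm_mul]
      have e1 : ‖(ArithmeticFunction.moebius d : ℝ)‖ ≤ 1 := by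
        rw [Real.norm_eq_abs]
        exact_mod_cast ArithmeticFunction.abs_moebius_le_one
      have e2 : ‖T N d X / (X : ℝ) ^ 2‖ ≤ 1 / (d : ℝ) ^ 2 := by
        rw [Real.norm_eq_abs, abs_of_nonneg (div_nonneg (T_nonneg _ _ _) (by positivity)),
          div_le_iff₀ (by positivity)]
        refine (T_le N d X hd).trans (le_of_eq ?_)
        field_simp
      calc _ ≤ 1 * (1 / (d : ℝ) ^ 2) := mul_le_mul e1 e2 (norm_nonneg _) (by norm_num)
        _ = _ := one_mul _
    · rw [norm_zero]; positivity

end Pool.Agent.Helper94.NA
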