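import Mathlib
import Pool.Agent.Helper94.NA.Char
import Pool.Agent.Helper94.NA.Dens
import Pool.Agent.Helper94.NA.Totient

/-! # Joint equidistribution of `u / g` and `K u⁻¹ / g` on average over `g` -/

set_option autoImplicit false

noncomputable section

open Finset Filter Topology MeasureTheory

namespace Pool.Agent.Helper94.NA

/-- the Kloosterman sums are small on average, uniformly in `K` -/
lemma klo_average (N : ℕ) (k j : ℤ) (hkj : ¬ (k = 0 ∧ j = 0)) (ε : ℝ) (hε : 0 < ε) :
    ∃ X₀ : ℕ, ∀ X : ℕ, X₀ ≤ X → ∀ K : ℕ, (∀ g : ℕ, N.Coprime g → K.Coprime g) →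
      ∑ i ∈ (range X).filter (fun i => N.Coprime (i + 1)), ‖klo (i + 1) k (j * K)‖ ≤
        ε * (X : ℝ) ^ 2 := by
  classical
  -- choose `P`
  obtain ⟨P, hP1, hP2, hP3, hP0⟩ : ∃ P : ℕ, k.natAbs < P ∧ j.natAbs < P ∧
      3 / (P : ℝ) ≤ (ε / 3) ^ 4 ∧ 0 < P := by
    obtain ⟨n, hn⟩ := exists_nat_gt (3 / (ε / 3) ^ 4)
    refine ⟨max (max (k.natAbs + 1) (j.natAbs + 1)) n, ?_, ?_, ?_, ?_⟩
    · exact lt_of_lt_of_le (Nat.lt_succ_self _) ((le_max_left _ _).trans (le_max_left _ _))
    · exact lt_of_lt_of_le (Nat.lt_succ_self _) ((le_max_right _ _).trans (le_max_left _ _))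
    · have h1 : (n : ℝ) ≤ ((max (max (k.natAbs + 1) (j.natAbs + 1)) n : ℕ) : ℝ) := by
        exact_mod_cast le_max_right _ _
      have h0 : (0 : ℝ) < n := lt_trans (by positivity) hn
      rw [div_lt_iff₀ (by positivity)] at hn
      rw [div_le_iff₀ (by linarith)]
      nlinarith [show (0 : ℝ) < (ε / 3) ^ 4 by positivity]
    · exact lt_of_lt_of_le (Nat.succ_pos _) ((le_max_left _ _).trans (le_max_left _ _))
  obtain ⟨C, hC0, hC⟩ := bad_density P (ε / 3) (by positivity)
  obtain ⟨X₀, hX₀⟩ := exists_nat_gt ((ε / 3 + C) / (ε / 3))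
  refine ⟨X₀, fun X hX K hK => ?_⟩
  have hX' : (ε / 3 + C) / (ε / 3) ≤ (X : ℝ) := by
    have : (X₀ : ℝ) ≤ X := by exact_mod_cast hX
    linarith
  rw [div_le_iff₀ (by positivity)] at hX'
  set A := (range X).filter (fun i => N.Coprime (i + 1)) with hA
  rw [← Finset.sum_filter_add_sum_filter_not A (fun i => bad P (i + 1))]
  have h1 : ∑ i ∈ A.filter (fun i => bad P (i + 1)), ‖klo (i + 1) k (j * K)‖ ≤
      (ε / 3 * (X + 1) + C) * X := by
    calc ∑ i ∈ A.filter (fun i => bad P (i + 1)), ‖klo (i + 1) k (j * K)‖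
        ≤ ∑ i ∈ A.filter (fun i => bad P (i + 1)), (X : ℝ) := by
          apply Finset.sum_le_sum
          intro i hi
          refine (klo_norm_le _ _ _).trans ?_
          have h2 : (i + 1).totient ≤ i + 1 := Nat.totient_le _
          have h3 : i < X := by
            have := (mem_filter.1 (mem_filter.1 hi).1).1
            exact mem_range.1 this
          have : (i + 1).totient ≤ X := by omega
          exact_mod_cast this
      _ = ((A.filter (fun i => bad P (i + 1))).card : ℝ) * X := by
          rw [Finset.sum_const, nsmul_eq_mul]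
      _ ≤ (ε / 3 * (X + 1) + C) * X := by
          gcongr
          have h2 := hC (X + 1) ((A.filter (fun i => bad P (i + 1))).image (fun i => i + 1)) (by
            intro g hg
            rw [mem_image] at hg
            obtain ⟨i, hi, rfl⟩ := hg
            have h3 : i < X := by
              have := (mem_filter.1 (mem_filter.1 hi).1).1
              exact mem_range.1 this
            exact ⟨by omega, (mem_filter.1 hi).2⟩)
          rw [Finset.card_image_of_injective _ (add_left_injective 1)] at h2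
          push_cast at h2
          exact h2
  have h2 : ∑ i ∈ A.filter (fun i => ¬ bad P (i + 1)), ‖klo (i + 1) k (j * K)‖ ≤
      (ε / 3 * X) * X := by
    calc ∑ i ∈ A.filter (fun i => ¬ bad P (i + 1)), ‖klo (i + 1) k (j * K)‖
        ≤ ∑ i ∈ A.filter (fun i => ¬ bad P (i + 1)), (ε / 3 * X : ℝ) := by
          apply Finset.sum_le_sum
          intro i hi
          obtain ⟨hiA, hib⟩ := mem_filter.1 hi
          obtain ⟨hir, hic⟩ := mem_filter.1 hiA
          rw [mem_range] at hir
          unfold bad at hib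
          push Not at hib
          obtain ⟨p, hp, hPp, hpg, hpg2⟩ := hib
          have hnd : ¬ ((p : ℤ) ∣ k ∧ (p : ℤ) ∣ (j * K)) := by
            rintro ⟨hk, hjk⟩
            have hpK : ¬ (p : ℤ) ∣ (K : ℤ) := by
              intro h3
              have h4 : p ∣ K := by exact_mod_cast h3
              have h5 := hK (i + 1) hic
              have h6 := Nat.dvd_gcd h4 hpg
              rw [Nat.Coprime] at h5
              rw [h5] at h6
              exact hp.one_lt.ne' (Nat.dvd_one.1 h6)
            have hj : (p : ℤ) ∣ j := by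
              rcases (Nat.prime_iff_prime_int.1 hp).dvd_or_dvd hjk with h3 | h3
              · exact h3
              · exact absurd h3 hpK
            have e1 : ∀ z : ℤ, z.natAbs < P → (p : ℤ) ∣ z → z = 0 := by
              intro z hz hd
              by_contra h0
              have h3 : p ∣ z.natAbs := Int.natCast_dvd.1 hd
              have h4 := Nat.le_of_dvd (Int.natAbs_pos.2 h0) h3
              omega
            exact hkj ⟨e1 k hP1 hk, e1 j hP2 hj⟩
          have h3 := klo_bound (i + 1) k (j * K) p P hp hP0 hPp hpg hpg2 hnd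
          have h4 : ‖klo (i + 1) k (j * K)‖ ^ 4 ≤ (ε / 3 * ((i + 1 : ℕ) : ℝ)) ^ 4 := by
            refine h3.trans ?_
            calc 3 * (((i + 1 : ℕ)) : ℝ) ^ 4 / P = (3 / P) * (((i + 1 : ℕ)) : ℝ) ^ 4 := by ring
              _ ≤ (ε / 3) ^ 4 * (((i + 1 : ℕ)) : ℝ) ^ 4 := by gcongr
              _ = _ := by ring
          have h5 : ‖klo (i + 1) k (j * K)‖ ≤ ε / 3 * ((i + 1 : ℕ) : ℝ) :=
            le_of_pow_le_pow_left₀ (by norm_num) (by positivity) h4
          refine h5.trans ?_
          gcongr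
          exact_mod_cast hir
      _ = ((A.filter (fun i => ¬ bad P (i + 1))).card : ℝ) * (ε / 3 * X) := by
          rw [Finset.sum_const, nsmul_eq_mul]
      _ ≤ (X : ℝ) * (ε / 3 * X) := by
          gcongr
          calc (A.filter (fun i => ¬ bad P (i + 1))).card ≤ A.card := card_filter_le _ _
            _ ≤ (range X).card := card_filter_le _ _
            _ = X := card_range X
      _ = _ := by ring
  have hXn : (0 : ℝ) ≤ X := by positivity
  nlinarith [mul_le_mul_of_nonneg_right hX' hXn]

/-! ### the averaging functionals -/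

/-- the points -/
def pt1 (g : ℕ) [NeZero g] (u : (ZMod g)ˣ) : UnitAddCircle := ZMod.toAddCircle (u : ZMod g)

/-- the second coordinate -/
def pt2 (K g : ℕ) [NeZero g] (u : (ZMod g)ˣ) : UnitAddCircle :=
  ZMod.toAddCircle ((K : ZMod g) * ((u⁻¹ : (ZMod g)ˣ) : ZMod g))

/-- the average -/
def AA (N X K : ℕ) (F G : C(UnitAddCircle, ℂ)) : ℂ :=
  (∑ i ∈ (range X).filter (fun i => N.Coprime (i + 1)),
    ∑ u : (ZMod (i + 1))ˣ, F (pt1 (i + 1) u) * G (pt2 K (i + 1) u)) / (X : ℂ) ^ 2

lemma fourier_toAddCircle (g : ℕ) [NeZero g] (k : ℤ) (x : ZMod g) :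
    fourier k (ZMod.toAddCircle x) = ZMod.stdAddChar ((k : ZMod g) * x) := by
  rw [fourier_apply, ← map_zsmul, zsmul_eq_mul, ZMod.stdAddChar_apply]
  rfl

lemma AA_fourier (N X K : ℕ) (k j : ℤ) : AA N X K (fourier k) (fourier j) =
    (∑ i ∈ (range X).filter (fun i => N.Coprime (i + 1)), klo (i + 1) k (j * K)) /
      (X : ℂ) ^ 2 := by
  unfold AA
  congr 1
  apply Finset.sum_congr rfl
  intro i _
  unfold klo kl pt1 pt2
  apply Finset.sum_congr rfl
  intro u _
  rw [fourier_toAddCircle, fourier_toAddCircle, ← AddChar.map_add_eq_mul]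
  congr 1
  push_cast
  ring

lemma AA_bound (N X K : ℕ) (F G : C(UnitAddCircle, ℂ)) : ‖AA N X K F G‖ ≤ ‖F‖ * ‖G‖ := by
  unfold AA
  rcases Nat.eq_zero_or_pos X with rfl | hX
  · simp; positivity
  have hX' : (0 : ℝ) < X := by exact_mod_cast hX
  rw [norm_div, norm_pow, Complex.norm_natCast, div_le_iff₀ (by positivity)]
  refine (norm_sum_le _ _).trans ?_
  calc ∑ i ∈ (range X).filter (fun i => N.Coprime (i + 1)),
        ‖∑ u : (ZMod (i + 1))ˣ, F (pt1 (i + 1) u) * G (pt2 K (i + 1) u)‖
      ≤ ∑ i ∈ (range X).filter (fun i => N.Coprime (i + 1)), (X : ℝ) * (‖F‖ * ‖G‖) := by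
        apply Finset.sum_le_sum
        intro i hi
        refine (norm_sum_le _ _).trans ?_
        calc ∑ u : (ZMod (i + 1))ˣ, ‖F (pt1 (i + 1) u) * G (pt2 K (i + 1) u)‖
            ≤ ∑ u : (ZMod (i + 1))ˣ, ‖F‖ * ‖G‖ := by
              apply Finset.sum_le_sum
              intro u _
              rw [norm_mul]
              exact mul_le_mul (F.norm_coe_le_norm _) (G.norm_coe_le_norm _) (norm_nonneg _)
                (norm_nonneg _)
          _ = ((i + 1).totient : ℝ) * (‖F‖ * ‖G‖) := by
              rw [Finset.sum_const, nsmul_eq_mul, Finset.card_univ, ZMod.card_units_eq_totient]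
          _ ≤ (X : ℝ) * (‖F‖ * ‖G‖) := by
              gcongr
              have h2 : (i + 1).totient ≤ i + 1 := Nat.totient_le _
              have h3 : i < X := mem_range.1 (mem_filter.1 hi).1
              omega
    _ = (((range X).filter (fun i => N.Coprime (i + 1))).card : ℝ) * (X * (‖F‖ * ‖G‖)) := by
        rw [Finset.sum_const, nsmul_eq_mul]
    _ ≤ (X : ℝ) * (X * (‖F‖ * ‖G‖)) := by
        gcongr
        exact (card_filter_le _ _).trans (card_range X).le
    _ = _ := by ring

/-- a Banach–Steinhaus type statement -/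
lemma tendsto_of_dense {E : Type} [NormedAddCommGroup E] [NormedSpace ℂ E]
    (Λ : ℕ → E →ₗ[ℂ] ℂ) (L : E →ₗ[ℂ] ℂ) (C : ℝ) (hC : 0 ≤ C) (hΛ : ∀ n x, ‖Λ n x‖ ≤ C * ‖x‖)
    (hL : ∀ x, ‖L x‖ ≤ C * ‖x‖) (S : Set E) (hS : (Submodule.span ℂ S).topologicalClosure = ⊤)
    (h : ∀ x ∈ S, Tendsto (fun n => Λ n x) atTop (𝓝 (L x))) (x : E) :
    Tendsto (fun n => Λ n x) atTop (𝓝 (L x)) := by
  have hspan : ∀ y ∈ Submodule.span ℂ S, Tendsto (fun n => Λ n y) atTop (𝓝 (L y)) := by
    intro y hy
    induction hy using Submodule.span_induction with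
    | mem x hx => exact h x hx
    | zero => simp
    | add a b _ _ ha hb => simpa using ha.add hb
    | smul c a _ ha => simpa using ha.const_mul c
  have hx : x ∈ closure ((Submodule.span ℂ S : Submodule ℂ E) : Set E) := by
    have : x ∈ (Submodule.span ℂ S).topologicalClosure := by rw [hS]; trivial
    exact this
  rw [Metric.tendsto_atTop]
  intro ε hε
  obtain ⟨y, hy, hxy⟩ := Metric.mem_closure_iff.1 hx (ε / (3 * (C + 1))) (by positivity)
  obtain ⟨n₀, hn₀⟩ := Metric.tendsto_atTop.1 (hspan y hy) (ε / 3) (by positivity)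
  refine ⟨n₀, fun n hn => ?_⟩
  have h1 := hn₀ n hn
  have h2 : dist (Λ n x) (Λ n y) ≤ ε / 3 := by
    rw [dist_eq_norm, ← map_sub]
    refine (hΛ n _).trans ?_
    rw [dist_eq_norm] at hxy
    calc C * ‖x - y‖ ≤ (C + 1) * (ε / (3 * (C + 1))) :=
          mul_le_mul (by linarith) hxy.le (norm_nonneg _) (by linarith)
      _ = ε / 3 := by field_simp
  have h3 : dist (L x) (L y) ≤ ε / 3 := by
    rw [dist_eq_norm, ← map_sub]
    refine (hL _).trans ?_
    rw [dist_eq_norm] at hxy
    calc C * ‖x - y‖ ≤ (C + 1) * (ε / (3 * (C + 1))) :=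
          mul_le_mul (by linarith) hxy.le (norm_nonneg _) (by linarith)
      _ = ε / 3 := by field_simp
  calc dist (Λ n x) (L x) ≤ dist (Λ n x) (Λ n y) + dist (Λ n y) (L x) := dist_triangle _ _ _
    _ ≤ dist (Λ n x) (Λ n y) + (dist (Λ n y) (L y) + dist (L y) (L x)) := by
        gcongr; exact dist_triangle _ _ _
    _ < ε := by rw [dist_comm (L y) (L x)]; linarith

/-- integration against Haar measure -/
def II : C(UnitAddCircle, ℂ) →ₗ[ℂ] ℂ where
  toFun F := ∫ x, F x ∂(AddCircle.haarAddCircle (T := 1))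
  map_add' F G := by
    simp only [ContinuousMap.add_apply]
    apply integral_add
    · exact F.continuous.integrable_of_hasCompactSupport (HasCompactSupport.of_compactSpace F)
    · exact G.continuous.integrable_of_hasCompactSupport (HasCompactSupport.of_compactSpace G)
  map_smul' c F := by
    simp only [ContinuousMap.smul_apply, RingHom.id_apply]
    exact integral_smul c _

lemma II_apply (F : C(UnitAddCircle, ℂ)) :
    II F = ∫ x, F x ∂(AddCircle.haarAddCircle (T := 1)) := rfl

lemma II_bound (F : C(UnitAddCircle, ℂ)) : ‖II F‖ ≤ 1 * ‖F‖ := by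
  rw [II_apply]
  refine (norm_integral_le_of_norm_le_const (C := ‖F‖)
    (Filter.Eventually.of_forall (fun x => F.norm_coe_le_norm x))).trans ?_
  simp

lemma II_fourier (k : ℤ) : II (fourier k) = if k = 0 then 1 else 0 := by
  have h := congrFun (fourierCoeff_fourier (T := (1 : ℝ)) k) 0
  rw [fourierCoeff] at h
  have e : II (fourier k) = ∫ (t : AddCircle (1 : ℝ)), fourier (-0) t • fourier k t
      ∂AddCircle.haarAddCircle := by
    rw [II_apply]
    congr 1
    ext t
    simp
  rw [e, h, Pi.single_apply]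
  by_cases hk : k = 0
  · rw [if_pos hk, if_pos hk.symm]
  · rw [if_neg hk, if_neg (Ne.symm hk)]

/-- linear in the second variable -/
def AA2 (N X K : ℕ) (F : C(UnitAddCircle, ℂ)) : C(UnitAddCircle, ℂ) →ₗ[ℂ] ℂ where
  toFun G := AA N X K F G
  map_add' G H := by
    unfold AA
    rw [← add_div, ← Finset.sum_add_distrib]
    congr 1
    apply Finset.sum_congr rfl; intro i _
    rw [← Finset.sum_add_distrib]
    apply Finset.sum_congr rfl; intro u _
    rw [ContinuousMap.add_apply]; ring
  map_smul' c G := by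
    unfold AA
    rw [RingHom.id_apply, smul_eq_mul, ← mul_div_assoc, Finset.mul_sum]
    congr 1
    apply Finset.sum_congr rfl; intro i _
    rw [Finset.mul_sum]
    apply Finset.sum_congr rfl; intro u _
    rw [ContinuousMap.smul_apply, smul_eq_mul]; ring

/-- linear in the first variable -/
def AA1 (N X K : ℕ) (G : C(UnitAddCircle, ℂ)) : C(UnitAddCircle, ℂ) →ₗ[ℂ] ℂ where
  toFun F := AA N X K F G
  map_add' F H := by
    unfold AA
    rw [← add_div, ← Finset.sum_add_distrib]
    congr 1
    apply Finset.sum_congr rfl; intro i _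
    rw [← Finset.sum_add_distrib]
    apply Finset.sum_congr rfl; intro u _
    rw [ContinuousMap.add_apply]; ring
  map_smul' c F := by
    unfold AA
    rw [RingHom.id_apply, smul_eq_mul, ← mul_div_assoc, Finset.mul_sum]
    congr 1
    apply Finset.sum_congr rfl; intro i _
    rw [Finset.mul_sum]
    apply Finset.sum_congr rfl; intro u _
    rw [ContinuousMap.smul_apply, smul_eq_mul]; ring

lemma tendsto_totient' (N : ℕ) (hN : 0 < N) :
    Tendsto (fun X : ℕ => (∑ i ∈ (range X).filter (fun i => N.Coprime (i + 1)),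
      ((i + 1).totient : ℝ)) / (X : ℝ) ^ 2) atTop (𝓝 (rho N / 2)) := by
  have h1 := (tendsto_totient N hN).comp (tendsto_add_atTop_nat 1)
  have h2 : Tendsto (fun X : ℕ => (((X + 1 : ℕ) : ℝ) / X) ^ 2) atTop (𝓝 1) := by
    have h3 : Tendsto (fun X : ℕ => 1 + (1 : ℝ) / X) atTop (𝓝 (1 + 0)) :=
      tendsto_const_nhds.add (tendsto_const_div_atTop_nhds_zero_nat 1)
    have h4 := h3.pow 2
    rw [add_zero, one_pow] at h4
    refine h4.congr' ?_
    filter_upwards [eventually_gt_atTop 0] with X hX
    have hX' : (0 : ℝ) < X := by exact_mod_cast hX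
    congr 1
    push_cast
    field_simp
  have h3 := h1.mul h2
  rw [mul_one] at h3
  refine h3.congr' ?_
  filter_upwards [eventually_gt_atTop 0] with X hX
  have hX' : (0 : ℝ) < X := by exact_mod_cast hX
  simp only [Function.comp]
  have h5 : ∑ g ∈ (range (X + 1)).filter (fun g => N.Coprime g), (g.totient : ℝ) =
      ∑ i ∈ (range X).filter (fun i => N.Coprime (i + 1)), ((i + 1).totient : ℝ) := by
    rw [Finset.sum_filter, Finset.sum_filter, Finset.sum_range_succ']
    simp
  rw [h5]
  push_cast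
  field_simp

/-- the main equidistribution statement for continuous functions -/
lemma AA_tendsto (N : ℕ) (hN : 0 < N) (X K : ℕ → ℕ) (hX : Tendsto X atTop atTop)
    (hK : ∀ n g : ℕ, N.Coprime g → (K n).Coprime g) (F G : C(UnitAddCircle, ℂ)) :
    Tendsto (fun n => AA N (X n) (K n) F G) atTop (𝓝 ((rho N / 2 : ℝ) * II F * II G)) := by
  have hbase : ∀ k j : ℤ, Tendsto (fun n => AA N (X n) (K n) (fourier k) (fourier j)) atTop
      (𝓝 ((rho N / 2 : ℝ) * II (fourier k) * II (fourier j))) := by
    intro k j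
    simp_rw [AA_fourier, II_fourier]
    by_cases hkj : k = 0 ∧ j = 0
    · rw [if_pos hkj.1, if_pos hkj.2, mul_one, mul_one, hkj.1, hkj.2]
      have h1 := (tendsto_totient' N hN).comp hX
      have h2 := (Complex.continuous_ofReal.tendsto _).comp h1
      refine h2.congr (fun n => ?_)
      simp only [Function.comp]
      push_cast
      congr 1
      apply Finset.sum_congr rfl
      intro i _
      unfold klo kl
      simp [ZMod.card_units_eq_totient]
    · have hz : ((rho N / 2 : ℝ) : ℂ) * (if k = 0 then 1 else 0) * (if j = 0 then 1 else 0) = 0 := by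
        by_cases hk : k = 0
        · rw [if_neg (fun hj : j = 0 => hkj ⟨hk, hj⟩), mul_zero]
        · rw [if_neg hk, mul_zero, zero_mul]
      rw [hz, Metric.tendsto_atTop]
      intro ε hε
      obtain ⟨X₀, hX₀⟩ := klo_average N k j hkj (ε / 2) (by positivity)
      obtain ⟨n₀, hn₀⟩ := (tendsto_atTop_atTop.1 hX) (max X₀ 1)
      refine ⟨n₀, fun n hn => ?_⟩
      have h1 := hn₀ n hn
      have h2 : X₀ ≤ X n := (le_max_left _ _).trans h1
      have h3 : 1 ≤ X n := (le_max_right _ _).trans h1
      have h4 := hX₀ (X n) h2 (K n) (hK n)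
      have h5 : (0 : ℝ) < X n := by exact_mod_cast h3
      rw [dist_zero_right, norm_div, norm_pow, Complex.norm_natCast]
      have h6 := (norm_sum_le ((range (X n)).filter (fun i => N.Coprime (i + 1)))
        (fun i => klo (i + 1) k (j * K n))).trans h4
      calc _ ≤ (ε / 2 * (X n : ℝ) ^ 2) / (X n : ℝ) ^ 2 := by gcongr
        _ = ε / 2 := by field_simp
        _ < ε := by linarith
  have hstep : ∀ k : ℤ, ∀ G : C(UnitAddCircle, ℂ),
      Tendsto (fun n => AA N (X n) (K n) (fourier k) G) atTop
      (𝓝 ((rho N / 2 : ℝ) * II (fourier k) * II G)) := by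
    intro k G
    have hr : 0 ≤ rho N / 2 := by have := rho_pos N; linarith
    refine tendsto_of_dense (fun n => AA2 N (X n) (K n) (fourier k))
      (((rho N / 2 : ℝ) * II (fourier k)) • II) (1 + rho N / 2) (by linarith) ?_ ?_
      (Set.range (fourier (T := (1 : ℝ)))) span_fourier_closure_eq_top ?_ G
    · intro n x
      refine (AA_bound N (X n) (K n) (fourier k) x).trans ?_
      rw [fourier_norm]
      have := norm_nonneg x
      nlinarith
    · intro x
      rw [LinearMap.smul_apply, norm_smul, norm_mul]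
      have h1 : ‖II (fourier k)‖ ≤ 1 := by
        have := II_bound (fourier k)
        rwa [fourier_norm, one_mul] at this
      have h2 := II_bound x
      have h3 : ‖((rho N / 2 : ℝ) : ℂ)‖ = rho N / 2 := by
        rw [Complex.norm_real, Real.norm_of_nonneg hr]
      rw [h3]
      calc rho N / 2 * ‖II (fourier k)‖ * ‖II x‖ ≤ rho N / 2 * 1 * (1 * ‖x‖) := by gcongr
        _ ≤ (1 + rho N / 2) * ‖x‖ := by nlinarith [norm_nonneg x]
    · rintro _ ⟨j, rfl⟩
      exact hbase k j
  have hr : 0 ≤ rho N / 2 := by have := rho_pos N; linarith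
  have := tendsto_of_dense (fun n => AA1 N (X n) (K n) G)
      (((rho N / 2 : ℝ) * II G) • II) ((1 + rho N / 2) * ‖G‖) (by positivity) ?_ ?_
      (Set.range (fourier (T := (1 : ℝ)))) span_fourier_closure_eq_top ?_ F
  · have e : (((rho N / 2 : ℝ) * II G) • II) F = (rho N / 2 : ℝ) * II F * II G := by
      rw [LinearMap.smul_apply, smul_eq_mul]; ring
    rw [e] at this
    exact this
  · intro n x
    refine (AA_bound N (X n) (K n) x G).trans ?_
    have h1 := norm_nonneg x
    have h2 := norm_nonneg G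
    nlinarith [mul_nonneg h1 h2]
  · intro x
    rw [LinearMap.smul_apply, norm_smul, norm_mul]
    have h1 := II_bound G
    have h2 := II_bound x
    have h3 : ‖((rho N / 2 : ℝ) : ℂ)‖ = rho N / 2 := by
      rw [Complex.norm_real, Real.norm_of_nonneg hr]
    rw [h3]
    calc rho N / 2 * ‖II G‖ * ‖II x‖ ≤ rho N / 2 * (1 * ‖G‖) * (1 * ‖x‖) := by gcongr
      _ ≤ (1 + rho N / 2) * ‖G‖ * ‖x‖ := by nlinarith [mul_nonneg (norm_nonneg G) (norm_nonneg x)]
  · rintro _ ⟨k, rfl⟩
    have e : (((rho N / 2 : ℝ) * II G) • II) (fourier k) =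
        (rho N / 2 : ℝ) * II (fourier k) * II G := by
      rw [LinearMap.smul_apply, smul_eq_mul]; ring
    rw [e]
    exact hstep k G

end Pool.Agent.Helper94.NA
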