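import Mathlib
import Pool.Agent.Helper94.NA.Equi

/-! # From continuous functions to arcs -/

set_option autoImplicit false

noncomputable section

open Finset Filter Topology MeasureTheory

namespace Pool.Agent.Helper94.NA

/-- Haar measure -/
abbrev haar : Measure UnitAddCircle := AddCircle.haarAddCircle (T := 1)

lemma haar_eq : haar = (volume : Measure UnitAddCircle) := by
  rw [AddCircle.volume_eq_smul_haarAddCircle]
  simp

/-- number of points in `C × D` -/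
def cnt (N X K : ℕ) (C D : Set UnitAddCircle) : ℕ :=
  ∑ i ∈ (range X).filter (fun i => N.Coprime (i + 1)),
    {u : (ZMod (i + 1))ˣ | pt1 (i + 1) u ∈ C ∧ pt2 K (i + 1) u ∈ D}.ncard

lemma cnt_mono (N X K : ℕ) {C C' D D' : Set UnitAddCircle} (hC : C ⊆ C') (hD : D ⊆ D') :
    cnt N X K C D ≤ cnt N X K C' D' := by
  unfold cnt
  apply Finset.sum_le_sum
  intro i _
  apply Set.ncard_le_ncard _ (Set.toFinite _)
  intro u hu
  exact ⟨hC hu.1, hD hu.2⟩

lemma cnt_total (N X K : ℕ) : (cnt N X K Set.univ Set.univ : ℝ) =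
    ∑ i ∈ (range X).filter (fun i => N.Coprime (i + 1)), ((i + 1).totient : ℝ) := by
  unfold cnt
  push_cast
  apply Finset.sum_congr rfl
  intro i _
  have : {u : (ZMod (i + 1))ˣ | pt1 (i + 1) u ∈ (Set.univ : Set UnitAddCircle) ∧
      pt2 K (i + 1) u ∈ (Set.univ : Set UnitAddCircle)} = Set.univ := by
    ext u; simp
  rw [this, Set.ncard_univ, Nat.card_eq_fintype_card, ZMod.card_units_eq_totient]

lemma cnt_le_total (N X K : ℕ) (C D : Set UnitAddCircle) :
    cnt N X K Set.univ Set.univ ≤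
      cnt N X K C D + cnt N X K C Dᶜ + cnt N X K Cᶜ Set.univ := by
  unfold cnt
  rw [← Finset.sum_add_distrib, ← Finset.sum_add_distrib]
  apply Finset.sum_le_sum
  intro i _
  refine (Set.ncard_le_ncard ?_ (Set.toFinite _)).trans ((Set.ncard_union_le _ _).trans
    (Nat.add_le_add_right (Set.ncard_union_le _ _) _))
  intro u _
  by_cases h1 : pt1 (i + 1) u ∈ C
  · by_cases h2 : pt2 K (i + 1) u ∈ D
    · exact Or.inl (Or.inl ⟨h1, h2⟩)
    · exact Or.inl (Or.inr ⟨h1, h2⟩)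
  · exact Or.inr ⟨h1, trivial⟩

/-- a continuous majorant of a closed set -/
lemma exists_majorant (C : Set UnitAddCircle) (hC : IsClosed C) (δ : ℝ) (hδ : 0 < δ) :
    ∃ f : C(UnitAddCircle, ℝ), (∀ x, 0 ≤ f x) ∧ (∀ x ∈ C, 1 ≤ f x) ∧
      ∫ x, f x ∂haar ≤ (haar C).toReal + δ := by
  obtain ⟨U, hCU, hUo, hU⟩ := hC.isCompact.exists_isOpen_lt_add (μ := haar)
    (ENNReal.ofReal_pos.2 hδ).ne'
  obtain ⟨f, hf1, hf0, _, hf⟩ := exists_continuous_one_zero_of_isCompact hC.isCompact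
    hUo.isClosed_compl (Set.disjoint_compl_right_iff_subset.2 hCU)
  refine ⟨f, fun x => (hf x).1, fun x hx => (hf1 hx).ge, ?_⟩
  have h1 : ∫ x, f x ∂haar ≤ ∫ x, U.indicator (fun _ => (1 : ℝ)) x ∂haar := by
    apply integral_mono
    · exact f.continuous.integrable_of_hasCompactSupport (HasCompactSupport.of_compactSpace f)
    · exact (integrable_const _).indicator hUo.measurableSet
    · intro x
      by_cases hx : x ∈ U
      · simp only [Set.indicator_of_mem hx]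
        exact (hf x).2
      · simp only [Set.indicator_of_notMem hx]
        exact (hf0 hx).le
  refine h1.trans ?_
  rw [integral_indicator_const _ hUo.measurableSet, smul_eq_mul, mul_one]
  unfold Measure.real
  have h2 := ENNReal.toReal_mono (by finiteness) hU.le
  rw [ENNReal.toReal_add (by finiteness) (by finiteness), ENNReal.toReal_ofReal hδ.le] at h2
  exact h2

/-- complexification -/
def cpx (f : C(UnitAddCircle, ℝ)) : C(UnitAddCircle, ℂ) :=
  ⟨fun x => (f x : ℂ), by fun_prop⟩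

lemma AA_cpx (N X K : ℕ) (f g : C(UnitAddCircle, ℝ)) : AA N X K (cpx f) (cpx g) =
    (((∑ i ∈ (range X).filter (fun i => N.Coprime (i + 1)),
    ∑ u : (ZMod (i + 1))ˣ, f (pt1 (i + 1) u) * g (pt2 K (i + 1) u)) / (X : ℝ) ^ 2 : ℝ) : ℂ) := by
  unfold AA cpx
  push_cast
  rfl

lemma II_cpx (f : C(UnitAddCircle, ℝ)) : II (cpx f) = ((∫ x, f x ∂haar : ℝ) : ℂ) := by
  rw [II_apply]
  exact integral_ofReal

lemma cnt_upper (N : ℕ) (hN : 0 < N) (X K : ℕ → ℕ) (hX : Tendsto X atTop atTop)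
    (hK : ∀ n g : ℕ, N.Coprime g → (K n).Coprime g) (C D : Set UnitAddCircle) (hC : IsClosed C)
    (hD : IsClosed D) (ε : ℝ) (hε : 0 < ε) :
    ∀ᶠ n in atTop, (cnt N (X n) (K n) C D : ℝ) / (X n : ℝ) ^ 2 ≤
      rho N / 2 * ((haar C).toReal * (haar D).toReal) + ε := by
  classical
  set r := rho N / 2 with hr
  have hr0 : 0 < r := by have := rho_pos N; positivity
  set δ : ℝ := min 1 (ε / (6 * (r + 1))) with hδ
  have hδ0 : 0 < δ := lt_min one_pos (by positivity)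
  have hδ1 : δ ≤ 1 := min_le_left _ _
  have hδ2 : δ ≤ ε / (6 * (r + 1)) := min_le_right _ _
  obtain ⟨f, hf0, hf1, hfi⟩ := exists_majorant C hC δ hδ0
  obtain ⟨g, hg0, hg1, hgi⟩ := exists_majorant D hD δ hδ0
  have h1 := AA_tendsto N hN X K hX hK (cpx f) (cpx g)
  rw [II_cpx, II_cpx] at h1
  have h2 := (Complex.continuous_re.tendsto _).comp h1
  have e1 : (((rho N / 2 : ℝ) : ℂ) * ((∫ x, f x ∂haar : ℝ) : ℂ) * ((∫ x, g x ∂haar : ℝ) : ℂ)).re =
      r * (∫ x, f x ∂haar) * (∫ x, g x ∂haar) := by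
    rw [← Complex.ofReal_mul, ← Complex.ofReal_mul, Complex.ofReal_re]
  rw [e1] at h2
  have h3 := (h2.eventually (gt_mem_nhds (lt_add_of_pos_right _ (half_pos hε)))).and
    (hX.eventually_gt_atTop 0)
  filter_upwards [h3] with n hn
  obtain ⟨hn, hXn⟩ := hn
  simp only [Function.comp] at hn
  rw [AA_cpx, Complex.ofReal_re] at hn
  have h4 : (cnt N (X n) (K n) C D : ℝ) ≤
      ∑ i ∈ (range (X n)).filter (fun i => N.Coprime (i + 1)),
    ∑ u : (ZMod (i + 1))ˣ, f (pt1 (i + 1) u) * g (pt2 (K n) (i + 1) u) := by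
    unfold cnt
    push_cast
    apply Finset.sum_le_sum
    intro i _
    rw [Set.ncard_eq_toFinset_card', Set.toFinset_ofPred, Finset.card_filter]
    push_cast
    apply Finset.sum_le_sum
    intro u _
    split_ifs with h
    · have a1 := hf1 _ h.1
      have a2 := hg1 _ h.2
      calc (1 : ℝ) = 1 * 1 := by ring
        _ ≤ _ := mul_le_mul a1 a2 (by norm_num) (by linarith)
    · exact mul_nonneg (hf0 _) (hg0 _)
  have hc0 : 0 ≤ (haar C).toReal := ENNReal.toReal_nonneg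
  have hd0 : 0 ≤ (haar D).toReal := ENNReal.toReal_nonneg
  have hc1 : (haar C).toReal ≤ 1 := by
    have := ENNReal.toReal_mono ENNReal.one_ne_top (prob_le_one (μ := haar) (s := C))
    simpa using this
  have hd1 : (haar D).toReal ≤ 1 := by
    have := ENNReal.toReal_mono ENNReal.one_ne_top (prob_le_one (μ := haar) (s := D))
    simpa using this
  have hfi0 : 0 ≤ ∫ x, f x ∂haar := integral_nonneg hf0
  have hgi0 : 0 ≤ ∫ x, g x ∂haar := integral_nonneg hg0
  have h5 : r * (∫ x, f x ∂haar) * (∫ x, g x ∂haar) ≤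
      r * ((haar C).toReal * (haar D).toReal) + ε / 2 := by
    have h6 : (∫ x, f x ∂haar) * (∫ x, g x ∂haar) ≤
        ((haar C).toReal + δ) * ((haar D).toReal + δ) :=
      mul_le_mul hfi hgi hgi0 (by linarith)
    have h7 : ((haar C).toReal + δ) * ((haar D).toReal + δ) ≤
        (haar C).toReal * (haar D).toReal + 3 * δ := by nlinarith
    have h8 : r * (3 * δ) ≤ ε / 2 := by
      have : r * δ ≤ (r + 1) * (ε / (6 * (r + 1))) := by
        apply mul_le_mul (by linarith) hδ2 hδ0.le (by linarith)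
      have e2 : (r + 1) * (ε / (6 * (r + 1))) = ε / 6 := by field_simp
      rw [e2] at this
      linarith
    rw [mul_assoc]
    nlinarith [mul_le_mul_of_nonneg_left (h6.trans h7) hr0.le]
  calc (cnt N (X n) (K n) C D : ℝ) / (X n : ℝ) ^ 2 ≤ _ :=
        div_le_div_of_nonneg_right h4 (by positivity)
    _ ≤ r * (∫ x, f x ∂haar) * (∫ x, g x ∂haar) + ε / 2 := hn.le
    _ ≤ _ := by linarith

/-- equidistribution for sets with null boundary -/
lemma cnt_tendsto (N : ℕ) (hN : 0 < N) (X K : ℕ → ℕ) (hX : Tendsto X atTop atTop)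
    (hK : ∀ n g : ℕ, N.Coprime g → (K n).Coprime g) (C C1 C2 D D1 D2 : Set UnitAddCircle)
    (p q : ℝ) (hC1 : IsClosed C1) (hC2 : IsClosed C2) (hD1 : IsClosed D1) (hD2 : IsClosed D2)
    (h1 : C ⊆ C1) (h2 : Cᶜ ⊆ C2) (h3 : D ⊆ D1) (h4 : Dᶜ ⊆ D2)
    (m1 : (haar C1).toReal ≤ p) (m2 : (haar C2).toReal ≤ 1 - p)
    (m3 : (haar D1).toReal ≤ q) (m4 : (haar D2).toReal ≤ 1 - q) :
    Tendsto (fun n => (cnt N (X n) (K n) C D : ℝ) / (X n : ℝ) ^ 2) atTop
      (𝓝 (rho N / 2 * (p * q))) := by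
  set r := rho N / 2 with hr
  have hr0 : 0 < r := by have := rho_pos N; positivity
  have n1 : 0 ≤ (haar C1).toReal := ENNReal.toReal_nonneg
  have n2 : 0 ≤ (haar C2).toReal := ENNReal.toReal_nonneg
  have n3 : 0 ≤ (haar D1).toReal := ENNReal.toReal_nonneg
  have n4 : 0 ≤ (haar D2).toReal := ENNReal.toReal_nonneg
  have huniv : (haar (Set.univ : Set UnitAddCircle)).toReal = 1 := by simp
  rw [Metric.tendsto_atTop']
  intro ε hε
  have u1 := cnt_upper N hN X K hX hK C1 D1 hC1 hD1 (ε / 4) (by positivity)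
  have u2 := cnt_upper N hN X K hX hK C1 D2 hC1 hD2 (ε / 4) (by positivity)
  have u3 := cnt_upper N hN X K hX hK C2 Set.univ hC2 isClosed_univ (ε / 4) (by positivity)
  have ht := (tendsto_totient' N hN).comp hX
  have u4 := ht.eventually (lt_mem_nhds (show r - ε / 4 < r by linarith))
  have hall := ((u1.and u2).and (u3.and u4)).and (hX.eventually_gt_atTop 0)
  obtain ⟨n₀, hn₀⟩ := eventually_atTop.1 hall
  refine ⟨n₀, fun n hn => ?_⟩
  obtain ⟨⟨⟨v1, v2⟩, v3, v4⟩, hXn⟩ := hn₀ n hn.le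
  simp only [Function.comp] at v4
  rw [← cnt_total N (X n) (K n)] at v4
  have hX0 : (0 : ℝ) < (X n : ℝ) ^ 2 := by positivity
  have w1 : (cnt N (X n) (K n) C D : ℝ) / (X n : ℝ) ^ 2 ≤
      (cnt N (X n) (K n) C1 D1 : ℝ) / (X n : ℝ) ^ 2 := by
    gcongr
    exact cnt_mono N _ _ h1 h3
  have w2 : (cnt N (X n) (K n) Set.univ Set.univ : ℝ) / (X n : ℝ) ^ 2 ≤
      (cnt N (X n) (K n) C D : ℝ) / (X n : ℝ) ^ 2 +
      (cnt N (X n) (K n) C1 D2 : ℝ) / (X n : ℝ) ^ 2 +
      (cnt N (X n) (K n) C2 Set.univ : ℝ) / (X n : ℝ) ^ 2 := by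
    rw [← add_div, ← add_div]
    gcongr
    have a1 := cnt_le_total N (X n) (K n) C D
    have a2 : cnt N (X n) (K n) C Dᶜ ≤ cnt N (X n) (K n) C1 D2 := cnt_mono N _ _ h1 h4
    have a3 : cnt N (X n) (K n) Cᶜ Set.univ ≤ cnt N (X n) (K n) C2 Set.univ :=
      cnt_mono N _ _ h2 (Set.Subset.refl _)
    have : cnt N (X n) (K n) Set.univ Set.univ ≤ cnt N (X n) (K n) C D +
      cnt N (X n) (K n) C1 D2 + cnt N (X n) (K n) C2 Set.univ := by omega
    exact_mod_cast this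
  rw [huniv, mul_one] at v3
  have x1 : (haar C1).toReal * (haar D1).toReal ≤ p * q := mul_le_mul m1 m3 n3 (by linarith)
  have x2 : (haar C1).toReal * (haar D2).toReal ≤ p * (1 - q) :=
    mul_le_mul m1 m4 n4 (by linarith)
  have y1 := mul_le_mul_of_nonneg_left x1 hr0.le
  have y2 := mul_le_mul_of_nonneg_left x2 hr0.le
  have y3 := mul_le_mul_of_nonneg_left m2 hr0.le
  rw [← hr] at v1 v2 v3
  rw [Real.dist_eq, abs_lt]
  constructor
  · nlinarith
  · nlinarith

/-! ### arcs -/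

/-- the arc from `a` to `b` -/
def arc (a b : ℝ) : Set UnitAddCircle := (fun t : ℝ => (t : UnitAddCircle)) '' Set.Ico a b

lemma mk_inj {s t : ℝ} (hs : 0 ≤ s) (hs' : s < 1) (ht : 0 ≤ t) (ht' : t < 1)
    (h : (s : UnitAddCircle) = (t : UnitAddCircle)) : s = t := by
  rw [AddCircle.coe_eq_coe_iff_of_mem_Ico (p := (1 : ℝ)) (a := 0)] at h
  · exact h
  · exact ⟨hs, by linarith⟩
  · exact ⟨ht, by linarith⟩

lemma mem_arc {a b t : ℝ} (ha : 0 ≤ a) (hb : b ≤ 1) (ht : 0 ≤ t) (ht' : t < 1) :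
    (t : UnitAddCircle) ∈ arc a b ↔ a ≤ t ∧ t < b := by
  constructor
  · rintro ⟨s, hs, hst⟩
    have : s = t := mk_inj (by linarith [hs.1]) (by linarith [hs.2]) ht ht' hst
    rw [← this]; exact hs
  · intro h
    exact ⟨t, h, rfl⟩

lemma haar_image_le (S : Set ℝ) (hS : MeasurableSet S) (hS' : S ⊆ Set.Icc 0 1)
    (hcl : IsClosed ((fun t : ℝ => (t : UnitAddCircle)) '' S)) :
    haar ((fun t : ℝ => (t : UnitAddCircle)) '' S) ≤ volume S := by
  rw [haar_eq]
  have hmp := UnitAddCircle.measurePreserving_mk 0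
  rw [← hmp.measure_preimage hcl.measurableSet.nullMeasurableSet]
  rw [Measure.restrict_apply (hmp.measurable hcl.measurableSet)]
  have hsub : (QuotientAddGroup.mk ⁻¹' ((fun t : ℝ => (t : UnitAddCircle)) '' S)) ∩
      Set.Ioc (0 : ℝ) (0 + 1) ⊆ S ∪ {1} := by
    rintro x ⟨⟨s, hs, hsx⟩, hx⟩
    have hx' : 0 < x ∧ x ≤ 1 := by simpa using hx
    rcases lt_or_eq_of_le hx'.2 with h1 | h1
    · rcases lt_or_eq_of_le (hS' hs).2 with h2 | h2
      · left
        have : s = x := mk_inj (hS' hs).1 h2 hx'.1.le h1 hsx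
        rwa [← this]
      · exfalso
        rw [h2] at hsx
        have h3 : ((0 : ℝ) : UnitAddCircle) = (x : UnitAddCircle) := by
          have h4 : ((1 : ℝ) : UnitAddCircle) = ((0 : ℝ) : UnitAddCircle) := by
            rw [AddCircle.coe_period (1 : ℝ)]; rfl
          rw [← h4]; exact hsx
        have := mk_inj le_rfl one_pos hx'.1.le h1 h3
        linarith
    · right; exact h1
  refine (measure_mono hsub).trans ((measure_union_le _ _).trans ?_)
  simp

lemma arc_sets (a b : ℝ) (ha : 0 ≤ a) (hab : a ≤ b) (hb : b ≤ 1) :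
    ∃ C1 C2 : Set UnitAddCircle, IsClosed C1 ∧ IsClosed C2 ∧ arc a b ⊆ C1 ∧ (arc a b)ᶜ ⊆ C2 ∧
      (haar C1).toReal ≤ b - a ∧ (haar C2).toReal ≤ 1 - (b - a) := by
  have hcont : Continuous (fun t : ℝ => (t : UnitAddCircle)) := AddCircle.continuous_mk' 1
  have hc1 : IsClosed ((fun t : ℝ => (t : UnitAddCircle)) '' Set.Icc a b) :=
    (isCompact_Icc.image hcont).isClosed
  have hc2 : IsClosed ((fun t : ℝ => (t : UnitAddCircle)) '' (Set.Icc 0 a ∪ Set.Icc b 1)) :=
    ((isCompact_Icc.union isCompact_Icc).image hcont).isClosed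
  refine ⟨_, _, hc1, hc2, ?_, ?_, ?_, ?_⟩
  · exact Set.image_mono Set.Ico_subset_Icc_self
  · intro x hx
    obtain ⟨t, ht, rfl⟩ : ∃ t ∈ Set.Ico (0 : ℝ) 1, (t : UnitAddCircle) = x := by
      have := AddCircle.coe_equivIco (p := (1 : ℝ)) (a := 0) (y := x)
      refine ⟨(AddCircle.equivIco 1 0 x : ℝ), ?_, this⟩
      have h := (AddCircle.equivIco 1 0 x).2
      simpa using h
    refine ⟨t, ?_, rfl⟩
    by_contra hcon
    apply hx
    rw [mem_arc ha hb ht.1 ht.2]
    rw [Set.mem_union, Set.mem_Icc, Set.mem_Icc] at hcon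
    push Not at hcon
    constructor
    · exact (hcon.1 ht.1).le
    · by_contra h
      rw [not_lt] at h
      exact absurd ht.2 (not_lt.2 (hcon.2 h).le)
  · have := haar_image_le (Set.Icc a b) measurableSet_Icc (Set.Icc_subset_Icc ha hb) hc1
    rw [Real.volume_Icc] at this
    have h := ENNReal.toReal_mono ENNReal.ofReal_ne_top this
    rwa [ENNReal.toReal_ofReal (by linarith)] at h
  · have := haar_image_le (Set.Icc 0 a ∪ Set.Icc b 1) (measurableSet_Icc.union measurableSet_Icc)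
      (Set.union_subset (Set.Icc_subset_Icc_right (by linarith))
        (Set.Icc_subset_Icc_left (by linarith))) hc2
    have h2 := this.trans (measure_union_le _ _)
    rw [Real.volume_Icc, Real.volume_Icc, ← ENNReal.ofReal_add (by linarith) (by linarith)] at h2
    have h := ENNReal.toReal_mono ENNReal.ofReal_ne_top h2
    rw [ENNReal.toReal_ofReal (by linarith)] at h
    linarith

/-- number of pairs `(g, u)` with `g ≤ X` -/
def cnt' (N X K : ℕ) (a b c d : ℝ) : ℕ :=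
  ∑ i ∈ (range X).filter (fun i => N.Coprime (i + 1)),
    {u : (ZMod (i + 1))ˣ | (a ≤ ((u : ZMod (i + 1)).val : ℝ) / ((i + 1 : ℕ) : ℝ) ∧
      ((u : ZMod (i + 1)).val : ℝ) / ((i + 1 : ℕ) : ℝ) < b) ∧
      (c ≤ (((K : ZMod (i + 1)) * ((u⁻¹ : (ZMod (i + 1))ˣ) : ZMod (i + 1))).val : ℝ) /
        ((i + 1 : ℕ) : ℝ) ∧
      (((K : ZMod (i + 1)) * ((u⁻¹ : (ZMod (i + 1))ˣ) : ZMod (i + 1))).val : ℝ) /
        ((i + 1 : ℕ) : ℝ) < d)}.ncard

lemma cnt_arc (N X K : ℕ) (a b c d : ℝ) (ha : 0 ≤ a) (hb : b ≤ 1) (hc : 0 ≤ c) (hd : d ≤ 1) :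
    cnt N X K (arc a b) (arc c d) = cnt' N X K a b c d := by
  unfold cnt cnt'
  apply Finset.sum_congr rfl
  intro i _
  congr 1
  ext u
  rw [Set.mem_ofPred_eq, Set.mem_ofPred_eq]
  unfold pt1 pt2
  rw [ZMod.toAddCircle_apply, ZMod.toAddCircle_apply]
  have key : ∀ x : ZMod (i + 1), 0 ≤ (x.val : ℝ) / ((i + 1 : ℕ) : ℝ) ∧
      (x.val : ℝ) / ((i + 1 : ℕ) : ℝ) < 1 := by
    intro x
    refine ⟨by positivity, ?_⟩
    rw [div_lt_one (by positivity)]
    exact_mod_cast ZMod.val_lt x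
  rw [mem_arc ha hb (key _).1 (key _).2, mem_arc hc hd (key _).1 (key _).2]

/-- joint equidistribution for arcs -/
theorem cnt'_tendsto (N : ℕ) (hN : 0 < N) (X K : ℕ → ℕ) (hX : Tendsto X atTop atTop)
    (hK : ∀ n g : ℕ, N.Coprime g → (K n).Coprime g) (a b c d : ℝ) (ha : 0 ≤ a) (hab : a ≤ b)
    (hb : b ≤ 1) (hc : 0 ≤ c) (hcd : c ≤ d) (hd : d ≤ 1) :
    Tendsto (fun n => (cnt' N (X n) (K n) a b c d : ℝ) / (X n : ℝ) ^ 2) atTop
      (𝓝 (rho N / 2 * ((b - a) * (d - c)))) := by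
  obtain ⟨C1, C2, c1, c2, c3, c4, c5, c6⟩ := arc_sets a b ha hab hb
  obtain ⟨D1, D2, d1, d2, d3, d4, d5, d6⟩ := arc_sets c d hc hcd hd
  have := cnt_tendsto N hN X K hX hK (arc a b) C1 C2 (arc c d) D1 D2 (b - a) (d - c) c1 c2 d1 d2
    c3 c4 d3 d4 c5 c6 d5 d6
  simp_rw [cnt_arc N _ _ a b c d ha hb hc hd] at this
  exact this

end Pool.Agent.Helper94.NA
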