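import Mathlib
import Pool.Graph.R_pool_sql_team_18ca10b6.H25.Adic

/-! # Parametrisation of the admissible vectors of one residue class -/

set_option autoImplicit false

noncomputable section

open Finset Filter Topology

namespace Pool.Agent.Helper94.NA

open Pool.Agent.H25.Adic

/-- the admissible pairs `(f, g)` -/
def VV (N : ℕ) : Set (ℤ × ℕ) := {v | 0 < v.2 ∧ IsCoprime v.1 (v.2 : ℤ) ∧ N.Coprime v.2}

/-- the residue `c` with `c f ≡ K` modulo `g` -/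
def cc (K : ℕ) (v : ℤ × ℕ) : ℕ := ((K : ZMod v.2) * (v.1 : ZMod v.2)⁻¹).val

/-- the admissible pairs of the class `A` -/
def InL (N n : ℕ) (A : ℤ) (f g : ℤ) : Prop :=
  IsCoprime f g ∧ IsCoprime g (N : ℤ) ∧ (N : ℤ) ^ n ∣ g * A - f

lemma cc_lt (K : ℕ) (v : ℤ × ℕ) (hv : 0 < v.2) : cc K v < v.2 := by
  haveI : NeZero v.2 := ⟨hv.ne'⟩
  exact ZMod.val_lt _

lemma cc_spec (N K : ℕ) (v : ℤ × ℕ) (hv : v ∈ VV N) : (v.2 : ℤ) ∣ (cc K v : ℤ) * v.1 - K := by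
  obtain ⟨h1, h2, h3⟩ := hv
  haveI : NeZero v.2 := ⟨h1.ne'⟩
  rw [← ZMod.intCast_zmod_eq_zero_iff_dvd]
  push_cast
  unfold cc
  rw [ZMod.natCast_zmod_val]
  have hu : IsUnit (v.1 : ZMod v.2) := by
    obtain ⟨a, b, hab⟩ := h2
    have : ((a * v.1 + b * (v.2 : ℤ) : ℤ) : ZMod v.2) = ((1 : ℤ) : ZMod v.2) := by rw [hab]
    push_cast at this
    rw [ZMod.natCast_self, mul_zero, add_zero] at this
    exact IsUnit.of_mul_eq_one _ (by rw [mul_comm]; exact this)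
  rw [mul_assoc, ZMod.inv_mul_of_unit _ hu, mul_one, sub_self]

/-- the completing vector -/
lemma exists_e (N K : ℕ) (v : ℤ × ℕ) (hv : v ∈ VV N) :
    ∃ e : ℤ, v.1 * (cc K v : ℤ) - v.2 * e = K := by
  obtain ⟨e, he⟩ := cc_spec N K v hv
  exact ⟨e, by linarith⟩

section lattice

variable {N m : ℕ} {f g c e A : ℤ}

lemma dvd_second (hg : IsCoprime g (N : ℤ)) (hA : (N : ℤ) ^ (m + 1) ∣ g * A - f)
    (he : f * c - g * e = (N : ℤ) ^ m) : (N : ℤ) ^ (m + 1) ∣ N * (c * A - e) := by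
  have h1 : (N : ℤ) ^ (m + 1) ∣ g * (N * (c * A - e)) := by
    have : g * (N * (c * A - e)) = N * c * (g * A - f) + (N : ℤ) ^ (m + 1) := by
      rw [pow_succ, ← he]; ring
    rw [this]
    exact dvd_add (hA.mul_left _) dvd_rfl
  exact (hg.symm.pow_left).dvd_of_dvd_mul_left h1

/-- the combinations are admissible -/
lemma comb_mem (hg : IsCoprime g (N : ℤ)) (hA : (N : ℤ) ^ (m + 1) ∣ g * A - f)
    (he : f * c - g * e = (N : ℤ) ^ m) {a b : ℤ} (hab : IsCoprime a (b * N)) :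
    InL N (m + 1) A (a * f + b * N * e) (a * g + b * N * c) := by
  have hgN : IsCoprime (a * g + b * N * c) (N : ℤ) := by
    have h1 : IsCoprime (a * g) (N : ℤ) := (IsCoprime.of_mul_right_right hab).mul_left hg
    have : a * g + b * N * c = a * g + (b * c) * N := by ring
    rw [this]
    exact h1.add_mul_right_left _
  refine ⟨?_, hgN, ?_⟩
  · obtain ⟨x, y, hxy⟩ := hab.of_mul_right_left
    obtain ⟨γ, δ, h2⟩ := hgN.pow_right (n := m + 1)
    refine ⟨δ * (x * N * c - y * g), γ + δ * (y * f - x * N * e), ?_⟩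
    have h3 : (x * N * c - y * g) * (a * f + b * N * e) +
        (y * f - x * N * e) * (a * g + b * N * c) = (N : ℤ) ^ (m + 1) := by
      rw [pow_succ, ← he]
      linear_combination (N : ℤ) * (f * c - g * e) * hxy
    linear_combination h2 + δ * h3
  · have h1 := dvd_second hg hA he
    have : (a * g + b * N * c) * A - (a * f + b * N * e) =
        a * (g * A - f) + b * (N * (c * A - e)) := by ring
    rw [this]
    exact dvd_add (hA.mul_left _) (h1.mul_left _)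

/-- every admissible pair is a combination -/
lemma exists_comb (hN : 0 < N) (hg : IsCoprime g (N : ℤ)) (hA : (N : ℤ) ^ (m + 1) ∣ g * A - f)
    (he : f * c - g * e = (N : ℤ) ^ m) {f' g' : ℤ} (h : InL N (m + 1) A f' g') :
    ∃ a b : ℤ, IsCoprime a (b * N) ∧ f' = a * f + b * N * e ∧ g' = a * g + b * N * c := by
  obtain ⟨h1, h2, h3⟩ := h
  have hK : (N : ℤ) ^ m ≠ 0 := by positivity
  have hN' : (N : ℤ) ≠ 0 := by positivity
  -- `b`
  obtain ⟨b, hb⟩ : (N : ℤ) ^ (m + 1) ∣ f * g' - g * f' := by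
    have : f * g' - g * f' = g * (g' * A - f') - g' * (g * A - f) := by ring
    rw [this]
    exact dvd_sub (h3.mul_left _) (hA.mul_left _)
  obtain ⟨a, ha⟩ : (N : ℤ) ^ m ∣ c * f' - e * g' := by
    have h4 : (N : ℤ) ^ m ∣ c * A - e := by
      have h5 := dvd_second hg hA he
      rw [pow_succ, mul_comm] at h5
      exact Int.dvd_of_mul_dvd_mul_left hN' h5
    have : c * f' - e * g' = g' * (c * A - e) - c * (g' * A - f') := by ring
    rw [this]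
    exact dvd_sub (h4.mul_left _) (((pow_dvd_pow _ (Nat.le_succ m)).trans h3).mul_left _)
  have e1 : f' = a * f + b * N * e := by
    apply mul_left_cancel₀ hK
    rw [pow_succ] at hb
    calc (N : ℤ) ^ m * f' = f * (c * f' - e * g') + e * (f * g' - g * f') := by rw [← he]; ring
      _ = (N : ℤ) ^ m * (a * f + b * N * e) := by rw [ha, hb]; ring
  have e2 : g' = a * g + b * N * c := by
    apply mul_left_cancel₀ hK
    rw [pow_succ] at hb
    calc (N : ℤ) ^ m * g' = g * (c * f' - e * g') + c * (f * g' - g * f') := by rw [← he]; ring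
      _ = (N : ℤ) ^ m * (a * g + b * N * c) := by rw [ha, hb]; ring
  refine ⟨a, b, ?_, e1, e2⟩
  obtain ⟨x, y, hxy⟩ := h1
  refine ⟨x * f + y * g, x * e + y * c, ?_⟩
  rw [e1, e2] at hxy
  linear_combination hxy

end lattice

/-! ### the normalised points -/

/-- the normalised point of a pair -/
def pt (N m : ℕ) (v : ℤ × ℕ) : ℝ × ℝ × ℝ :=
  ((v.1 : ℝ) / v.2, (cc (N ^ m) v : ℝ) / v.2, (v.2 : ℝ) ^ 2 / (N : ℝ) ^ (m + 1))

/-- the comparison value -/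
def cmp (N : ℕ) (p : ℝ × ℝ × ℝ) (a b : ℤ) : ℝ :=
  max (p.2.2 * |a + b * N * p.2.1|) |p.2.2 * p.1 * (a + b * N * p.2.1) - b|

/-- the region: closed version -/
def Ele (N : ℕ) (r : ℝ) : Set (ℝ × ℝ × ℝ) :=
  {p | (0 ≤ p.2.1 ∧ p.2.1 < 1) ∧ 0 < p.2.2 ∧ p.2.2 * max 1 (p.1 ^ 2) ≤ r ^ 2 ∧
    ∀ a b : ℤ, IsCoprime a (b * N) → p.2.2 * max 1 |p.1| ≤ cmp N p a b}

/-- the region: open version -/
def Elt (N : ℕ) (r : ℝ) : Set (ℝ × ℝ × ℝ) :=
  {p | (0 < p.2.1 ∧ p.2.1 < 1) ∧ 0 < p.2.2 ∧ p.2.2 * max 1 (p.1 ^ 2) < r ^ 2 ∧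
    ∀ a b : ℤ, IsCoprime a (b * N) → b ≠ 0 → p.2.2 * max 1 |p.1| < cmp N p a b}

/-- the sup norm as a real number -/
lemma nrm_cast (f g : ℤ) : ((nrm f g : ℕ) : ℝ) = max |(f : ℝ)| |(g : ℝ)| := by
  unfold nrm
  push_cast
  rw [Nat.cast_natAbs, Nat.cast_natAbs]
  push_cast
  rfl

lemma cmp_pt (N m : ℕ) (hN : 0 < N) (v : ℤ × ℕ) (hv : v ∈ VV N) (e : ℤ)
    (he : v.1 * (cc (N ^ m) v : ℤ) - v.2 * e = ((N ^ m : ℕ) : ℤ)) (a b : ℤ) :
    cmp N (pt N m v) a b * (N : ℝ) ^ (m + 1) / v.2 =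
      ((nrm (a * v.1 + b * N * e) (a * v.2 + b * N * (cc (N ^ m) v : ℤ)) : ℕ) : ℝ) := by
  have hg : (0 : ℝ) < v.2 := by exact_mod_cast hv.1
  have hM : (0 : ℝ) < (N : ℝ) ^ (m + 1) := by positivity
  have heR : (v.1 : ℝ) * (cc (N ^ m) v : ℝ) - v.2 * e = (N : ℝ) ^ m := by exact_mod_cast he
  rw [nrm_cast]
  unfold cmp pt
  simp only
  rw [max_comm |((a * v.1 + b * N * e : ℤ) : ℝ)|]
  have hpos : (0 : ℝ) ≤ (N : ℝ) ^ (m + 1) / v.2 := by positivity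
  rw [mul_div_assoc, max_mul_of_nonneg _ _ hpos]
  congr 1
  · rw [← abs_of_pos (show (0 : ℝ) < (v.2 : ℝ) ^ 2 / (N : ℝ) ^ (m + 1) by positivity), ← abs_mul,
      ← abs_of_nonneg hpos, ← abs_mul]
    congr 1
    push_cast
    field_simp
  · rw [← abs_of_nonneg hpos, ← abs_mul]
    congr 1
    push_cast
    have h2 : (N : ℝ) ^ (m + 1) = N * ((v.1 : ℝ) * (cc (N ^ m) v : ℝ) - v.2 * e) := by
      rw [heR, pow_succ]; ring
    have h3 : (v.2 : ℝ) ^ 2 / (N : ℝ) ^ (m + 1) * ((v.1 : ℝ) / v.2) *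
        (a + b * N * ((cc (N ^ m) v : ℝ) / v.2)) * ((N : ℝ) ^ (m + 1) / v.2) =
        v.1 * (a + b * N * ((cc (N ^ m) v : ℝ) / v.2)) := by
      field_simp
    rw [sub_mul, h3]
    have h4 : (b : ℝ) * ((N : ℝ) ^ (m + 1) / v.2) =
        b * N * v.1 * (cc (N ^ m) v : ℝ) / v.2 - b * N * e := by
      rw [h2]; field_simp
    rw [h4]
    field_simp
    ring

lemma self_pt (N m : ℕ) (hN : 0 < N) (v : ℤ × ℕ) (hv : v ∈ VV N) :
    (pt N m v).2.2 * max 1 |(pt N m v).1| * (N : ℝ) ^ (m + 1) / v.2 =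
      ((nrm v.1 (v.2 : ℤ) : ℕ) : ℝ) := by
  have hg : (0 : ℝ) < v.2 := by exact_mod_cast hv.1
  have hM : (0 : ℝ) < (N : ℝ) ^ (m + 1) := by positivity
  rw [nrm_cast]
  unfold pt
  simp only
  have h1 : (v.2 : ℝ) ^ 2 / (N : ℝ) ^ (m + 1) * max 1 |(v.1 : ℝ) / v.2| * (N : ℝ) ^ (m + 1) / v.2 =
      max 1 |(v.1 : ℝ) / v.2| * v.2 := by
    field_simp
  rw [h1, max_mul_of_nonneg _ _ hg.le, one_mul, max_comm, abs_div, abs_of_pos hg,
    div_mul_cancel₀ _ hg.ne']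
  push_cast
  rw [abs_of_pos hg]

lemma norm_pt (N m : ℕ) (hN : 0 < N) (v : ℤ × ℕ) (hv : v ∈ VV N) :
    (pt N m v).2.2 * max 1 ((pt N m v).1 ^ 2) =
      ((nrm v.1 (v.2 : ℤ) : ℕ) : ℝ) ^ 2 / (N : ℝ) ^ (m + 1) := by
  have hg : (0 : ℝ) < v.2 := by exact_mod_cast hv.1
  have hM : (0 : ℝ) < (N : ℝ) ^ (m + 1) := by positivity
  have h1 : max 1 ((pt N m v).1 ^ 2) = (max 1 |(pt N m v).1|) ^ 2 := by
    rw [← sq_abs (pt N m v).1]
    rcases le_total 1 |(pt N m v).1| with h | h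
    · rw [max_eq_right h, max_eq_right (by nlinarith)]
    · rw [max_eq_left h, max_eq_left (by nlinarith [abs_nonneg (pt N m v).1]), one_pow]
  rw [h1, ← self_pt N m hN v hv]
  unfold pt
  simp only
  field_simp

/-- comparison of lengths in terms of the points -/
lemma le_iff (N m : ℕ) (hN : 0 < N) (v : ℤ × ℕ) (hv : v ∈ VV N) (e : ℤ)
    (he : v.1 * (cc (N ^ m) v : ℤ) - v.2 * e = ((N ^ m : ℕ) : ℤ)) (a b : ℤ) :
    (pt N m v).2.2 * max 1 |(pt N m v).1| ≤ cmp N (pt N m v) a b ↔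
      nrm v.1 (v.2 : ℤ) ≤ nrm (a * v.1 + b * N * e) (a * v.2 + b * N * (cc (N ^ m) v : ℤ)) := by
  have hg : (0 : ℝ) < v.2 := by exact_mod_cast hv.1
  have hM : (0 : ℝ) < (N : ℝ) ^ (m + 1) := by positivity
  rw [← Nat.cast_le (α := ℝ), ← cmp_pt N m hN v hv e he a b, ← self_pt N m hN v hv,
    mul_div_assoc, mul_div_assoc]
  exact (mul_le_mul_iff_left₀ (by positivity)).symm

lemma lt_iff' (N m : ℕ) (hN : 0 < N) (v : ℤ × ℕ) (hv : v ∈ VV N) (e : ℤ)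
    (he : v.1 * (cc (N ^ m) v : ℤ) - v.2 * e = ((N ^ m : ℕ) : ℤ)) (a b : ℤ) :
    (pt N m v).2.2 * max 1 |(pt N m v).1| < cmp N (pt N m v) a b ↔
      nrm v.1 (v.2 : ℤ) < nrm (a * v.1 + b * N * e) (a * v.2 + b * N * (cc (N ^ m) v : ℤ)) := by
  have hg : (0 : ℝ) < v.2 := by exact_mod_cast hv.1
  have hM : (0 : ℝ) < (N : ℝ) ^ (m + 1) := by positivity
  rw [← Nat.cast_lt (α := ℝ), ← cmp_pt N m hN v hv e he a b, ← self_pt N m hN v hv,
    mul_div_assoc, mul_div_assoc]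
  exact (mul_lt_mul_iff_left₀ (by positivity)).symm

end Pool.Agent.Helper94.NA
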