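import Mathlib
import Pool.Agent.Helper94.NA.Param

/-! # Counting residue classes by their shortest admissible vectors -/

set_option autoImplicit false

noncomputable section

open Finset Filter Topology

namespace Pool.Agent.Helper94.NA

open Pool.Agent.H25.Adic

/-- number of residue classes with small height -/
def cntH (N n : ℕ) (r : ℝ) : ℕ :=
  ((range (N ^ n)).filter (fun A : ℕ => (Hh N n A : ℝ) ≤ r * √((N : ℝ) ^ n))).card

/-- number of admissible pairs whose point lies in `S` -/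
def W (N m : ℕ) (S : Set (ℝ × ℝ × ℝ)) : ℕ := {v : ℤ × ℕ | v ∈ VV N ∧ pt N m v ∈ S}.ncard

lemma nrm_bound_finite (N : ℕ) (B : ℕ) : {v : ℤ × ℕ | nrm v.1 (v.2 : ℤ) ≤ B}.Finite := by
  apply Set.Finite.subset ((Set.finite_Icc (-(B : ℤ)) B).prod (Set.finite_Icc 0 B))
  rintro ⟨f, g⟩ h
  change max f.natAbs ((g : ℤ)).natAbs ≤ B at h
  have h1 := (le_max_left _ _).trans h
  have h2 := (le_max_right _ _).trans h
  rw [Int.natAbs_natCast] at h2
  refine ⟨⟨?_, ?_⟩, ⟨?_, h2⟩⟩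
  · change -(B : ℤ) ≤ f
    omega
  · change f ≤ (B : ℤ)
    omega
  · exact Nat.zero_le _

/-- finiteness for regions bounded in the norm -/
lemma finite_of_bound (N m : ℕ) (hN : 0 < N) (r : ℝ) (S : Set (ℝ × ℝ × ℝ))
    (hS : ∀ p ∈ S, p.2.2 * max 1 (p.1 ^ 2) ≤ r) : {v : ℤ × ℕ | v ∈ VV N ∧ pt N m v ∈ S}.Finite := by
  have hM : (0 : ℝ) < (N : ℝ) ^ (m + 1) := by positivity
  apply Set.Finite.subset (nrm_bound_finite N ⌈r * (N : ℝ) ^ (m + 1)⌉₊)
  rintro v ⟨hv, hp⟩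
  have h1 := hS _ hp
  rw [norm_pt N m hN v hv, div_le_iff₀ hM] at h1
  have h2 : (1 : ℝ) ≤ ((nrm v.1 (v.2 : ℤ) : ℕ) : ℝ) := by
    have : 0 < v.2 := hv.1
    exact_mod_cast nrm_pos (Or.inr (by exact_mod_cast this.ne'))
  have h3 : ((nrm v.1 (v.2 : ℤ) : ℕ) : ℝ) ≤ (⌈r * (N : ℝ) ^ (m + 1)⌉₊ : ℝ) :=
    le_trans (by nlinarith) (Nat.le_ceil _)
  change nrm v.1 (v.2 : ℤ) ≤ _
  exact_mod_cast h3

/-- the class of an admissible pair -/
def cls (N n : ℕ) (v : ℤ × ℕ) : ℕ := ((v.1 : ZMod (N ^ n)) * (v.2 : ZMod (N ^ n))⁻¹).val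

lemma cls_lt (N n : ℕ) (hN : 0 < N) (v : ℤ × ℕ) : cls N n v < N ^ n := by
  haveI : NeZero (N ^ n) := ⟨by positivity⟩
  exact ZMod.val_lt _

lemma cls_spec (N n : ℕ) (hN : 0 < N) (v : ℤ × ℕ) (hv : v ∈ VV N) :
    (N : ℤ) ^ n ∣ (v.2 : ℤ) * (cls N n v : ℤ) - v.1 := by
  haveI : NeZero (N ^ n) := ⟨by positivity⟩
  have h : (((N ^ n : ℕ) : ℕ) : ℤ) ∣ (v.2 : ℤ) * (cls N n v : ℤ) - v.1 := by
    rw [← ZMod.intCast_zmod_eq_zero_iff_dvd]
    push_cast
    unfold cls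
    rw [ZMod.natCast_zmod_val]
    have hu : IsUnit (v.2 : ZMod (N ^ n)) := by
      rw [ZMod.isUnit_iff_coprime]
      exact (Nat.Coprime.pow_left n hv.2.2).symm
    rw [mul_left_comm, ZMod.mul_inv_of_unit _ hu, mul_one, sub_self]
  push_cast at h
  exact h

lemma VV_coprime {N : ℕ} {v : ℤ × ℕ} (hv : v ∈ VV N) : IsCoprime (v.2 : ℤ) (N : ℤ) := by
  exact (Nat.isCoprime_iff_coprime.2 hv.2.2).symm

lemma sq_le_iff (h M r : ℝ) (hr : 0 ≤ r) (hh : 0 ≤ h) (hM : 0 < M) :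
    h ≤ r * √M ↔ h ^ 2 / M ≤ r ^ 2 := by
  rw [div_le_iff₀ hM]
  have h1 : r ^ 2 * M = (r * √M) ^ 2 := by rw [mul_pow, Real.sq_sqrt hM.le]
  rw [h1]
  exact (pow_le_pow_iff_left₀ hh (by positivity) (by norm_num)).symm

/-- lower bound -/
lemma lower (N m : ℕ) (hN : 2 ≤ N) (r : ℝ) (hr : 0 ≤ r) :
    W N m (Elt N r) ≤ cntH N (m + 1) r := by
  classical
  have hN0 : 0 < N := by omega
  have hM : (0 : ℝ) < (N : ℝ) ^ (m + 1) := by positivity
  have hfin : {v : ℤ × ℕ | v ∈ VV N ∧ pt N m v ∈ Elt N r}.Finite :=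
    finite_of_bound N m hN0 (r ^ 2) _ (fun p hp => hp.2.2.1.le)
  unfold W cntH
  rw [Set.ncard_eq_toFinset_card _ hfin]
  apply Finset.card_le_card_of_injOn (cls N (m + 1))
  · intro v hv
    rw [mem_coe, Set.Finite.mem_toFinset] at hv
    obtain ⟨hv, hp⟩ := hv
    rw [mem_coe, mem_filter, mem_range]
    refine ⟨cls_lt N (m + 1) hN0 v, ?_⟩
    have h1 : Hh N (m + 1) (cls N (m + 1) v : ℤ) ≤ nrm v.1 (v.2 : ℤ) :=
      Hh_le_pos (by exact_mod_cast hv.1) (VV_coprime hv) (cls_spec N (m + 1) hN0 v hv)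
    have h2 : ((nrm v.1 (v.2 : ℤ) : ℕ) : ℝ) ≤ r * √((N : ℝ) ^ (m + 1)) := by
      rw [sq_le_iff _ _ _ hr (by positivity) hM, ← norm_pt N m hN0 v hv]
      exact hp.2.2.1.le
    calc ((Hh N (m + 1) (cls N (m + 1) v : ℤ) : ℕ) : ℝ) ≤ ((nrm v.1 (v.2 : ℤ) : ℕ) : ℝ) := by
          exact_mod_cast h1
      _ ≤ _ := h2
  · intro v hv v' hv' hvv
    rw [mem_coe, Set.Finite.mem_toFinset] at hv hv'
    obtain ⟨hv, hp⟩ := hv
    obtain ⟨hv', hp'⟩ := hv'
    by_contra hne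
    have key : ∀ w w' : ℤ × ℕ, w ∈ VV N → w' ∈ VV N → pt N m w ∈ Elt N r →
        cls N (m + 1) w = cls N (m + 1) w' → w ≠ w' →
        nrm w.1 (w.2 : ℤ) < nrm w'.1 (w'.2 : ℤ) := by
      intro w w' hw hw' hpw hcl hne
      obtain ⟨e, he⟩ := exists_e N (N ^ m) w hw
      have he' : w.1 * (cc (N ^ m) w : ℤ) - (w.2 : ℤ) * e = (N : ℤ) ^ m := by
        rw [he]; push_cast; rfl
      have hInL : InL N (m + 1) (cls N (m + 1) w : ℤ) w'.1 (w'.2 : ℤ) := by
        refine ⟨hw'.2.1, VV_coprime hw', ?_⟩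
        rw [hcl]
        exact cls_spec N (m + 1) hN0 w' hw'
      obtain ⟨a, b, hab, e1, e2⟩ := exists_comb hN0 (VV_coprime hw)
        (cls_spec N (m + 1) hN0 w hw) he' hInL
      have hb : b ≠ 0 := by
        rintro rfl
        rw [zero_mul, isCoprime_zero_right, Int.isUnit_iff] at hab
        simp only [zero_mul, add_zero] at e1 e2
        have g1 : (0 : ℤ) < w.2 := by exact_mod_cast hw.1
        have g2 : (0 : ℤ) < w'.2 := by exact_mod_cast hw'.1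
        rcases hab with rfl | rfl
        · apply hne
          apply Prod.ext
          · rw [e1, one_mul]
          · have : (w'.2 : ℤ) = w.2 := by rw [e2, one_mul]
            exact_mod_cast this.symm
        · rw [e2] at g2; linarith
      have h1 := hpw.2.2.2 a b hab hb
      rw [lt_iff' N m hN0 w hw e he a b, ← e1, ← e2] at h1
      exact h1
    exact absurd (key v v' hv hv' hp hvv hne)
      (not_lt.2 (key v' v hv' hv hp' hvv.symm (Ne.symm hne)).le)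

/-- upper bound -/
lemma upper (N m : ℕ) (hN : 2 ≤ N) (r : ℝ) (hr : 0 ≤ r) :
    cntH N (m + 1) r ≤ W N m (Ele N r) := by
  classical
  have hN0 : 0 < N := by omega
  have hM : (0 : ℝ) < (N : ℝ) ^ (m + 1) := by positivity
  have hfin : {v : ℤ × ℕ | v ∈ VV N ∧ pt N m v ∈ Ele N r}.Finite :=
    finite_of_bound N m hN0 (r ^ 2) _ (fun p hp => hp.2.2.1)
  have hmem : ∀ A : ℕ, ∃ v : ℤ × ℕ, v ∈ VV N ∧ (N : ℤ) ^ (m + 1) ∣ (v.2 : ℤ) * A - v.1 ∧
      Hh N (m + 1) A = nrm v.1 (v.2 : ℤ) := by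
    intro A
    obtain ⟨f, g, h1, h2, h3, h4, h5⟩ := Hh_mem N (m + 1) A
    lift g to ℕ using h1.le
    refine ⟨(f, g), ⟨by exact_mod_cast h1, h2, ?_⟩, h4, h5⟩
    exact (Nat.isCoprime_iff_coprime.1 h3).symm
  choose v hv hd hn using hmem
  unfold W cntH
  rw [Set.ncard_eq_toFinset_card _ hfin]
  apply Finset.card_le_card_of_injOn v
  · intro A hA
    rw [mem_coe, mem_filter, mem_range] at hA
    rw [mem_coe, Set.Finite.mem_toFinset]
    refine ⟨hv A, ?_, ?_, ?_, ?_⟩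
    · have hg : (0 : ℝ) < (v A).2 := by exact_mod_cast (hv A).1
      constructor
      · unfold pt; simp only; positivity
      · unfold pt; simp only
        rw [div_lt_one hg]
        exact_mod_cast cc_lt _ _ (hv A).1
    · have hg : (0 : ℝ) < (v A).2 := by exact_mod_cast (hv A).1
      unfold pt; simp only; positivity
    · rw [norm_pt N m hN0 _ (hv A), ← sq_le_iff _ _ _ hr (by positivity) hM, ← hn A]
      exact hA.2
    · intro a b hab
      obtain ⟨e, he⟩ := exists_e N (N ^ m) (v A) (hv A)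
      have he' : (v A).1 * (cc (N ^ m) (v A) : ℤ) - ((v A).2 : ℤ) * e = (N : ℤ) ^ m := by
        rw [he]; push_cast; rfl
      rw [le_iff N m hN0 (v A) (hv A) e he a b, ← hn A]
      have h1 := comb_mem (VV_coprime (hv A)) (hd A) he' hab
      exact Hh_le hN h1.2.1 h1.2.2
  · intro A hA B hB hAB
    rw [mem_coe, mem_filter, mem_range] at hA hB
    have e1 := hd A
    have e2 := hd B
    rw [hAB] at e1
    have e3 : (N : ℤ) ^ (m + 1) ∣ ((v B).2 : ℤ) * ((A : ℤ) - B) := by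
      have : ((v B).2 : ℤ) * ((A : ℤ) - B) = (((v B).2 : ℤ) * A - (v B).1) -
        (((v B).2 : ℤ) * B - (v B).1) := by ring
      rw [this]
      exact dvd_sub e1 e2
    have e4 : (N : ℤ) ^ (m + 1) ∣ (A : ℤ) - B :=
      ((VV_coprime (hv B)).pow_right.symm).dvd_of_dvd_mul_left e3
    have e5 : (A : ℤ) - B = 0 := by
      apply Int.eq_zero_of_abs_lt_dvd e4
      have hA' : (A : ℤ) < (N : ℤ) ^ (m + 1) := by exact_mod_cast hA.1
      have hB' : (B : ℤ) < (N : ℤ) ^ (m + 1) := by exact_mod_cast hB.1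
      rw [abs_lt]
      constructor <;> omega
    omega

end Pool.Agent.Helper94.NA
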