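import Mathlib
import Pool.Agent.Helper94.NA.Arc
import Pool.Agent.Helper94.NA.Sandwich

/-! # Counting admissible pairs in boxes -/

set_option autoImplicit false

noncomputable section

open Finset Filter Topology MeasureTheory

namespace Pool.Agent.Helper94.NA

open Pool.Agent.H25.Adic

/-- number of `g` below the threshold -/
def XX (N : ℕ) (q : ℝ) (m : ℕ) : ℕ := ⌈√(q * (N : ℝ) ^ (m + 1))⌉₊ - 1

/-- a half-open box starting at height zero -/
def box0 (k : ℤ) (a b c d q : ℝ) : Set (ℝ × ℝ × ℝ) :=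
  {p | (k + a ≤ p.1 ∧ p.1 < k + b) ∧ (c ≤ p.2.1 ∧ p.2.1 < d) ∧ p.2.2 < q}

lemma lt_XX (N : ℕ) (hN : 0 < N) (q : ℝ) (m i : ℕ) :
    i < XX N q m ↔ ((i + 1 : ℕ) : ℝ) ^ 2 / (N : ℝ) ^ (m + 1) < q := by
  have hM : (0 : ℝ) < (N : ℝ) ^ (m + 1) := by positivity
  have h1 : i < XX N q m ↔ i + 1 < ⌈√(q * (N : ℝ) ^ (m + 1))⌉₊ := by
    unfold XX; omega
  rw [h1, Nat.lt_ceil, div_lt_iff₀ hM, Real.lt_sqrt (by positivity)]

lemma box0_bound (k : ℤ) (a b c d q : ℝ) (ha : 0 ≤ a) (hb : b ≤ 1) (hq : 0 ≤ q) :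
    ∀ p ∈ box0 k a b c d q, p.2.2 * max 1 (p.1 ^ 2) ≤ q * (|(k : ℝ)| + 1) ^ 2 := by
  rintro p ⟨⟨h1, h2⟩, _, h3⟩
  have h4 : |p.1| ≤ |(k : ℝ)| + 1 := by
    rw [abs_le]
    have := neg_abs_le (k : ℝ)
    have := le_abs_self (k : ℝ)
    constructor <;> linarith
  have h5 : max 1 (p.1 ^ 2) ≤ (|(k : ℝ)| + 1) ^ 2 := by
    apply max_le
    · nlinarith [abs_nonneg (k : ℝ)]
    · rw [← sq_abs p.1]
      exact pow_le_pow_left₀ (abs_nonneg _) h4 2
  calc p.2.2 * max 1 (p.1 ^ 2) ≤ q * max 1 (p.1 ^ 2) :=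
        mul_le_mul_of_nonneg_right h3.le (by positivity)
    _ ≤ _ := mul_le_mul_of_nonneg_left h5 hq

lemma W_box0 (N m : ℕ) (hN : 0 < N) (k : ℤ) (a b c d q : ℝ) (ha : 0 ≤ a) (hb : b ≤ 1)
    (hq : 0 ≤ q) : W N m (box0 k a b c d q) = cnt' N (XX N q m) (N ^ m) a b c d := by
  classical
  have hM : (0 : ℝ) < (N : ℝ) ^ (m + 1) := by positivity
  have hfin := finite_of_bound N m hN _ _ (box0_bound k a b c d q ha hb hq)
  unfold W cnt'
  rw [Set.ncard_eq_toFinset_card _ hfin]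
  rw [Finset.card_eq_sum_card_fiberwise (f := fun v : ℤ × ℕ => v.2 - 1)
    (t := (range (XX N q m)).filter (fun i => N.Coprime (i + 1)))]
  · apply Finset.sum_congr rfl
    intro i hi
    rw [mem_filter, mem_range] at hi
    obtain ⟨hiX, hic⟩ := hi
    have hfib : ((hfin.toFinset.filter (fun v : ℤ × ℕ => v.2 - 1 = i)).card : ℕ) =
        {v : ℤ × ℕ | (v ∈ VV N ∧ pt N m v ∈ box0 k a b c d q) ∧ v.2 - 1 = i}.ncard := by
      rw [Set.ncard_eq_toFinset_card _ (hfin.subset (fun v hv => hv.1))]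
      congr 1
      ext v
      simp only [mem_filter, Set.Finite.mem_toFinset, Set.mem_ofPred_eq]
    rw [hfib]
    symm
    have hgpos : (0 : ℝ) < ((i + 1 : ℕ) : ℝ) := by positivity
    apply Set.ncard_congr (fun (u : (ZMod (i + 1))ˣ) _ =>
      ((k * ((i + 1 : ℕ) : ℤ) + ((u : ZMod (i + 1)).val : ℤ), i + 1) : ℤ × ℕ))
    · intro u hu
      obtain ⟨⟨u1, u2⟩, u3, u4⟩ := hu
      have hcast : ((k * ((i + 1 : ℕ) : ℤ) + ((u : ZMod (i + 1)).val : ℤ) : ℤ) : ZMod (i + 1)) =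
          (u : ZMod (i + 1)) := by
        push_cast
        rw [ZMod.natCast_zmod_val]
        have : ((i : ZMod (i + 1)) + 1) = 0 := by
          have := ZMod.natCast_self (i + 1)
          push_cast at this
          exact this
        rw [this]; ring
      have hy : (((k * ((i + 1 : ℕ) : ℤ) + ((u : ZMod (i + 1)).val : ℤ) : ℤ)) : ℝ) /
          ((i + 1 : ℕ) : ℝ) = k + ((u : ZMod (i + 1)).val : ℝ) / ((i + 1 : ℕ) : ℝ) := by
        push_cast
        field_simp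
      refine ⟨⟨⟨Nat.succ_pos i, ?_, hic⟩, ?_⟩, by simp⟩
      · have h1 := ZMod.val_coe_unit_coprime u
        have h2 : IsCoprime (((u : ZMod (i + 1)).val : ℤ)) ((i + 1 : ℕ) : ℤ) :=
          Nat.isCoprime_iff_coprime.2 h1
        change IsCoprime (k * ((i + 1 : ℕ) : ℤ) + ((u : ZMod (i + 1)).val : ℤ)) ((i + 1 : ℕ) : ℤ)
        rw [add_comm]
        exact h2.add_mul_right_left k
      · refine ⟨?_, ?_, ?_⟩
        · change _ ≤ (((k * ((i + 1 : ℕ) : ℤ) + ((u : ZMod (i + 1)).val : ℤ) : ℤ)) : ℝ) /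
            ((i + 1 : ℕ) : ℝ) ∧ (((k * ((i + 1 : ℕ) : ℤ) + ((u : ZMod (i + 1)).val : ℤ) : ℤ)) : ℝ) /
            ((i + 1 : ℕ) : ℝ) < _
          rw [hy]
          constructor <;> linarith
        · have hcc : cc (N ^ m) (k * ((i + 1 : ℕ) : ℤ) + ((u : ZMod (i + 1)).val : ℤ), i + 1) =
              (((N ^ m : ℕ) : ZMod (i + 1)) * ((u⁻¹ : (ZMod (i + 1))ˣ) : ZMod (i + 1))).val := by
            unfold cc
            change (((N ^ m : ℕ) : ZMod (i + 1)) * ((k * ((i + 1 : ℕ) : ℤ) +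
              ((u : ZMod (i + 1)).val : ℤ) : ℤ) : ZMod (i + 1))⁻¹).val = _
            rw [hcast, ZMod.inv_coe_unit]
          change _ ≤ ((cc (N ^ m) (k * ((i + 1 : ℕ) : ℤ) + ((u : ZMod (i + 1)).val : ℤ), i + 1) : ℕ)
            : ℝ) / ((i + 1 : ℕ) : ℝ) ∧ ((cc (N ^ m) (k * ((i + 1 : ℕ) : ℤ) +
            ((u : ZMod (i + 1)).val : ℤ), i + 1) : ℕ) : ℝ) / ((i + 1 : ℕ) : ℝ) < _
          rw [hcc]
          exact ⟨u3, u4⟩
        · change ((i + 1 : ℕ) : ℝ) ^ 2 / (N : ℝ) ^ (m + 1) < q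
          exact (lt_XX N hN q m i).1 hiX
    · intro u u' _ _ h
      simp only [Prod.mk.injEq, and_true] at h
      apply Units.ext
      apply ZMod.val_injective
      have : (((u : ZMod (i + 1)).val : ℤ)) = (((u' : ZMod (i + 1)).val : ℤ)) := by linarith
      exact_mod_cast this
    · rintro ⟨f, g⟩ ⟨⟨⟨hg, hcop, _⟩, ⟨hy, ht, _⟩⟩, hgi⟩
      simp only at hg hgi hcop
      have hgi' : g = i + 1 := by omega
      subst hgi'
      have hu : IsUnit (f : ZMod (i + 1)) := by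
        obtain ⟨x, y, hxy⟩ := hcop
        have : ((x * f + y * ((i + 1 : ℕ) : ℤ) : ℤ) : ZMod (i + 1)) =
          ((1 : ℤ) : ZMod (i + 1)) := by rw [hxy]
        rw [Int.cast_add, Int.cast_mul, Int.cast_mul, Int.cast_natCast, ZMod.natCast_self, mul_zero,
          add_zero, Int.cast_one] at this
        exact IsUnit.of_mul_eq_one _ (by rw [mul_comm]; exact this)
      change (k + a ≤ (f : ℝ) / ((i + 1 : ℕ) : ℝ)) ∧ ((f : ℝ) / ((i + 1 : ℕ) : ℝ) < k + b) at hy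
      change (c ≤ (cc (N ^ m) (f, i + 1) : ℝ) / ((i + 1 : ℕ) : ℝ)) ∧
        ((cc (N ^ m) (f, i + 1) : ℝ) / ((i + 1 : ℕ) : ℝ) < d) at ht
      have h1 : (k : ℝ) * ((i + 1 : ℕ) : ℝ) ≤ f := by
        have := (le_div_iff₀ hgpos).1 hy.1
        nlinarith
      have h2 : (f : ℝ) < (k + 1) * ((i + 1 : ℕ) : ℝ) := by
        have := (div_lt_iff₀ hgpos).1 hy.2
        nlinarith
      have h1' : k * ((i + 1 : ℕ) : ℤ) ≤ f := by exact_mod_cast h1
      have h2' : f < (k + 1) * ((i + 1 : ℕ) : ℤ) := by exact_mod_cast h2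
      have hval : ((hu.unit : ZMod (i + 1)).val : ℤ) = f - k * ((i + 1 : ℕ) : ℤ) := by
        rw [IsUnit.unit_spec, ZMod.val_intCast]
        rw [Int.emod_eq_iff (by positivity)]
        refine ⟨by linarith, ?_, ?_⟩
        · rw [Int.natAbs_natCast]; linarith
        · exact ⟨-k, by ring⟩
      have hvalR : ((hu.unit : ZMod (i + 1)).val : ℝ) = f - k * ((i + 1 : ℕ) : ℝ) := by
        exact_mod_cast hval
      refine ⟨hu.unit, ⟨⟨?_, ?_⟩, ?_⟩, ?_⟩
      · rw [hvalR, sub_div, mul_div_assoc, div_self hgpos.ne']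
        linarith [hy.1]
      · rw [hvalR, sub_div, mul_div_assoc, div_self hgpos.ne']
        linarith [hy.2]
      · have hcc : cc (N ^ m) (f, i + 1) =
              (((N ^ m : ℕ) : ZMod (i + 1)) *
                ((hu.unit⁻¹ : (ZMod (i + 1))ˣ) : ZMod (i + 1))).val := by
          unfold cc
          rw [← ZMod.inv_coe_unit, IsUnit.unit_spec]
        rw [← hcc]
        exact ht
      · apply Prod.ext
        · simp only
          rw [hval]; ring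
        · rfl
  · intro v hv
    rw [mem_coe, Set.Finite.mem_toFinset] at hv
    obtain ⟨⟨h1, h2, h3⟩, h4⟩ := hv
    rw [mem_coe, mem_filter, mem_range, lt_XX N hN q m]
    have : v.2 - 1 + 1 = v.2 := Nat.sub_add_cancel h1
    rw [this]
    exact ⟨h4.2.2, h3⟩

lemma XX_tendsto (N : ℕ) (hN : 2 ≤ N) (q : ℝ) (hq : 0 < q) :
    Tendsto (fun m => (XX N q m : ℝ) ^ 2 / (N : ℝ) ^ (m + 1)) atTop (𝓝 q) ∧
      Tendsto (fun m => XX N q m) atTop atTop := by
  have hN1 : (1 : ℝ) < N := by exact_mod_cast (by omega : 1 < N)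
  have hpow : Tendsto (fun m : ℕ => (N : ℝ) ^ (m + 1)) atTop atTop :=
    (tendsto_pow_atTop_atTop_of_one_lt hN1).comp (tendsto_add_atTop_nat 1)
  have hsq : Tendsto (fun m : ℕ => √((N : ℝ) ^ (m + 1))) atTop atTop :=
    Real.tendsto_sqrt_atTop.comp hpow
  have hinv : Tendsto (fun m : ℕ => (√((N : ℝ) ^ (m + 1)))⁻¹) atTop (𝓝 0) :=
    tendsto_inv_atTop_zero.comp hsq
  have hX1 : ∀ m, √q - (√((N : ℝ) ^ (m + 1)))⁻¹ ≤ (XX N q m : ℝ) / √((N : ℝ) ^ (m + 1)) := by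
    intro m
    have hM : (0 : ℝ) < (N : ℝ) ^ (m + 1) := by positivity
    have hs : 0 < √((N : ℝ) ^ (m + 1)) := Real.sqrt_pos.2 hM
    rw [le_div_iff₀ hs, sub_mul, inv_mul_cancel₀ hs.ne', ← Real.sqrt_mul hq.le]
    have h1 := Nat.le_ceil (√(q * (N : ℝ) ^ (m + 1)))
    have h2 : ((⌈√(q * (N : ℝ) ^ (m + 1))⌉₊ : ℕ) : ℝ) ≤ (XX N q m : ℝ) + 1 := by
      have : ⌈√(q * (N : ℝ) ^ (m + 1))⌉₊ ≤ XX N q m + 1 := by unfold XX; omega
      exact_mod_cast this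
    linarith
  have hX2 : ∀ m, (XX N q m : ℝ) / √((N : ℝ) ^ (m + 1)) ≤ √q := by
    intro m
    have hM : (0 : ℝ) < (N : ℝ) ^ (m + 1) := by positivity
    have hs : 0 < √((N : ℝ) ^ (m + 1)) := Real.sqrt_pos.2 hM
    rw [div_le_iff₀ hs, ← Real.sqrt_mul hq.le]
    have hpos : 0 < √(q * (N : ℝ) ^ (m + 1)) := Real.sqrt_pos.2 (by positivity)
    have h1 := Nat.ceil_lt_add_one hpos.le
    have h2 : 0 < ⌈√(q * (N : ℝ) ^ (m + 1))⌉₊ := Nat.ceil_pos.2 hpos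
    have h3 : (XX N q m : ℝ) + 1 = ((⌈√(q * (N : ℝ) ^ (m + 1))⌉₊ : ℕ) : ℝ) := by
      have : XX N q m + 1 = ⌈√(q * (N : ℝ) ^ (m + 1))⌉₊ := by unfold XX; omega
      exact_mod_cast this
    linarith
  have hlim : Tendsto (fun m => (XX N q m : ℝ) / √((N : ℝ) ^ (m + 1))) atTop (𝓝 (√q)) := by
    refine tendsto_of_tendsto_of_tendsto_of_le_of_le ?_ tendsto_const_nhds hX1 hX2
    have := (tendsto_const_nhds (x := √q)).sub hinv
    simpa using this
  constructor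
  · have h1 := hlim.pow 2
    rw [Real.sq_sqrt hq.le] at h1
    refine h1.congr (fun m => ?_)
    rw [div_pow, Real.sq_sqrt (by positivity)]
  · have h1 : Tendsto (fun m => (XX N q m : ℝ)) atTop atTop := by
      have h2 := Filter.Tendsto.pos_mul_atTop (Real.sqrt_pos.2 hq) hlim hsq
      refine h2.congr (fun m => ?_)
      have hs : 0 < √((N : ℝ) ^ (m + 1)) := Real.sqrt_pos.2 (by positivity)
      field_simp
    exact tendsto_natCast_atTop_iff.1 h1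

lemma box0_tendsto (N : ℕ) (hN : 2 ≤ N) (k : ℤ) (a b c d q : ℝ) (ha : 0 ≤ a) (hab : a ≤ b)
    (hb : b ≤ 1) (hc : 0 ≤ c) (hcd : c ≤ d) (hd : d ≤ 1) (hq : 0 ≤ q) :
    Tendsto (fun m => (W N m (box0 k a b c d q) : ℝ) / (N : ℝ) ^ (m + 1)) atTop
      (𝓝 (rho N / 2 * ((b - a) * (d - c) * q))) := by
  have hN0 : 0 < N := by omega
  simp_rw [W_box0 N _ hN0 k a b c d q ha hb hq]
  rcases hq.eq_or_lt with rfl | hq'
  · have : ∀ m, cnt' N (XX N 0 m) (N ^ m) a b c d = 0 := by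
      intro m
      have : XX N 0 m = 0 := by unfold XX; simp
      rw [this]
      simp [cnt']
    simp [this]
  · obtain ⟨h1, h2⟩ := XX_tendsto N hN q hq'
    have h3 := cnt'_tendsto N hN0 (fun m => XX N q m) (fun m => N ^ m) h2
      (fun n g h => Nat.Coprime.pow_left n h) a b c d ha hab hb hc hcd hd
    have h4 := h3.mul h1
    have e : rho N / 2 * ((b - a) * (d - c)) * q = rho N / 2 * ((b - a) * (d - c) * q) := by ring
    rw [e] at h4
    refine h4.congr' ?_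
    filter_upwards [h2.eventually_gt_atTop 0] with m hm
    have hX : (0 : ℝ) < XX N q m := by exact_mod_cast hm
    field_simp

/-- a half-open box -/
def boxq (k : ℤ) (a b c d q q' : ℝ) : Set (ℝ × ℝ × ℝ) :=
  {p | (k + a ≤ p.1 ∧ p.1 < k + b) ∧ (c ≤ p.2.1 ∧ p.2.1 < d) ∧ (q ≤ p.2.2 ∧ p.2.2 < q')}

lemma W_boxq (N m : ℕ) (hN : 0 < N) (k : ℤ) (a b c d q q' : ℝ) (ha : 0 ≤ a) (hb : b ≤ 1)
    (hq : 0 ≤ q) (hqq : q ≤ q') :
    W N m (box0 k a b c d q') = W N m (box0 k a b c d q) + W N m (boxq k a b c d q q') := by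
  have hfin := finite_of_bound N m hN _ _ (box0_bound k a b c d q' ha hb (hq.trans hqq))
  unfold W
  rw [← Set.ncard_union_eq ?_
    (hfin.subset (fun v hv => ⟨hv.1, hv.2.1, hv.2.2.1, lt_of_lt_of_le hv.2.2.2 hqq⟩))
    (hfin.subset (fun v hv => ⟨hv.1, hv.2.1, hv.2.2.1, hv.2.2.2.2⟩))]
  · congr 1
    ext v
    simp only [Set.mem_union, Set.mem_ofPred_eq]
    constructor
    · rintro ⟨h1, h2, h3, h4⟩
      by_cases h5 : (pt N m v).2.2 < q
      · exact Or.inl ⟨h1, h2, h3, h5⟩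
      · exact Or.inr ⟨h1, h2, h3, not_lt.1 h5, h4⟩
    · rintro (⟨h1, h2, h3, h4⟩ | ⟨h1, h2, h3, h4, h5⟩)
      · exact ⟨h1, h2, h3, lt_of_lt_of_le h4 hqq⟩
      · exact ⟨h1, h2, h3, h5⟩
  · rw [Set.disjoint_left]
    rintro v ⟨_, _, _, h4⟩ ⟨_, _, _, h5, _⟩
    exact absurd h4 (not_lt.2 h5)

lemma boxq_tendsto (N : ℕ) (hN : 2 ≤ N) (k : ℤ) (a b c d q q' : ℝ) (ha : 0 ≤ a) (hab : a ≤ b)
    (hb : b ≤ 1) (hc : 0 ≤ c) (hcd : c ≤ d) (hd : d ≤ 1) (hq : 0 ≤ q) (hqq : q ≤ q') :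
    Tendsto (fun m => (W N m (boxq k a b c d q q') : ℝ) / (N : ℝ) ^ (m + 1)) atTop
      (𝓝 (rho N / 2 * ((b - a) * (d - c) * (q' - q)))) := by
  have hN0 : 0 < N := by omega
  have h1 := (box0_tendsto N hN k a b c d q' ha hab hb hc hcd hd (hq.trans hqq)).sub
    (box0_tendsto N hN k a b c d q ha hab hb hc hcd hd hq)
  have e : rho N / 2 * ((b - a) * (d - c) * q') - rho N / 2 * ((b - a) * (d - c) * q) =
      rho N / 2 * ((b - a) * (d - c) * (q' - q)) := by ring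
  rw [e] at h1
  refine h1.congr (fun m => ?_)
  rw [W_boxq N m hN0 k a b c d q q' ha hb hq hqq]
  push_cast
  ring

end Pool.Agent.Helper94.NA
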