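import Mathlib

/-! # Some classical integrals -/

set_option autoImplicit false

noncomputable section

open Filter Topology MeasureTheory Set

namespace Pool.Agent.Helper94.NA

/-- `ζ(3)` -/
def Z3 : ℝ := ∑' n : ℕ, 1 / ((n : ℝ) + 1) ^ 3

lemma ftc_nonneg (F f : ℝ → ℝ) (a b : ℝ) (hab : a ≤ b) (hc : ContinuousOn F (Icc a b))
    (hd : ∀ x ∈ Ioo a b, HasDerivAt F (f x) x) (hpos : ∀ x ∈ Ioo a b, 0 ≤ f x) :
    ∫⁻ x in Ioo a b, ENNReal.ofReal (f x) = ENNReal.ofReal (F b - F a) := by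
  have h1 := intervalIntegral.integrableOn_deriv_of_nonneg hc hd hpos
  have h2 := intervalIntegral.integral_eq_sub_of_hasDerivAt_of_le hab hc hd
    ((intervalIntegrable_iff_integrableOn_Ioc_of_le hab).2 h1)
  rw [intervalIntegral.integral_of_le hab, integral_Ioc_eq_integral_Ioo] at h2
  rw [← h2, ofReal_integral_eq_lintegral_ofReal (h1.mono_set Ioo_subset_Ioc_self)]
  exact (ae_restrict_iff' measurableSet_Ioo).2 (Eventually.of_forall hpos)

lemma continuous_mul_log_sq : ContinuousOn (fun x : ℝ => x * Real.log x ^ 2) (Ici 0) := by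
  have h1 : Continuous (fun x : ℝ => (2 * (√x * Real.log √x)) ^ 2) := by
    have := Real.continuous_mul_log.comp Real.continuous_sqrt
    exact (continuous_const.mul this).pow 2
  apply h1.continuousOn.congr
  intro x hx
  have hx' : (0 : ℝ) ≤ x := hx
  simp only
  rw [Real.log_sqrt hx']
  have : √x * √x = x := Real.mul_self_sqrt hx'
  linear_combination (-Real.log x ^ 2) * this

lemma mom1 (n : ℕ) : ∫⁻ x in Ioo (0 : ℝ) 1, ENNReal.ofReal (x ^ n * -Real.log x) =
    ENNReal.ofReal (1 / ((n : ℝ) + 1) ^ 2) := by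
  have hn : (0 : ℝ) < (n : ℝ) + 1 := by positivity
  rw [ftc_nonneg (fun x => x ^ (n + 1) * (1 / ((n : ℝ) + 1) ^ 2 - Real.log x / ((n : ℝ) + 1)))
    (fun x => x ^ n * -Real.log x) 0 1 zero_le_one]
  · congr 1
    simp
  · apply Continuous.continuousOn
    have e : (fun x : ℝ => x ^ (n + 1) * (1 / ((n : ℝ) + 1) ^ 2 - Real.log x / ((n : ℝ) + 1))) =
        fun x => x ^ (n + 1) * (1 / ((n : ℝ) + 1) ^ 2) - x ^ n * (x * Real.log x) /
          ((n : ℝ) + 1) := by
      funext x; ring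
    rw [e]
    have := Real.continuous_mul_log
    fun_prop
  · intro x hx
    have hx0 : x ≠ 0 := hx.1.ne'
    have h1 := ((hasDerivAt_pow (n + 1) x).mul
      (((Real.hasDerivAt_log hx0).div_const ((n : ℝ) + 1)).const_sub (1 / ((n : ℝ) + 1) ^ 2)))
    refine h1.congr_deriv ?_
    rw [Nat.add_sub_cancel, pow_succ]
    push_cast
    field_simp
    ring
  · intro x hx
    have := Real.log_nonpos hx.1.le hx.2.le
    have := hx.1.le
    have : 0 ≤ -Real.log x := by linarith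
    positivity

lemma mom2 (n : ℕ) : ∫⁻ x in Ioo (0 : ℝ) 1, ENNReal.ofReal (x ^ n * Real.log x ^ 2) =
    ENNReal.ofReal (2 / ((n : ℝ) + 1) ^ 3) := by
  have hn : (0 : ℝ) < (n : ℝ) + 1 := by positivity
  rw [ftc_nonneg (fun x => x ^ (n + 1) * (Real.log x ^ 2 / ((n : ℝ) + 1) -
      2 * Real.log x / ((n : ℝ) + 1) ^ 2 + 2 / ((n : ℝ) + 1) ^ 3))
    (fun x => x ^ n * Real.log x ^ 2) 0 1 zero_le_one]
  · congr 1
    simp
  · have e : (fun x : ℝ => x ^ (n + 1) * (Real.log x ^ 2 / ((n : ℝ) + 1) -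
        2 * Real.log x / ((n : ℝ) + 1) ^ 2 + 2 / ((n : ℝ) + 1) ^ 3)) =
        fun x => x ^ n * (x * Real.log x ^ 2) / ((n : ℝ) + 1) - x ^ n * (x * Real.log x) * 2 /
          ((n : ℝ) + 1) ^ 2 + x ^ (n + 1) * (2 / ((n : ℝ) + 1) ^ 3) := by
      funext x; ring
    rw [e]
    have h1 := Real.continuous_mul_log
    have h2 : ContinuousOn (fun x : ℝ => x * Real.log x ^ 2) (Icc 0 1) :=
      continuous_mul_log_sq.mono Icc_subset_Ici_self
    have h3 : Continuous (fun x : ℝ => x ^ n * (x * Real.log x) * 2 / ((n : ℝ) + 1) ^ 2) := by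
      fun_prop
    have h4 : Continuous (fun x : ℝ => x ^ (n + 1) * (2 / ((n : ℝ) + 1) ^ 3)) := by
      fun_prop
    exact ((((continuous_pow n).continuousOn.mul h2).div_const _).sub h3.continuousOn).add
      h4.continuousOn
  · intro x hx
    have hx0 : x ≠ 0 := hx.1.ne'
    have hl := Real.hasDerivAt_log hx0
    have h1 := ((hasDerivAt_pow (n + 1) x).mul
      ((((hl.fun_pow 2).div_const ((n : ℝ) + 1)).fun_sub ((hl.const_mul 2).div_const
        (((n : ℝ) + 1) ^ 2))).add_const (2 / ((n : ℝ) + 1) ^ 3)))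
    refine h1.congr_deriv ?_
    rw [Nat.add_sub_cancel, pow_succ]
    push_cast
    field_simp
    ring
  · intro x hx
    have := hx.1.le
    positivity

lemma series (a b : ℕ) (hb : 0 < b) (L : ℝ → ℝ) (hL : Measurable L)
    (hpos : ∀ x ∈ Ioo (0 : ℝ) 1, 0 ≤ L x) :
    ∫⁻ x in Ioo (0 : ℝ) 1, ENNReal.ofReal (x ^ a * L x / (1 - x ^ b)) =
      ∑' k : ℕ, ∫⁻ x in Ioo (0 : ℝ) 1, ENNReal.ofReal (x ^ (a + b * k) * L x) := by
  rw [← lintegral_tsum (fun k => by
    apply Measurable.aemeasurable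
    exact ((measurable_id.pow_const _).mul hL).ennreal_ofReal)]
  apply setLIntegral_congr_fun measurableSet_Ioo
  intro x hx
  have hx0 : 0 ≤ x := hx.1.le
  have hLx := hpos x hx
  have hxb : x ^ b < 1 := pow_lt_one₀ hx0 hx.2 hb.ne'
  have h1 : HasSum (fun k : ℕ => x ^ (a + b * k) * L x) (x ^ a * L x / (1 - x ^ b)) := by
    have h2 := (hasSum_geometric_of_lt_one (pow_nonneg hx0 b) hxb).mul_left (x ^ a * L x)
    have e : (fun k : ℕ => x ^ (a + b * k) * L x) = fun k => x ^ a * L x * (x ^ b) ^ k := by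
      funext k
      rw [pow_add, pow_mul]; ring
    rw [e, div_eq_mul_inv]
    exact h2
  simp only
  rw [← h1.tsum_eq, ENNReal.ofReal_tsum_of_nonneg (fun k => by positivity) h1.summable]

lemma hasSum_two : HasSum (fun n : ℕ => 1 / ((n : ℝ) + 1) ^ 2) (Real.pi ^ 2 / 6) := by
  have h := (hasSum_nat_add_iff' 1).2 hasSum_zeta_two
  simpa using h

lemma hasSum_three : HasSum (fun n : ℕ => 1 / ((n : ℝ) + 1) ^ 3) Z3 := by
  have h1 : Summable (fun n : ℕ => 1 / (n : ℝ) ^ 3) := Real.summable_one_div_nat_pow.2 (by norm_num)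
  have h2 := (summable_nat_add_iff 1).2 h1
  have h3 : Summable (fun n : ℕ => 1 / ((n : ℝ) + 1) ^ 3) := by
    refine h2.congr (fun n => ?_)
    push_cast
    rfl
  exact h3.hasSum

lemma Z3_pos : 0 < Z3 := hasSum_three.summable.tsum_pos (fun n => by positivity) 0 (by norm_num)

lemma hasSum_three_odd : HasSum (fun k : ℕ => 1 / (2 * (k : ℝ) + 1) ^ 3) (7 / 8 * Z3) := by
  have h1 : HasSum (fun k : ℕ => 1 / (2 * (k : ℝ) + 2) ^ 3) (1 / 8 * Z3) := by
    have h := hasSum_three.mul_left (1 / 8)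
    have e : (fun k : ℕ => 1 / (2 * (k : ℝ) + 2) ^ 3) =
        fun k : ℕ => 1 / 8 * (1 / ((k : ℝ) + 1) ^ 3) := by
      funext k
      have : (k : ℝ) + 1 ≠ 0 := by positivity
      rw [show 2 * (k : ℝ) + 2 = 2 * ((k : ℝ) + 1) by ring, mul_pow]
      field_simp
      norm_num
    rw [e]
    exact h
  have h2 : Summable (fun k : ℕ => 1 / (2 * (k : ℝ) + 1) ^ 3) := by
    have h3 := hasSum_three.summable.comp_injective
      (fun a b (hab : 2 * a = 2 * b) => by omega : Function.Injective (fun k : ℕ => 2 * k))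
    refine h3.congr (fun k => ?_)
    simp only [Function.comp_apply]
    push_cast
    rfl
  have h3 : HasSum (fun n : ℕ => 1 / ((n : ℝ) + 1) ^ 3)
      ((∑' k : ℕ, 1 / (2 * (k : ℝ) + 1) ^ 3) + 1 / 8 * Z3) := by
    apply HasSum.even_add_odd (f := fun n : ℕ => 1 / ((n : ℝ) + 1) ^ 3)
    · have e : (fun k : ℕ => 1 / (((2 * k : ℕ) : ℝ) + 1) ^ 3) =
          fun k : ℕ => 1 / (2 * (k : ℝ) + 1) ^ 3 := by
        funext k; push_cast; rfl
      rw [e]
      exact h2.hasSum
    · have e : (fun k : ℕ => 1 / (((2 * k + 1 : ℕ) : ℝ) + 1) ^ 3) =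
          fun k : ℕ => 1 / (2 * (k : ℝ) + 2) ^ 3 := by
        funext k
        push_cast
        rw [show 2 * (k : ℝ) + 1 + 1 = 2 * (k : ℝ) + 2 by ring]
      rw [e]
      exact h1
  have h4 := h3.unique hasSum_three
  have h5 : (∑' k : ℕ, 1 / (2 * (k : ℝ) + 1) ^ 3) = 7 / 8 * Z3 := by linarith
  rw [← h5]
  exact h2.hasSum

lemma tsum_ofReal {f : ℕ → ℝ} {s : ℝ} (h : HasSum f s) (h0 : ∀ n, 0 ≤ f n) :
    ∑' n, ENNReal.ofReal (f n) = ENNReal.ofReal s := by
  rw [← h.tsum_eq, ENNReal.ofReal_tsum_of_nonneg h0 h.summable]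

lemma J1 : ∫⁻ x in Ioo (0 : ℝ) 1, ENNReal.ofReal (-Real.log x / (1 - x)) =
    ENNReal.ofReal (Real.pi ^ 2 / 6) := by
  have h := series 0 1 one_pos (fun x => -Real.log x) (by fun_prop) (fun x hx => by
    have := Real.log_nonpos hx.1.le hx.2.le
    linarith)
  simp only [pow_zero, one_mul, pow_one, zero_add] at h
  rw [h, tsum_congr mom1, tsum_ofReal hasSum_two (fun n => by positivity)]

lemma J2 : ∫⁻ x in Ioo (0 : ℝ) 1, ENNReal.ofReal (Real.log x ^ 2 / (1 - x)) =
    ENNReal.ofReal (2 * Z3) := by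
  have h := series 0 1 one_pos (fun x => Real.log x ^ 2) (by fun_prop) (fun x hx => by positivity)
  simp only [pow_zero, one_mul, pow_one, zero_add] at h
  rw [h, tsum_congr mom2, tsum_ofReal (s := 2 * Z3) ?_ (fun n => by positivity)]
  have := hasSum_three.mul_left 2
  have e : (fun n : ℕ => 2 / ((n : ℝ) + 1) ^ 3) = fun n : ℕ => 2 * (1 / ((n : ℝ) + 1) ^ 3) := by
    funext n; ring
  rw [e]
  exact this

lemma J3 : ∫⁻ x in Ioo (0 : ℝ) 1, ENNReal.ofReal (x * (2 * -Real.log x) / (1 - x ^ 2)) =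
    ENNReal.ofReal (Real.pi ^ 2 / 12) := by
  have h := series 1 2 two_pos (fun x => 2 * -Real.log x) (by fun_prop) (fun x hx => by
    have := Real.log_nonpos hx.1.le hx.2.le
    linarith)
  simp only [pow_one] at h
  have h2 : ∀ k : ℕ, ∫⁻ x in Ioo (0 : ℝ) 1, ENNReal.ofReal (x ^ (1 + 2 * k) * (2 * -Real.log x)) =
      ENNReal.ofReal (1 / 2 * (1 / ((k : ℝ) + 1) ^ 2)) := by
    intro k
    have e : ∀ x : ℝ, ENNReal.ofReal (x ^ (1 + 2 * k) * (2 * -Real.log x)) =
        ENNReal.ofReal 2 * ENNReal.ofReal (x ^ (1 + 2 * k) * -Real.log x) := by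
      intro x
      rw [← ENNReal.ofReal_mul (by norm_num)]
      congr 1
      ring
    rw [lintegral_congr e, lintegral_const_mul _ (by fun_prop), mom1,
      ← ENNReal.ofReal_mul (by norm_num)]
    congr 1
    push_cast
    have : (k : ℝ) + 1 ≠ 0 := by positivity
    rw [show (1 : ℝ) + 2 * k + 1 = 2 * ((k : ℝ) + 1) by ring]
    field_simp
    try norm_num
  rw [h, tsum_congr h2, tsum_ofReal (hasSum_two.mul_left (1 / 2)) (fun n => by positivity)]
  congr 1
  ring

lemma J4 : ∫⁻ x in Ioo (0 : ℝ) 1, ENNReal.ofReal (Real.log x ^ 2 / (1 - x ^ 2)) =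
    ENNReal.ofReal (7 / 4 * Z3) := by
  have h := series 0 2 two_pos (fun x => Real.log x ^ 2) (by fun_prop) (fun x hx => by positivity)
  simp only [pow_zero, one_mul, zero_add] at h
  rw [h, tsum_congr (fun k : ℕ => mom2 (2 * k)), tsum_ofReal (s := 7 / 4 * Z3) ?_
    (fun n => by positivity)]
  have := hasSum_three_odd.mul_left 2
  have e : (fun k : ℕ => 2 / (((2 * k : ℕ) : ℝ) + 1) ^ 3) =
      fun k : ℕ => 2 * (1 / (2 * (k : ℝ) + 1) ^ 3) := by
    funext k; push_cast; ring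
  rw [e]
  have e2 : 7 / 4 * Z3 = 2 * (7 / 8 * Z3) := by ring
  rw [e2]
  exact this

lemma K1 : ∫⁻ x in Ioo (0 : ℝ) 1, ENNReal.ofReal (-Real.log x / (1 + x)) =
    ENNReal.ofReal (Real.pi ^ 2 / 12) := by
  have h1 : (∫⁻ x in Ioo (0 : ℝ) 1, ENNReal.ofReal (-Real.log x / (1 + x))) +
      ∫⁻ x in Ioo (0 : ℝ) 1, ENNReal.ofReal (x * (2 * -Real.log x) / (1 - x ^ 2)) =
      ∫⁻ x in Ioo (0 : ℝ) 1, ENNReal.ofReal (-Real.log x / (1 - x)) := by
    rw [← lintegral_add_left (by fun_prop)]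
    apply setLIntegral_congr_fun measurableSet_Ioo
    intro x hx
    have hl : 0 ≤ -Real.log x := by
      have := Real.log_nonpos hx.1.le hx.2.le
      linarith
    have h2 : 0 < 1 - x := by linarith [hx.2]
    have h3 : 0 < 1 + x := by linarith [hx.1]
    have h4 : 1 - x ^ 2 = (1 - x) * (1 + x) := by ring
    simp only
    rw [h4, ← ENNReal.ofReal_add (by positivity) (by
      have := hx.1
      positivity)]
    congr 1
    field_simp
    ring
  rw [J1, J3] at h1
  have h2 : ENNReal.ofReal (Real.pi ^ 2 / 6) = ENNReal.ofReal (Real.pi ^ 2 / 12) +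
      ENNReal.ofReal (Real.pi ^ 2 / 12) := by
    rw [← ENNReal.ofReal_add (by positivity) (by positivity)]
    congr 1
    ring
  rw [h2] at h1
  exact (ENNReal.add_left_inj ENNReal.ofReal_ne_top).1 h1

/-- the three substitutions -/
lemma E1 : ∫⁻ x in Ioo (0 : ℝ) 1, ENNReal.ofReal (Real.log (1 - x) ^ 2 / x) =
    ENNReal.ofReal (2 * Z3) := by
  rw [← J2]
  have e : (fun x : ℝ => 1 - x) '' Ioo (0 : ℝ) 1 = Ioo 0 1 := by
    ext x
    simp only [mem_image, mem_Ioo]
    constructor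
    · rintro ⟨y, ⟨h1, h2⟩, rfl⟩
      constructor <;> linarith
    · rintro ⟨h1, h2⟩
      exact ⟨1 - x, ⟨by linarith, by linarith⟩, by ring⟩
  conv_rhs => rw [← e]
  rw [lintegral_image_eq_lintegral_abs_deriv_mul (f' := fun _ => -1)
      measurableSet_Ioo (fun x _ => ((hasDerivAt_id' x).const_sub 1).hasDerivWithinAt)
      (fun a _ b _ hab => by
        have hab' : 1 - a = 1 - b := hab
        linarith)]
  apply setLIntegral_congr_fun measurableSet_Ioo
  intro x _
  simp only [abs_neg, abs_one, ENNReal.ofReal_one, one_mul, sub_sub_cancel]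

lemma E2 : ∫⁻ x in Ioo (0 : ℝ) 1, ENNReal.ofReal (Real.log (1 - x ^ 2) ^ 2 / x) =
    ENNReal.ofReal Z3 := by
  have h1 : ∫⁻ x in Ioo (0 : ℝ) 1, ENNReal.ofReal (Real.log x ^ 2 / (1 - x) / 2) =
      ENNReal.ofReal Z3 := by
    have e : ∀ x : ℝ, ENNReal.ofReal (Real.log x ^ 2 / (1 - x) / 2) =
        ENNReal.ofReal (1 / 2) * ENNReal.ofReal (Real.log x ^ 2 / (1 - x)) := by
      intro x
      rw [← ENNReal.ofReal_mul (by norm_num)]
      congr 1
      ring
    rw [lintegral_congr e, lintegral_const_mul _ (by fun_prop), J2,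
      ← ENNReal.ofReal_mul (by norm_num)]
    congr 1
    ring
  rw [← h1]
  have e : (fun x : ℝ => 1 - x ^ 2) '' Ioo (0 : ℝ) 1 = Ioo 0 1 := by
    ext x
    simp only [mem_image, mem_Ioo]
    constructor
    · rintro ⟨y, ⟨h1, h2⟩, rfl⟩
      constructor <;> nlinarith
    · rintro ⟨h1, h2⟩
      refine ⟨√(1 - x), ⟨Real.sqrt_pos.2 (by linarith), ?_⟩, ?_⟩
      · rw [Real.sqrt_lt' one_pos]; linarith
      · rw [Real.sq_sqrt (by linarith)]; ring
  conv_rhs => rw [← e]
  rw [lintegral_image_eq_lintegral_abs_deriv_mul (f' := fun x => -(2 * x))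
      measurableSet_Ioo (fun x _ => by
        have := ((hasDerivAt_pow 2 x).const_sub 1).hasDerivWithinAt (s := Ioo (0 : ℝ) 1)
        refine this.congr_deriv ?_
        norm_num)
      (fun a ha b hb hab => by
        have hab' : 1 - a ^ 2 = 1 - b ^ 2 := hab
        have h2 : a ^ 2 = b ^ 2 := by linarith
        exact (pow_left_inj₀ ha.1.le hb.1.le two_ne_zero).1 h2)]
  apply setLIntegral_congr_fun measurableSet_Ioo
  intro x hx
  have hx0 := hx.1
  simp only
  rw [← ENNReal.ofReal_mul (abs_nonneg _), abs_neg, abs_of_pos (by linarith)]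
  congr 1
  rw [sub_sub_cancel]
  field_simp

lemma E3 : ∫⁻ x in Ioo (0 : ℝ) 1, ENNReal.ofReal (Real.log ((1 - x) / (1 + x)) ^ 2 / x) =
    ENNReal.ofReal (7 / 2 * Z3) := by
  have h1 : ∫⁻ x in Ioo (0 : ℝ) 1, ENNReal.ofReal (2 * (Real.log x ^ 2 / (1 - x ^ 2))) =
      ENNReal.ofReal (7 / 2 * Z3) := by
    have e : ∀ x : ℝ, ENNReal.ofReal (2 * (Real.log x ^ 2 / (1 - x ^ 2))) =
        ENNReal.ofReal 2 * ENNReal.ofReal (Real.log x ^ 2 / (1 - x ^ 2)) := by
      intro x
      rw [← ENNReal.ofReal_mul (by norm_num)]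
    rw [lintegral_congr e, lintegral_const_mul _ (by fun_prop), J4,
      ← ENNReal.ofReal_mul (by norm_num)]
    congr 1
    ring
  rw [← h1]
  have e : (fun x : ℝ => (1 - x) / (1 + x)) '' Ioo (0 : ℝ) 1 = Ioo 0 1 := by
    ext x
    simp only [mem_image, mem_Ioo]
    constructor
    · rintro ⟨y, ⟨h1, h2⟩, rfl⟩
      constructor
      · apply div_pos <;> linarith
      · rw [div_lt_one (by linarith)]; linarith
    · rintro ⟨h1, h2⟩
      refine ⟨(1 - x) / (1 + x), ⟨div_pos (by linarith) (by linarith), ?_⟩, ?_⟩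
      · rw [div_lt_one (by linarith)]; linarith
      · have : 1 + x ≠ 0 := by linarith
        field_simp
        ring
  conv_rhs => rw [← e]
  rw [lintegral_image_eq_lintegral_abs_deriv_mul (f' := fun x => -(2 / (1 + x) ^ 2))
      measurableSet_Ioo (fun x hx => by
        have h0 : 1 + x ≠ 0 := by linarith [hx.1]
        have := (((hasDerivAt_id' x).const_sub 1).div ((hasDerivAt_id' x).const_add 1)
          h0).hasDerivWithinAt (s := Ioo (0 : ℝ) 1)
        refine this.congr_deriv ?_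
        field_simp
        ring)
      (fun a ha b hb hab => by
        have hab' : (1 - a) / (1 + a) = (1 - b) / (1 + b) := hab
        have h2 : 1 + a ≠ 0 := by linarith [ha.1]
        have h3 : 1 + b ≠ 0 := by linarith [hb.1]
        rw [div_eq_div_iff h2 h3] at hab'
        linarith)]
  apply setLIntegral_congr_fun measurableSet_Ioo
  intro x hx
  have hx0 := hx.1
  have hx1 : 0 < 1 + x := by linarith
  simp only
  rw [← ENNReal.ofReal_mul (abs_nonneg _), abs_neg, abs_of_pos (by positivity)]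
  congr 1
  have e2 : 1 - ((1 - x) / (1 + x)) ^ 2 = 4 * x / (1 + x) ^ 2 := by
    field_simp
    ring
  rw [e2]
  field_simp
  ring

lemma K2 : ∫⁻ x in Ioo (0 : ℝ) 1, ENNReal.ofReal (Real.log (1 + x) ^ 2 / x) =
    ENNReal.ofReal (Z3 / 4) := by
  have hZ := Z3_pos
  have h1 : (∫⁻ x in Ioo (0 : ℝ) 1, ENNReal.ofReal (Real.log (1 - x ^ 2) ^ 2 / x)) +
      ∫⁻ x in Ioo (0 : ℝ) 1, ENNReal.ofReal (Real.log ((1 - x) / (1 + x)) ^ 2 / x) =
      2 * (∫⁻ x in Ioo (0 : ℝ) 1, ENNReal.ofReal (Real.log (1 - x) ^ 2 / x)) +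
      2 * ∫⁻ x in Ioo (0 : ℝ) 1, ENNReal.ofReal (Real.log (1 + x) ^ 2 / x) := by
    rw [← lintegral_add_left (by fun_prop), ← lintegral_const_mul _ (by fun_prop),
      ← lintegral_const_mul _ (by fun_prop), ← lintegral_add_left (by fun_prop)]
    apply setLIntegral_congr_fun measurableSet_Ioo
    intro x hx
    have hx0 := hx.1
    have h2 : 0 < 1 - x := by linarith [hx.2]
    have h3 : 0 < 1 + x := by linarith
    have h4 : 1 - x ^ 2 = (1 - x) * (1 + x) := by ring
    simp only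
    rw [h4, Real.log_mul h2.ne' h3.ne', Real.log_div h2.ne' h3.ne',
      ← ENNReal.ofReal_add (by positivity) (by positivity)]
    rw [show (2 : ENNReal) = ENNReal.ofReal 2 by norm_num,
      ← ENNReal.ofReal_mul (by norm_num), ← ENNReal.ofReal_mul (by norm_num),
      ← ENNReal.ofReal_add (by positivity) (by positivity)]
    congr 1
    field_simp
    ring
  rw [E1, E2, E3] at h1
  have h2 : ENNReal.ofReal Z3 + ENNReal.ofReal (7 / 2 * Z3) =
      2 * ENNReal.ofReal (2 * Z3) + 2 * ENNReal.ofReal (Z3 / 4) := by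
    rw [show (2 : ENNReal) = ENNReal.ofReal 2 by norm_num,
      ← ENNReal.ofReal_mul (by norm_num), ← ENNReal.ofReal_mul (by norm_num),
      ← ENNReal.ofReal_add (by positivity) (by positivity),
      ← ENNReal.ofReal_add (by positivity) (by positivity)]
    congr 1
    ring
  rw [h2] at h1
  have h3 : (2 : ENNReal) * ENNReal.ofReal (2 * Z3) ≠ ⊤ :=
    ENNReal.mul_ne_top (by norm_num) ENNReal.ofReal_ne_top
  have h4 := (ENNReal.add_right_inj h3).1 h1
  exact ((ENNReal.mul_right_inj (by norm_num) (by norm_num)).1 h4).symm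

end Pool.Agent.Helper94.NA
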