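import Mathlib
import Pool.Agent.Helper94.NA.Box

/-! # From boxes to open sets -/

set_option autoImplicit false

noncomputable section

open Finset Filter Topology MeasureTheory

namespace Pool.Agent.Helper94.NA

/-- dyadic box -/
def dy (k : ℕ) (j : ℤ × ℤ × ℤ) : Set (ℝ × ℝ × ℝ) :=
  {p | ⌊2 ^ k * p.1⌋ = j.1 ∧ ⌊2 ^ k * p.2.1⌋ = j.2.1 ∧ ⌊2 ^ k * p.2.2⌋ = j.2.2}

lemma floor_iff (k : ℕ) (x : ℝ) (j : ℤ) : ⌊(2 : ℝ) ^ k * x⌋ = j ↔
    (j : ℝ) / 2 ^ k ≤ x ∧ x < ((j : ℝ) + 1) / 2 ^ k := by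
  have h : (0 : ℝ) < 2 ^ k := by positivity
  rw [Int.floor_eq_iff, div_le_iff₀ h, lt_div_iff₀ h, mul_comm x]

lemma dy_eq_prod (k : ℕ) (j : ℤ × ℤ × ℤ) : dy k j =
    Set.Ico ((j.1 : ℝ) / 2 ^ k) (((j.1 : ℝ) + 1) / 2 ^ k) ×ˢ
      (Set.Ico ((j.2.1 : ℝ) / 2 ^ k) (((j.2.1 : ℝ) + 1) / 2 ^ k) ×ˢ
      Set.Ico ((j.2.2 : ℝ) / 2 ^ k) (((j.2.2 : ℝ) + 1) / 2 ^ k)) := by
  ext p
  unfold dy
  simp only [Set.mem_ofPred_eq, Set.mem_prod, Set.mem_Ico, floor_iff]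

lemma dy_volume (k : ℕ) (j : ℤ × ℤ × ℤ) :
    volume (dy k j) = ENNReal.ofReal ((1 / 2 ^ k) ^ 3) := by
  rw [dy_eq_prod, Measure.volume_eq_prod, Measure.prod_prod, Measure.volume_eq_prod,
    Measure.prod_prod, Real.volume_Ico, Real.volume_Ico, Real.volume_Ico]
  have h : (0 : ℝ) ≤ 1 / 2 ^ k := by positivity
  have e : ∀ x : ℝ, (x + 1) / 2 ^ k - x / 2 ^ k = 1 / 2 ^ k := fun x => by ring
  rw [e, e, e, ← ENNReal.ofReal_mul h, ← ENNReal.ofReal_mul h]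
  congr 1
  ring

lemma dy_measurable (k : ℕ) (j : ℤ × ℤ × ℤ) : MeasurableSet (dy k j) := by
  rw [dy_eq_prod]
  exact measurableSet_Ico.prod (measurableSet_Ico.prod measurableSet_Ico)

/-- the relevant indices -/
def idx (k : ℕ) : Finset (ℤ × ℤ × ℤ) :=
  (Finset.Icc (-4 ^ k) (4 ^ k)) ×ˢ ((Finset.Ico 0 (2 ^ k)) ×ˢ (Finset.Icc 0 (4 ^ k)))

lemma dy_boxq (k : ℕ) (j : ℤ × ℤ × ℤ) : dy k j =
    boxq (j.1 / 2 ^ k) ((j.1 : ℝ) / 2 ^ k - ((j.1 / 2 ^ k : ℤ) : ℝ))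
      (((j.1 : ℝ) + 1) / 2 ^ k - ((j.1 / 2 ^ k : ℤ) : ℝ))
      ((j.2.1 : ℝ) / 2 ^ k) (((j.2.1 : ℝ) + 1) / 2 ^ k)
      ((j.2.2 : ℝ) / 2 ^ k) (((j.2.2 : ℝ) + 1) / 2 ^ k) := by
  rw [dy_eq_prod]
  ext p
  unfold boxq
  simp only [Set.mem_ofPred_eq, Set.mem_prod, Set.mem_Ico, add_sub_cancel]

lemma dy_tendsto (N : ℕ) (hN : 2 ≤ N) (k : ℕ) (j : ℤ × ℤ × ℤ) (hj : j ∈ idx k) :
    Tendsto (fun m => (W N m (dy k j) : ℝ) / (N : ℝ) ^ (m + 1)) atTop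
      (𝓝 (rho N / 2 * (1 / 2 ^ k) ^ 3)) := by
  unfold idx at hj
  rw [mem_product, mem_product, mem_Ico, mem_Icc, mem_Icc] at hj
  obtain ⟨_, ⟨h3, h4⟩, h5, _⟩ := hj
  have h : (0 : ℝ) < 2 ^ k := by positivity
  have hz : (0 : ℤ) < 2 ^ k := by positivity
  rw [dy_boxq]
  have d1 : j.1 / 2 ^ k * 2 ^ k ≤ j.1 := Int.ediv_mul_le _ hz.ne'
  have d2 : j.1 < (j.1 / 2 ^ k + 1) * 2 ^ k := Int.lt_ediv_add_one_mul_self _ hz
  have d1' : ((j.1 / 2 ^ k : ℤ) : ℝ) * 2 ^ k ≤ j.1 := by exact_mod_cast d1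
  have d2' : (j.1 : ℝ) + 1 ≤ (((j.1 / 2 ^ k : ℤ) : ℝ) + 1) * 2 ^ k := by
    exact_mod_cast d2
  have := boxq_tendsto N hN (j.1 / 2 ^ k) ((j.1 : ℝ) / 2 ^ k - ((j.1 / 2 ^ k : ℤ) : ℝ))
      (((j.1 : ℝ) + 1) / 2 ^ k - ((j.1 / 2 ^ k : ℤ) : ℝ))
      ((j.2.1 : ℝ) / 2 ^ k) (((j.2.1 : ℝ) + 1) / 2 ^ k)
      ((j.2.2 : ℝ) / 2 ^ k) (((j.2.2 : ℝ) + 1) / 2 ^ k) ?_ ?_ ?_ ?_ ?_ ?_ ?_ ?_
  · have e : rho N / 2 * ((((j.1 : ℝ) + 1) / 2 ^ k - ((j.1 / 2 ^ k : ℤ) : ℝ) -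
        ((j.1 : ℝ) / 2 ^ k - ((j.1 / 2 ^ k : ℤ) : ℝ))) *
        (((j.2.1 : ℝ) + 1) / 2 ^ k - (j.2.1 : ℝ) / 2 ^ k) *
        (((j.2.2 : ℝ) + 1) / 2 ^ k - (j.2.2 : ℝ) / 2 ^ k)) = rho N / 2 * (1 / 2 ^ k) ^ 3 := by
      ring
    rw [e] at this
    exact this
  · rw [sub_nonneg, le_div_iff₀ h]; exact d1'
  · gcongr; linarith
  · rw [sub_le_iff_le_add, div_le_iff₀ h, add_comm (1 : ℝ)]; exact d2'
  · have : (0 : ℝ) ≤ j.2.1 := by exact_mod_cast h3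
    positivity
  · gcongr; linarith
  · rw [div_le_one h]; exact_mod_cast h4
  · have : (0 : ℝ) ≤ j.2.2 := by exact_mod_cast h5
    positivity
  · gcongr; linarith

lemma dy_disjoint (k : ℕ) {j j' : ℤ × ℤ × ℤ} (h : j ≠ j') : Disjoint (dy k j) (dy k j') := by
  rw [Set.disjoint_left]
  rintro p ⟨h1, h2, h3⟩ ⟨h1', h2', h3'⟩
  apply h
  apply Prod.ext
  · rw [← h1, ← h1']
  · apply Prod.ext
    · rw [← h2, ← h2']
    · rw [← h3, ← h3']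

/-- finite unions of boxes inside a set -/
lemma sum_W_le (N m : ℕ) (U : Set (ℝ × ℝ × ℝ)) (hfin : {v : ℤ × ℕ | v ∈ VV N ∧ pt N m v ∈ U}.Finite)
    (k : ℕ) (s : Finset (ℤ × ℤ × ℤ)) (hs : ∀ j ∈ s, dy k j ⊆ U) :
    ∑ j ∈ s, W N m (dy k j) ≤ W N m U := by
  classical
  have hf : ∀ j ∈ s, {v : ℤ × ℕ | v ∈ VV N ∧ pt N m v ∈ dy k j}.Finite := fun j hj =>
    hfin.subset (fun v hv => ⟨hv.1, hs j hj hv.2⟩)
  have h1 : ∑ j ∈ s, W N m (dy k j) =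
      ∑ j ∈ s.attach, ((hf j.1 j.2).toFinset).card := by
    rw [← Finset.sum_attach]
    apply Finset.sum_congr rfl
    intro j _
    unfold W
    rw [Set.ncard_eq_toFinset_card _ (hf j.1 j.2)]
  rw [h1, ← Finset.card_biUnion]
  · unfold W
    rw [Set.ncard_eq_toFinset_card _ hfin]
    apply Finset.card_le_card
    intro v hv
    rw [mem_biUnion] at hv
    obtain ⟨j, _, hj⟩ := hv
    rw [Set.Finite.mem_toFinset] at hj ⊢
    exact ⟨hj.1, hs j.1 j.2 hj.2⟩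
  · intro j _ j' _ hjj
    have hjj' : j.1 ≠ j'.1 := fun h => hjj (Subtype.ext h)
    rw [Function.onFun, Finset.disjoint_left]
    intro v hv hv'
    rw [Set.Finite.mem_toFinset] at hv hv'
    exact Set.disjoint_left.1 (dy_disjoint k hjj') hv.2 hv'.2

/-- the lower bound for open sets -/
lemma open_lower (N : ℕ) (hN : 2 ≤ N) (U : Set (ℝ × ℝ × ℝ)) (hU : IsOpen U)
    (hU1 : ∀ p ∈ U, 0 ≤ p.2.1 ∧ p.2.1 < 1 ∧ 0 ≤ p.2.2)
    (hfin : ∀ m, {v : ℤ × ℕ | v ∈ VV N ∧ pt N m v ∈ U}.Finite) (hvol : volume U ≠ ⊤)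
    (ε : ℝ) (hε : 0 < ε) :
    ∀ᶠ m in atTop, rho N / 2 * (volume U).toReal - ε ≤
      (W N m U : ℝ) / (N : ℝ) ^ (m + 1) := by
  classical
  set ρ := rho N / 2 with hρ
  have hρ0 : 0 < ρ := by have := rho_pos N; positivity
  -- a compact set
  obtain ⟨K, hKU, hKc, hK⟩ : ∃ K ⊆ U, IsCompact K ∧
      (volume U).toReal - ε / (2 * ρ) ≤ (volume K).toReal := by
    rcases eq_or_ne (volume U) 0 with h0 | h0
    · refine ⟨∅, Set.empty_subset _, isCompact_empty, ?_⟩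
      rw [h0]; simp; positivity
    · have hlt : volume U - ENNReal.ofReal (ε / (2 * ρ)) < volume U :=
        ENNReal.sub_lt_self hvol h0 (ENNReal.ofReal_pos.2 (by positivity)).ne'
      obtain ⟨K, hKU, hKc, hK⟩ := hU.exists_lt_isCompact hlt
      refine ⟨K, hKU, hKc, ?_⟩
      have hKfin : volume K ≠ ⊤ := hKc.measure_lt_top.ne
      have h1 := tsub_le_iff_right.1 hK.le
      have h2 := ENNReal.toReal_mono (by finiteness) h1
      rw [ENNReal.toReal_add hKfin (by finiteness), ENNReal.toReal_ofReal (by positivity)] at h2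
      linarith
  obtain ⟨δ, hδ, hδU⟩ := hKc.exists_thickening_subset_open hU hKU
  obtain ⟨B, hB⟩ := hKc.isBounded.subset_closedBall (0 : ℝ × ℝ × ℝ)
  -- the level
  obtain ⟨k, hk1, hk2⟩ : ∃ k : ℕ, B + 1 ≤ 2 ^ k ∧ (1 : ℝ) / 2 ^ k < δ := by
    have h1 : Tendsto (fun k : ℕ => (2 : ℝ) ^ k) atTop atTop :=
      tendsto_pow_atTop_atTop_of_one_lt (by norm_num)
    obtain ⟨k, hk⟩ := ((h1.eventually_ge_atTop (B + 1)).and (h1.eventually_gt_atTop (1 / δ))).exists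
    refine ⟨k, hk.1, ?_⟩
    rw [div_lt_iff₀ (by positivity)]
    have := (div_lt_iff₀ hδ).1 hk.2
    linarith
  have h2k : (0 : ℝ) < 2 ^ k := by positivity
  set s := (idx k).filter (fun j => dy k j ⊆ U) with hs
  have hcover : K ⊆ ⋃ j ∈ s, dy k j := by
    intro p hp
    have hpU := hU1 p (hKU hp)
    have hpB : ‖p‖ ≤ B := by simpa using hB hp
    have hp1 : |p.1| ≤ B := (norm_fst_le p).trans hpB
    have hp2 : |p.2.2| ≤ B := ((norm_snd_le p.2).trans (norm_snd_le p)).trans hpB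
    have h4k : ((4 : ℝ)) ^ k = 2 ^ k * 2 ^ k := by rw [← mul_pow]; norm_num
    have hone : (1 : ℝ) ≤ 2 ^ k := one_le_pow₀ (by norm_num)
    rw [Set.mem_iUnion₂]
    refine ⟨(⌊2 ^ k * p.1⌋, ⌊2 ^ k * p.2.1⌋, ⌊2 ^ k * p.2.2⌋), ?_, rfl, rfl, rfl⟩
    rw [hs, mem_filter]
    constructor
    · unfold idx
      rw [mem_product, mem_product, mem_Icc, mem_Ico, mem_Icc]
      have a1 := abs_le.1 hp1
      have a2 := abs_le.1 hp2
      refine ⟨⟨?_, ?_⟩, ⟨?_, ?_⟩, ?_, ?_⟩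
      · rw [Int.le_floor]
        push_cast
        rw [h4k]
        nlinarith
      · have : (⌊(2 : ℝ) ^ k * p.1⌋ : ℝ) ≤ 4 ^ k := by
          refine (Int.floor_le _).trans ?_
          rw [h4k]
          apply mul_le_mul_of_nonneg_left _ h2k.le
          linarith
        exact_mod_cast this
      · exact Int.floor_nonneg.2 (mul_nonneg h2k.le hpU.1)
      · rw [Int.floor_lt]
        push_cast
        nlinarith [hpU.2.1]
      · exact Int.floor_nonneg.2 (mul_nonneg h2k.le hpU.2.2)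
      · have : (⌊(2 : ℝ) ^ k * p.2.2⌋ : ℝ) ≤ 4 ^ k := by
          refine (Int.floor_le _).trans ?_
          rw [h4k]
          apply mul_le_mul_of_nonneg_left _ h2k.le
          linarith
        exact_mod_cast this
    · intro p' hp'
      apply hδU
      rw [Metric.mem_thickening_iff]
      refine ⟨p, hp, ?_⟩
      have key : ∀ x y : ℝ, ⌊(2 : ℝ) ^ k * x⌋ = ⌊(2 : ℝ) ^ k * y⌋ → dist x y < δ := by
        intro x y hxy
        have h1 := Int.abs_sub_lt_one_of_floor_eq_floor hxy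
        rw [← mul_sub, abs_mul, abs_of_pos h2k] at h1
        rw [Real.dist_eq]
        have h3 : |x - y| < 1 / 2 ^ k := by
          rw [lt_div_iff₀ h2k]; linarith
        linarith
      obtain ⟨b1, b2, b3⟩ := hp'
      rw [Prod.dist_eq, Prod.dist_eq]
      exact max_lt (key _ _ b1) (max_lt (key _ _ b2) (key _ _ b3))
  have hvolK : (volume K).toReal ≤ ∑ j ∈ s, ((1 / 2 ^ k) ^ 3 : ℝ) := by
    have h1 : volume K ≤ ∑ j ∈ s, volume (dy k j) :=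
      (measure_mono hcover).trans (measure_biUnion_finset_le _ _)
    simp_rw [dy_volume] at h1
    rw [← ENNReal.ofReal_sum_of_nonneg (fun _ _ => by positivity)] at h1
    have h2 := ENNReal.toReal_mono ENNReal.ofReal_ne_top h1
    rwa [ENNReal.toReal_ofReal (Finset.sum_nonneg (fun _ _ => by positivity))] at h2
  have hlim : Tendsto (fun m => ∑ j ∈ s, (W N m (dy k j) : ℝ) / (N : ℝ) ^ (m + 1)) atTop
      (𝓝 (∑ j ∈ s, ρ * (1 / 2 ^ k) ^ 3)) :=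
    tendsto_finsetSum s (fun j hj => dy_tendsto N hN k j (mem_filter.1 hj).1)
  have hev := hlim.eventually (lt_mem_nhds (sub_lt_self _ (half_pos hε)))
  filter_upwards [hev] with m hm
  have h1 : ∑ j ∈ s, (W N m (dy k j) : ℝ) / (N : ℝ) ^ (m + 1) ≤
      (W N m U : ℝ) / (N : ℝ) ^ (m + 1) := by
    rw [← Finset.sum_div]
    gcongr
    have := sum_W_le N m U (hfin m) k s (fun j hj => (mem_filter.1 hj).2)
    exact_mod_cast this
  rw [← Finset.mul_sum] at hm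
  have h2 : ρ * ((volume U).toReal - ε / (2 * ρ)) ≤ ρ * ∑ j ∈ s, ((1 / 2 ^ k) ^ 3 : ℝ) :=
    mul_le_mul_of_nonneg_left (hK.trans hvolK) hρ0.le
  have h3 : ρ * ((volume U).toReal - ε / (2 * ρ)) = ρ * (volume U).toReal - ε / 2 := by
    field_simp
  linarith

end Pool.Agent.Helper94.NA
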