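import Mathlib
import Pool.Agent.Helper94.NA.Weak

/-! # The limit law -/

set_option autoImplicit false

noncomputable section

open Finset Filter Topology MeasureTheory

namespace Pool.Agent.Helper94.NA

open Pool.Agent.H25.Adic

lemma continuous_cmp (N : ℕ) (a b : ℤ) : Continuous (fun p : ℝ × ℝ × ℝ => cmp N p a b) := by
  unfold cmp
  fun_prop

lemma continuous_lhs : Continuous (fun p : ℝ × ℝ × ℝ => p.2.2 * max 1 |p.1|) := by
  fun_prop

lemma continuous_nrm2 : Continuous (fun p : ℝ × ℝ × ℝ => p.2.2 * max 1 (p.1 ^ 2)) := by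
  fun_prop

/-- only finitely many comparisons matter -/
lemma large_ok (N : ℕ) (B : ℝ) (hB : 1 ≤ B) (p : ℝ × ℝ × ℝ) (h1 : 0 < p.2.1) (h2 : p.2.1 < 1)
    (h3 : 0 < p.2.2) (h4 : p.2.2 < B) (h5 : |p.1| < B) (a b : ℤ)
    (h : cmp N p a b ≤ p.2.2 * max 1 |p.1|) :
    |(b : ℝ)| ≤ 2 * B ^ 3 ∧ |(a : ℝ)| ≤ B + 2 * B ^ 3 * N := by
  unfold cmp at h
  obtain ⟨k1, k2⟩ := max_le_iff.1 h
  set s := (a : ℝ) + b * N * p.2.1 with hs
  have hm : max 1 |p.1| ≤ B := max_le hB h5.le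
  have k3 : |s| ≤ B := (le_of_mul_le_mul_left k1 h3).trans hm
  have k4 : |p.2.2 * p.1 * s - b| ≤ B ^ 2 := by
    refine k2.trans ?_
    rw [pow_two]
    exact mul_le_mul h4.le hm (by positivity) (by linarith)
  have k5 : |p.2.2 * p.1 * s| ≤ B ^ 3 := by
    rw [abs_mul, abs_mul, abs_of_pos h3]
    calc p.2.2 * |p.1| * |s| ≤ B * B * B := by
          apply mul_le_mul (mul_le_mul h4.le h5.le (abs_nonneg _) (by linarith)) k3 (abs_nonneg _)
            (by positivity)
      _ = B ^ 3 := by ring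
  have k6 : |(b : ℝ)| ≤ 2 * B ^ 3 := by
    have : (b : ℝ) = p.2.2 * p.1 * s - (p.2.2 * p.1 * s - b) := by ring
    rw [this]
    refine (abs_sub _ _).trans ?_
    have : B ^ 2 ≤ B ^ 3 := pow_le_pow_right₀ hB (by norm_num)
    linarith
  refine ⟨k6, ?_⟩
  have : (a : ℝ) = s - b * N * p.2.1 := by rw [hs]; ring
  rw [this]
  refine (abs_sub _ _).trans ?_
  have : |(b : ℝ) * N * p.2.1| ≤ 2 * B ^ 3 * N := by
    rw [abs_mul, abs_mul, Nat.abs_cast, abs_of_pos h1]
    calc |(b : ℝ)| * N * p.2.1 ≤ |(b : ℝ)| * N * 1 := by gcongr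
      _ ≤ 2 * B ^ 3 * N * 1 := by gcongr
      _ = _ := by ring
  linarith

lemma isOpen_Elt (N : ℕ) (r : ℝ) : IsOpen (Elt N r) := by
  classical
  have heq : Elt N r = ⋃ B : ℕ, ({p : ℝ × ℝ × ℝ | 0 < p.2.1} ∩ {p | p.2.1 < 1} ∩ {p | 0 < p.2.2} ∩
      {p | p.2.2 * max 1 (p.1 ^ 2) < r ^ 2} ∩ {p | p.2.2 < B + 1} ∩ {p | |p.1| < B + 1}) ∩
      ⋂ x ∈ ((Finset.Icc (-(⌈((B : ℝ) + 1) + 2 * ((B : ℝ) + 1) ^ 3 * N⌉)) ⌈((B : ℝ) + 1) + 2 *
        ((B : ℝ) + 1) ^ 3 * N⌉ ×ˢ Finset.Icc (-(⌈2 * ((B : ℝ) + 1) ^ 3⌉)) ⌈2 *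
        ((B : ℝ) + 1) ^ 3⌉).filter (fun x : ℤ × ℤ => IsCoprime x.1 (x.2 * N) ∧ x.2 ≠ 0)),
        {p : ℝ × ℝ × ℝ | p.2.2 * max 1 |p.1| < cmp N p x.1 x.2} := by
    ext p
    rw [Set.mem_iUnion]
    constructor
    · rintro ⟨⟨h1, h2⟩, h3, h4, h5⟩
      obtain ⟨B, hB⟩ := exists_nat_gt (max p.2.2 |p.1|)
      refine ⟨B, ⟨⟨⟨⟨⟨h1, h2⟩, h3⟩, h4⟩, ?_⟩, ?_⟩, ?_⟩
      · have := (le_max_left p.2.2 |p.1|).trans hB.le
        change p.2.2 < (B : ℝ) + 1
        linarith
      · have := (le_max_right p.2.2 |p.1|).trans hB.le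
        change |p.1| < (B : ℝ) + 1
        linarith
      · rw [Set.mem_iInter₂]
        intro x hx
        rw [mem_filter] at hx
        exact h5 x.1 x.2 hx.2.1 hx.2.2
    · rintro ⟨B, ⟨⟨⟨⟨⟨h1, h2⟩, h3⟩, h4⟩, h6⟩, h7⟩, h5⟩
      refine ⟨⟨h1, h2⟩, h3, h4, ?_⟩
      intro a b hab hb
      by_contra hcon
      rw [not_lt] at hcon
      rw [Set.mem_iInter₂] at h5
      have hB1 : (1 : ℝ) ≤ (B : ℝ) + 1 := by
        have : (0 : ℝ) ≤ B := by positivity
        linarith
      obtain ⟨k1, k2⟩ := large_ok N ((B : ℝ) + 1) hB1 p h1 h2 h3 h6 h7 a b hcon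
      have hmem : (a, b) ∈ ((Finset.Icc (-(⌈((B : ℝ) + 1) + 2 * ((B : ℝ) + 1) ^ 3 * N⌉))
        ⌈((B : ℝ) + 1) + 2 * ((B : ℝ) + 1) ^ 3 * N⌉ ×ˢ Finset.Icc (-(⌈2 * ((B : ℝ) + 1) ^ 3⌉)) ⌈2 *
        ((B : ℝ) + 1) ^ 3⌉).filter (fun x : ℤ × ℤ => IsCoprime x.1 (x.2 * N) ∧ x.2 ≠ 0)) := by
        rw [mem_filter, mem_product, mem_Icc, mem_Icc]
        refine ⟨⟨?_, ?_⟩, hab, hb⟩
        · have c := Int.le_ceil (((B : ℝ) + 1) + 2 * ((B : ℝ) + 1) ^ 3 * N)
          have k3 := abs_le.1 (k2.trans c)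
          constructor
          · have := k3.1; exact_mod_cast this
          · have := k3.2; exact_mod_cast this
        · have c := Int.le_ceil (2 * ((B : ℝ) + 1) ^ 3)
          have k3 := abs_le.1 (k1.trans c)
          constructor
          · have := k3.1; exact_mod_cast this
          · have := k3.2; exact_mod_cast this
      have := h5 (a, b) hmem
      exact absurd this (not_lt.2 hcon)
  rw [heq]
  apply isOpen_iUnion
  intro B
  apply IsOpen.inter
  · refine IsOpen.inter (IsOpen.inter (IsOpen.inter (IsOpen.inter (IsOpen.inter ?_ ?_) ?_) ?_) ?_) ?_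
    · exact isOpen_lt continuous_const (by fun_prop)
    · exact isOpen_lt (by fun_prop) continuous_const
    · exact isOpen_lt continuous_const (by fun_prop)
    · exact isOpen_lt continuous_nrm2 continuous_const
    · exact isOpen_lt (by fun_prop) continuous_const
    · exact isOpen_lt (by fun_prop) continuous_const
  · apply isOpen_biInter_finset
    intro x _
    exact isOpen_lt continuous_lhs (continuous_cmp N x.1 x.2)

/-! ### ties -/

lemma null_of_slices (S : Set (ℝ × ℝ × ℝ)) (hS : MeasurableSet S) (T : ℝ → Set ℝ)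
    (hT : ∀ y, (T y).Countable) (h : ∀ y t, t ∉ T y → {q : ℝ | (y, t, q) ∈ S}.Countable) :
    volume S = 0 := by
  rw [Measure.volume_eq_prod, Measure.measure_prod_null hS]
  apply Filter.Eventually.of_forall
  intro y
  have hm : MeasurableSet (Prod.mk y ⁻¹' S) := measurable_prodMk_left hS
  change volume (Prod.mk y ⁻¹' S) = 0
  rw [Measure.volume_eq_prod, Measure.measure_prod_null hm]
  filter_upwards [(hT y).ae_notMem volume] with t ht
  exact (h y t ht).measure_zero volume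

lemma null_t : volume {p : ℝ × ℝ × ℝ | p.2.1 = 0} = 0 := by
  apply null_of_slices _ (measurableSet_eq_fun (by fun_prop) (by fun_prop)) (fun _ => {0})
    (fun _ => Set.countable_singleton 0)
  intro y t ht
  have : {q : ℝ | (y, t, q) ∈ {p : ℝ × ℝ × ℝ | p.2.1 = 0}} = ∅ := by
    ext q
    constructor
    · intro hq
      exact absurd hq ht
    · intro hq
      exact absurd hq (Set.notMem_empty _)
  rw [this]
  exact Set.countable_empty

lemma null_r (r : ℝ) : volume {p : ℝ × ℝ × ℝ | p.2.2 * max 1 (p.1 ^ 2) = r ^ 2} = 0 := by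
  apply null_of_slices _ (measurableSet_eq_fun (by fun_prop) (by fun_prop)) (fun _ => ∅)
    (fun _ => Set.countable_empty)
  intro y t _
  apply (Set.countable_singleton (r ^ 2 / max 1 (y ^ 2))).mono
  intro q hq
  have hpos : (0 : ℝ) < max 1 (y ^ 2) := lt_of_lt_of_le one_pos (le_max_left _ _)
  have h1 : q * max 1 (y ^ 2) = r ^ 2 := hq
  rw [Set.mem_singleton_iff, eq_div_iff hpos.ne']
  exact h1

lemma null_tie (N : ℕ) (hN : 0 < N) (a b : ℤ) (hb : b ≠ 0) :
    volume {p : ℝ × ℝ × ℝ | 0 < p.2.2 ∧ p.2.2 * max 1 |p.1| = cmp N p a b} = 0 := by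
  have hbR : (b : ℝ) ≠ 0 := by exact_mod_cast hb
  have hNR : (N : ℝ) ≠ 0 := by positivity
  apply null_of_slices _ _ (fun y => {((max 1 |y|) - a) / (b * N), (-(max 1 |y|) - a) / (b * N)})
    (fun _ => (Set.toFinite _).countable)
  · intro y t ht
    set m := max 1 |y| with hm
    set s := (a : ℝ) + b * N * t with hs
    have hsm : |s| ≠ m := by
      intro h
      apply ht
      rcases (abs_eq (by positivity)).1 h with h1 | h1
      · left
        rw [eq_div_iff (mul_ne_zero hbR hNR)]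
        linarith
      · right
        rw [Set.mem_singleton_iff, eq_div_iff (mul_ne_zero hbR hNR)]
        linarith
    apply (Set.toFinite {(b : ℝ) / (y * s - m), (b : ℝ) / (y * s + m)}).countable.mono
    rintro q ⟨hq0, hq⟩
    have hq0' : 0 < q := hq0
    have hq' : q * m = max (q * |s|) |q * y * s - b| := hq
    have h2 : |q * y * s - b| = q * m := by
      rcases le_total (q * |s|) |q * y * s - b| with h3 | h3
      · rw [max_eq_right h3] at hq'; exact hq'.symm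
      · exfalso
        rw [max_eq_left h3] at hq'
        exact hsm (mul_left_cancel₀ hq0'.ne' hq').symm
    rcases (abs_eq (by positivity)).1 h2 with h3 | h3
    · left
      have h4 : q * (y * s - m) = b := by linarith
      have h5 : y * s - m ≠ 0 := by
        intro h0
        rw [h0, mul_zero] at h4
        exact hbR h4.symm
      rw [eq_div_iff h5]
      exact h4
    · right
      have h4 : q * (y * s + m) = b := by linarith
      have h5 : y * s + m ≠ 0 := by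
        intro h0
        rw [h0, mul_zero] at h4
        exact hbR h4.symm
      rw [Set.mem_singleton_iff, eq_div_iff h5]
      exact h4
  · apply MeasurableSet.inter
    · exact (isOpen_lt continuous_const (by fun_prop :
        Continuous fun p : ℝ × ℝ × ℝ => p.2.2)).measurableSet
    · exact measurableSet_eq_fun continuous_lhs.measurable (continuous_cmp N a b).measurable

lemma Elt_subset_Ele (N : ℕ) (r : ℝ) : Elt N r ⊆ Ele N r := by
  rintro p ⟨⟨h1, h2⟩, h3, h4, h5⟩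
  refine ⟨⟨h1.le, h2⟩, h3, h4.le, ?_⟩
  intro a b hab
  rcases eq_or_ne b 0 with rfl | hb
  · rw [zero_mul, isCoprime_zero_right, Int.isUnit_iff] at hab
    unfold cmp
    have ha : |(a : ℝ)| = 1 := by
      rcases hab with rfl | rfl <;> simp
    have e1 : (a : ℝ) + ((0 : ℤ) : ℝ) * N * p.2.1 = a := by push_cast; ring
    rw [e1, ha, Int.cast_zero, sub_zero, abs_mul, abs_mul, ha, abs_of_pos h3, mul_one, mul_one,
      mul_max_of_nonneg _ _ h3.le, mul_one]
  · exact (h5 a b hab hb).le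

lemma Ele_diff_null (N : ℕ) (hN : 0 < N) (r : ℝ) : volume (Ele N r \ Elt N r) = 0 := by
  have hsub : Ele N r \ Elt N r ⊆ {p : ℝ × ℝ × ℝ | p.2.1 = 0} ∪
      {p : ℝ × ℝ × ℝ | p.2.2 * max 1 (p.1 ^ 2) = r ^ 2} ∪
      ⋃ a : ℤ, ⋃ b : {b : ℤ // b ≠ 0},
        {p : ℝ × ℝ × ℝ | 0 < p.2.2 ∧ p.2.2 * max 1 |p.1| = cmp N p a b.1} := by
    rintro p ⟨⟨⟨h1, h2⟩, h3, h4, h5⟩, hp⟩
    by_contra hcon
    rw [Set.mem_union, Set.mem_union, not_or, not_or] at hcon
    obtain ⟨⟨c1, c2⟩, c3⟩ := hcon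
    apply hp
    refine ⟨⟨lt_of_le_of_ne h1 (Ne.symm c1), h2⟩, h3, lt_of_le_of_ne h4 c2, ?_⟩
    intro a b hab hb
    refine lt_of_le_of_ne (h5 a b hab) ?_
    intro heq
    apply c3
    rw [Set.mem_iUnion]
    refine ⟨a, ?_⟩
    rw [Set.mem_iUnion]
    exact ⟨⟨b, hb⟩, h3, heq⟩
  apply measure_mono_null hsub
  rw [measure_union_null_iff, measure_union_null_iff]
  refine ⟨⟨null_t, null_r r⟩, ?_⟩
  rw [measure_iUnion_null_iff]
  intro a
  rw [measure_iUnion_null_iff]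
  intro b
  exact null_tie N hN a b.1 b.2

lemma volume_Elt (N : ℕ) (hN : 0 < N) (r : ℝ) : volume (Elt N r) = volume (Ele N r) :=
  measure_eq_measure_of_null_sdiff (Elt_subset_Ele N r) (Ele_diff_null N hN r)

end Pool.Agent.Helper94.NA
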