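import Mathlib
import Pool.Agent.Helper94.NA.Law

/-! # Convergence of the distribution of the normalised height -/

set_option autoImplicit false

noncomputable section

open Finset Filter Topology MeasureTheory

namespace Pool.Agent.Helper94.NA

open Pool.Agent.H25.Adic

lemma cntH_le (N n : ℕ) (r : ℝ) : cntH N n r ≤ N ^ n := by
  unfold cntH
  exact (card_filter_le _ _).trans (card_range _).le

lemma W_mono (N m : ℕ) {S S' : Set (ℝ × ℝ × ℝ)} (h : S ⊆ S')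
    (hfin : {v : ℤ × ℕ | v ∈ VV N ∧ pt N m v ∈ S'}.Finite) : W N m S ≤ W N m S' := by
  unfold W
  exact Set.ncard_le_ncard (fun v hv => ⟨hv.1, h hv.2⟩) hfin

lemma volume_bounded (S : Set (ℝ × ℝ × ℝ)) (Y Q : ℝ)
    (h : ∀ p ∈ S, |p.1| ≤ Y ∧ (0 ≤ p.2.1 ∧ p.2.1 ≤ 1) ∧ (0 ≤ p.2.2 ∧ p.2.2 ≤ Q)) :
    volume S ≠ ⊤ := by
  have hsub : S ⊆ Set.Icc ((-Y, 0, 0) : ℝ × ℝ × ℝ) (Y, 1, Q) := by
    intro p hp
    obtain ⟨h1, h2, h3⟩ := h p hp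
    have h1' := abs_le.1 h1
    exact ⟨⟨h1'.1, h2.1, h3.1⟩, ⟨h1'.2, h2.2, h3.2⟩⟩
  exact ((measure_mono hsub).trans_lt isCompact_Icc.measure_lt_top).ne

lemma isOpen_trunc (N : ℕ) (r η : ℝ) : IsOpen (Elt N r ∩ {p | η < p.2.2}) :=
  (isOpen_Elt N r).inter (isOpen_lt continuous_const (by fun_prop))

lemma trunc_bounded (N : ℕ) (r η : ℝ) (hη : 0 < η) (p : ℝ × ℝ × ℝ)
    (hp : p ∈ Elt N r ∩ {p | η < p.2.2}) :
    |p.1| ≤ |r| / √η ∧ (0 ≤ p.2.1 ∧ p.2.1 ≤ 1) ∧ (0 ≤ p.2.2 ∧ p.2.2 ≤ r ^ 2) := by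
  obtain ⟨⟨⟨h1, h2⟩, h3, h4, _⟩, h5⟩ := hp
  have h5' : η < p.2.2 := h5
  refine ⟨?_, ⟨h1.le, h2.le⟩, h3.le, ?_⟩
  · rw [le_div_iff₀ (Real.sqrt_pos.2 hη)]
    apply abs_le_of_sq_le_sq' _ (abs_nonneg _) |>.2
    rw [mul_pow, Real.sq_sqrt hη.le, sq_abs, sq_abs]
    calc p.1 ^ 2 * η ≤ p.1 ^ 2 * p.2.2 := mul_le_mul_of_nonneg_left h5'.le (sq_nonneg _)
      _ = p.2.2 * p.1 ^ 2 := mul_comm _ _
      _ ≤ p.2.2 * max 1 (p.1 ^ 2) := mul_le_mul_of_nonneg_left (le_max_right _ _) h3.le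
      _ ≤ r ^ 2 := h4.le
  · calc p.2.2 = p.2.2 * 1 := (mul_one _).symm
      _ ≤ p.2.2 * max 1 (p.1 ^ 2) := mul_le_mul_of_nonneg_left (le_max_left _ _) h3.le
      _ ≤ r ^ 2 := h4.le

/-- the volume of the truncated region is bounded -/
lemma trunc_volume (N : ℕ) (hN : 2 ≤ N) (r η : ℝ) (hr : 0 ≤ r) (hη : 0 < η) :
    volume (Elt N r ∩ {p | η < p.2.2}) ≤ ENNReal.ofReal (2 / rho N) := by
  have hN0 : 0 < N := by omega
  have hρ := rho_pos N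
  have hfin : ∀ m, {v : ℤ × ℕ | v ∈ VV N ∧ pt N m v ∈ Elt N r}.Finite := fun m =>
    finite_of_bound N m hN0 (r ^ 2) _ (fun p hp => hp.2.2.1.le)
  have hfin' : ∀ m, {v : ℤ × ℕ | v ∈ VV N ∧ pt N m v ∈ Elt N r ∩ {p | η < p.2.2}}.Finite :=
    fun m => (hfin m).subset (fun v hv => ⟨hv.1, hv.2.1⟩)
  have hvol : volume (Elt N r ∩ {p | η < p.2.2}) ≠ ⊤ :=
    volume_bounded _ _ _ (trunc_bounded N r η hη)
  have key : ∀ ε : ℝ, 0 < ε → rho N / 2 * (volume (Elt N r ∩ {p | η < p.2.2})).toReal ≤ 1 + ε := by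
    intro ε hε
    have h1 := open_lower N hN _ (isOpen_trunc N r η)
      (fun p hp => ⟨hp.1.1.1.le, hp.1.1.2, hp.1.2.1.le⟩) hfin' hvol ε hε
    obtain ⟨m, hm⟩ := h1.exists
    have h2 : (W N m (Elt N r ∩ {p | η < p.2.2}) : ℝ) / (N : ℝ) ^ (m + 1) ≤ 1 := by
      rw [div_le_one (by positivity)]
      have h3 : W N m (Elt N r ∩ {p | η < p.2.2}) ≤ N ^ (m + 1) :=
        (W_mono N m Set.inter_subset_left (hfin m)).trans
          ((lower N m hN r hr).trans (cntH_le N (m + 1) r))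
      exact_mod_cast h3
    linarith
  have h4 : rho N / 2 * (volume (Elt N r ∩ {p | η < p.2.2})).toReal ≤ 1 :=
    le_of_forall_pos_le_add key
  have h5 : (volume (Elt N r ∩ {p | η < p.2.2})).toReal ≤ 2 / rho N := by
    rw [le_div_iff₀ hρ]
    linarith
  rw [← ENNReal.ofReal_toReal hvol]
  exact ENNReal.ofReal_le_ofReal h5

lemma Elt_volume_le (N : ℕ) (hN : 2 ≤ N) (r : ℝ) (hr : 0 ≤ r) :
    volume (Elt N r) ≤ ENNReal.ofReal (2 / rho N) := by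
  have heq : Elt N r = ⋃ k : ℕ, Elt N r ∩ {p | 1 / ((k : ℝ) + 1) < p.2.2} := by
    ext p
    rw [Set.mem_iUnion]
    constructor
    · intro hp
      have h3 : 0 < p.2.2 := hp.2.1
      obtain ⟨k, hk⟩ := exists_nat_one_div_lt h3
      exact ⟨k, hp, hk⟩
    · rintro ⟨k, hk⟩
      exact hk.1
  have hmono : Monotone (fun k : ℕ => Elt N r ∩ {p | 1 / ((k : ℝ) + 1) < p.2.2}) := by
    intro k l hkl p hp
    have h1 : 1 / ((l : ℝ) + 1) ≤ 1 / ((k : ℝ) + 1) := by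
      apply one_div_le_one_div_of_le (by positivity)
      have : (k : ℝ) ≤ l := by exact_mod_cast hkl
      linarith
    have h2 : 1 / ((k : ℝ) + 1) < p.2.2 := hp.2
    exact ⟨hp.1, lt_of_le_of_lt h1 h2⟩
  have h1 := tendsto_measure_iUnion_atTop (μ := (volume : Measure (ℝ × ℝ × ℝ))) hmono
  rw [← heq] at h1
  exact le_of_tendsto' h1 (fun k => trunc_volume N hN r _ hr (by positivity))

lemma Ele_volume_ne_top (N : ℕ) (hN : 2 ≤ N) (r : ℝ) (hr : 0 ≤ r) : volume (Ele N r) ≠ ⊤ := by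
  rw [← volume_Elt N (by omega) r]
  exact ((Elt_volume_le N hN r hr).trans_lt ENNReal.ofReal_lt_top).ne

/-- the limit distribution -/
def FN (N : ℕ) (r : ℝ) : ℝ := rho N / 2 * (volume (Ele N r)).toReal

lemma law_lower (N : ℕ) (hN : 2 ≤ N) (r : ℝ) (hr : 0 ≤ r) (ε : ℝ) (hε : 0 < ε) :
    ∀ᶠ m in atTop, FN N r - ε ≤ (cntH N (m + 1) r : ℝ) / (N : ℝ) ^ (m + 1) := by
  have hN0 : 0 < N := by omega
  have hfin : ∀ m, {v : ℤ × ℕ | v ∈ VV N ∧ pt N m v ∈ Elt N r}.Finite := fun m =>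
    finite_of_bound N m hN0 (r ^ 2) _ (fun p hp => hp.2.2.1.le)
  have hvol : volume (Elt N r) ≠ ⊤ := by
    rw [volume_Elt N hN0 r]; exact Ele_volume_ne_top N hN r hr
  have h1 := open_lower N hN _ (isOpen_Elt N r)
      (fun p hp => ⟨hp.1.1.le, hp.1.2, hp.2.1.le⟩) hfin hvol ε hε
  filter_upwards [h1] with m hm
  unfold FN
  rw [← volume_Elt N hN0 r]
  refine hm.trans ?_
  gcongr
  exact lower N m hN r hr

/-! ### the upper bound -/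

/-- the enclosing box -/
def DD (Y : ℕ) (Q : ℝ) : Set (ℝ × ℝ × ℝ) :=
  {p | (-(Y : ℝ) ≤ p.1 ∧ p.1 < Y) ∧ (0 ≤ p.2.1 ∧ p.2.1 < 1) ∧ p.2.2 < Q}

lemma DD_bound (Y : ℕ) (Q : ℝ) (hQ : 0 ≤ Q) :
    ∀ p ∈ DD Y Q, p.2.2 * max 1 (p.1 ^ 2) ≤ Q * (Y + 1) ^ 2 := by
  rintro p ⟨⟨h1, h2⟩, _, h3⟩
  have h4 : |p.1| ≤ (Y : ℝ) + 1 := by
    rw [abs_le]; constructor <;> linarith
  have h5 : max 1 (p.1 ^ 2) ≤ ((Y : ℝ) + 1) ^ 2 := by
    apply max_le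
    · have : (0 : ℝ) ≤ Y := by positivity
      nlinarith
    · rw [← sq_abs p.1]
      exact pow_le_pow_left₀ (abs_nonneg _) h4 2
  calc p.2.2 * max 1 (p.1 ^ 2) ≤ Q * max 1 (p.1 ^ 2) :=
        mul_le_mul_of_nonneg_right h3.le (by positivity)
    _ ≤ _ := mul_le_mul_of_nonneg_left h5 hQ

lemma W_DD_le (N m : ℕ) (hN : 0 < N) (Y : ℕ) (Q : ℝ) (hQ : 0 ≤ Q) :
    W N m (DD Y Q) ≤ ∑ k ∈ Finset.Ico (-(Y : ℤ)) Y, W N m (box0 k 0 1 0 1 Q) := by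
  classical
  have hfin := finite_of_bound N m hN _ _ (DD_bound Y Q hQ)
  have hfk : ∀ k : ℤ, {v : ℤ × ℕ | v ∈ VV N ∧ pt N m v ∈ box0 k 0 1 0 1 Q}.Finite := fun k =>
    finite_of_bound N m hN _ _ (box0_bound k 0 1 0 1 Q le_rfl le_rfl hQ)
  have h1 : W N m (DD Y Q) ≤
      ((Finset.Ico (-(Y : ℤ)) Y).biUnion (fun k => (hfk k).toFinset)).card := by
    unfold W
    rw [Set.ncard_eq_toFinset_card _ hfin]
    apply Finset.card_le_card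
    intro v hv
    rw [Set.Finite.mem_toFinset] at hv
    obtain ⟨hv, ⟨h1, h2⟩, h3, h4⟩ := hv
    rw [mem_biUnion]
    refine ⟨⌊(pt N m v).1⌋, ?_, ?_⟩
    · rw [mem_Ico]
      constructor
      · rw [Int.le_floor]; push_cast; exact h1
      · rw [Int.floor_lt]; exact_mod_cast h2
    · rw [Set.Finite.mem_toFinset]
      refine ⟨hv, ⟨?_, ?_⟩, h3, h4⟩
      · rw [add_zero]; exact Int.floor_le _
      · exact Int.lt_floor_add_one _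
  refine h1.trans (Finset.card_biUnion_le.trans (le_of_eq ?_))
  apply Finset.sum_congr rfl
  intro k _
  unfold W
  rw [Set.ncard_eq_toFinset_card _ (hfk k)]

lemma DD_upper (N : ℕ) (hN : 2 ≤ N) (Y : ℕ) (Q : ℝ) (hQ : 0 ≤ Q) (ε : ℝ) (hε : 0 < ε) :
    ∀ᶠ m in atTop, (W N m (DD Y Q) : ℝ) / (N : ℝ) ^ (m + 1) ≤ rho N / 2 * (2 * Y * Q) + ε := by
  have hlim : Tendsto (fun m => ∑ k ∈ Finset.Ico (-(Y : ℤ)) Y,
      (W N m (box0 k 0 1 0 1 Q) : ℝ) / (N : ℝ) ^ (m + 1)) atTop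
      (𝓝 (∑ k ∈ Finset.Ico (-(Y : ℤ)) Y, rho N / 2 * ((1 - 0) * (1 - 0) * Q))) :=
    tendsto_finsetSum _ (fun k _ => box0_tendsto N hN k 0 1 0 1 Q le_rfl (by norm_num) le_rfl
      le_rfl (by norm_num) le_rfl hQ)
  have e : ∑ k ∈ Finset.Ico (-(Y : ℤ)) Y, rho N / 2 * ((1 - 0) * (1 - 0) * Q) =
      rho N / 2 * (2 * Y * Q) := by
    rw [Finset.sum_const, Int.card_Ico, nsmul_eq_mul]
    have : (((Y : ℤ) - -(Y : ℤ)).toNat : ℝ) = 2 * Y := by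
      have h : ((Y : ℤ) - -(Y : ℤ)).toNat = 2 * Y := by omega
      rw [h]; push_cast; ring
    rw [this]; ring
  rw [e] at hlim
  filter_upwards [hlim.eventually (gt_mem_nhds (lt_add_of_pos_right _ hε))] with m hm
  refine le_trans ?_ hm.le
  rw [← Finset.sum_div]
  gcongr
  have := W_DD_le N m (by omega) Y Q hQ
  exact_mod_cast this

/-- the complementary open set -/
def Uc (N : ℕ) (r η : ℝ) (Y : ℕ) (Q : ℝ) : Set (ℝ × ℝ × ℝ) :=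
  {p | ((-(Y : ℝ) < p.1 ∧ p.1 < Y) ∧ (0 < p.2.1 ∧ p.2.1 < 1) ∧ 0 < p.2.2 ∧ p.2.2 < Q) ∧
    (p.2.2 < η ∨ r ^ 2 < p.2.2 * max 1 (p.1 ^ 2) ∨
      ∃ a b : ℤ, IsCoprime a (b * N) ∧ cmp N p a b < p.2.2 * max 1 |p.1|)}

lemma isOpen_Uc (N : ℕ) (r η : ℝ) (Y : ℕ) (Q : ℝ) : IsOpen (Uc N r η Y Q) := by
  have heq : Uc N r η Y Q = (({p : ℝ × ℝ × ℝ | -(Y : ℝ) < p.1} ∩ {p | p.1 < Y}) ∩
      ({p | 0 < p.2.1} ∩ {p | p.2.1 < 1}) ∩ ({p | 0 < p.2.2} ∩ {p | p.2.2 < Q})) ∩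
      ({p | p.2.2 < η} ∪ ({p | r ^ 2 < p.2.2 * max 1 (p.1 ^ 2)} ∪
      ⋃ x : {x : ℤ × ℤ // IsCoprime x.1 (x.2 * N)},
        {p | cmp N p x.1.1 x.1.2 < p.2.2 * max 1 |p.1|})) := by
    ext p
    constructor
    · rintro ⟨⟨⟨h1, h2⟩, ⟨h3, h4⟩, h5, h6⟩, h7⟩
      refine ⟨⟨⟨⟨h1, h2⟩, h3, h4⟩, h5, h6⟩, ?_⟩
      rcases h7 with h7 | h7 | ⟨a, b, hab, h7⟩
      · exact Or.inl h7
      · exact Or.inr (Or.inl h7)
      · refine Or.inr (Or.inr ?_)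
        rw [Set.mem_iUnion]
        exact ⟨⟨(a, b), hab⟩, h7⟩
    · rintro ⟨⟨⟨⟨h1, h2⟩, h3, h4⟩, h5, h6⟩, h7⟩
      refine ⟨⟨⟨h1, h2⟩, ⟨h3, h4⟩, h5, h6⟩, ?_⟩
      rcases h7 with h7 | h7 | h7
      · exact Or.inl h7
      · exact Or.inr (Or.inl h7)
      · rw [Set.mem_iUnion] at h7
        obtain ⟨⟨⟨a, b⟩, hab⟩, h7⟩ := h7
        exact Or.inr (Or.inr ⟨a, b, hab, h7⟩)
  rw [heq]
  have c1 : Continuous (fun p : ℝ × ℝ × ℝ => p.1) := by fun_prop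
  have c2 : Continuous (fun p : ℝ × ℝ × ℝ => p.2.1) := by fun_prop
  have c3 : Continuous (fun p : ℝ × ℝ × ℝ => p.2.2) := by fun_prop
  refine IsOpen.inter (((((isOpen_lt continuous_const c1).inter (isOpen_lt c1 continuous_const)).inter
    ((isOpen_lt continuous_const c2).inter (isOpen_lt c2 continuous_const))).inter
    ((isOpen_lt continuous_const c3).inter (isOpen_lt c3 continuous_const)))) ?_
  refine IsOpen.union (isOpen_lt c3 continuous_const) (IsOpen.union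
    (isOpen_lt continuous_const continuous_nrm2) ?_)
  apply isOpen_iUnion
  intro x
  exact isOpen_lt (continuous_cmp N _ _) continuous_lhs

/-- the open box -/
def D0 (Y : ℕ) (Q : ℝ) : Set (ℝ × ℝ × ℝ) :=
  Set.Ioo (-(Y : ℝ)) Y ×ˢ (Set.Ioo (0 : ℝ) 1 ×ˢ Set.Ioo (0 : ℝ) Q)

lemma D0_volume (Y : ℕ) (Q : ℝ) :
    volume (D0 Y Q) = ENNReal.ofReal (2 * Y * Q) := by
  unfold D0
  rw [Measure.volume_eq_prod, Measure.prod_prod, Measure.volume_eq_prod,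
    Measure.prod_prod, Real.volume_Ioo, Real.volume_Ioo, Real.volume_Ioo]
  rw [← ENNReal.ofReal_mul (by norm_num), ← ENNReal.ofReal_mul (by
    have : (0 : ℝ) ≤ Y := by positivity
    linarith)]
  congr 1
  ring

/-- the upper bound for the truncated closed region -/
lemma closed_upper (N : ℕ) (hN : 2 ≤ N) (r η : ℝ) (hr : 0 ≤ r) (hη : 0 < η) (ε : ℝ)
    (hε : 0 < ε) :
    ∀ᶠ m in atTop, (W N m (Ele N r ∩ {p | η ≤ p.2.2}) : ℝ) / (N : ℝ) ^ (m + 1) ≤ FN N r + ε := by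
  have hN0 : 0 < N := by omega
  have hρ := rho_pos N
  obtain ⟨Y, hY⟩ := exists_nat_gt (r / √η)
  set Q : ℝ := r ^ 2 + 1 with hQ
  have hQ0 : 0 ≤ Q := by positivity
  have hY0 : (0 : ℝ) ≤ Y := by positivity
  have hUo := isOpen_Uc N r η Y Q
  have hfinDD : ∀ m, {v : ℤ × ℕ | v ∈ VV N ∧ pt N m v ∈ DD Y Q}.Finite := fun m =>
    finite_of_bound N m hN0 _ _ (DD_bound Y Q hQ0)
  have hUD : Uc N r η Y Q ⊆ DD Y Q := by
    rintro p ⟨⟨⟨h1, h2⟩, ⟨h3, h4⟩, h5, h6⟩, _⟩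
    exact ⟨⟨h1.le, h2⟩, ⟨h3.le, h4⟩, h6⟩
  have hED : Ele N r ∩ {p | η ≤ p.2.2} ⊆ DD Y Q := by
    rintro p ⟨⟨h1, h2, h3, _⟩, h4⟩
    have h4' : η ≤ p.2.2 := h4
    have hy : |p.1| ≤ r / √η := by
      rw [le_div_iff₀ (Real.sqrt_pos.2 hη)]
      apply abs_le_of_sq_le_sq' _ hr |>.2
      rw [mul_pow, Real.sq_sqrt hη.le, sq_abs]
      calc p.1 ^ 2 * η ≤ p.1 ^ 2 * p.2.2 := mul_le_mul_of_nonneg_left h4' (sq_nonneg _)
        _ = p.2.2 * p.1 ^ 2 := mul_comm _ _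
        _ ≤ p.2.2 * max 1 (p.1 ^ 2) := mul_le_mul_of_nonneg_left (le_max_right _ _) h2.le
        _ ≤ r ^ 2 := h3
    have hq : p.2.2 ≤ r ^ 2 := by
      calc p.2.2 = p.2.2 * 1 := (mul_one _).symm
        _ ≤ p.2.2 * max 1 (p.1 ^ 2) := mul_le_mul_of_nonneg_left (le_max_left _ _) h2.le
        _ ≤ r ^ 2 := h3
    have hy' := abs_lt.1 (lt_of_le_of_lt hy hY)
    exact ⟨⟨hy'.1.le, hy'.2⟩, h1, by rw [hQ]; linarith⟩
  have hdisj : Disjoint (Ele N r ∩ {p | η ≤ p.2.2}) (Uc N r η Y Q) := by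
    rw [Set.disjoint_left]
    rintro p ⟨⟨_, _, h3, h4⟩, h5⟩ ⟨_, h6⟩
    rcases h6 with h6 | h6 | ⟨a, b, hab, h6⟩
    · exact absurd h6 (not_lt.2 h5)
    · exact absurd h6 (not_lt.2 h3)
    · exact absurd h6 (not_lt.2 (h4 a b hab))
  have hUvol : volume (Uc N r η Y Q) ≠ ⊤ := by
    apply volume_bounded _ Y Q
    rintro p ⟨⟨⟨h1, h2⟩, ⟨h3, h4⟩, h5, h6⟩, _⟩
    exact ⟨abs_le.2 ⟨h1.le, h2.le⟩, ⟨h3.le, h4.le⟩, h5.le, h6.le⟩
  have hfinU : ∀ m, {v : ℤ × ℕ | v ∈ VV N ∧ pt N m v ∈ Uc N r η Y Q}.Finite := fun m =>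
    (hfinDD m).subset (fun v hv => ⟨hv.1, hUD hv.2⟩)
  have e1 := open_lower N hN _ hUo
      (fun p hp => ⟨hp.1.2.1.1.le, hp.1.2.1.2, hp.1.2.2.1.le⟩) hfinU hUvol (ε / 2) (by positivity)
  have e2 := DD_upper N hN Y Q hQ0 (ε / 2) (by positivity)
  -- volumes
  have hD0U : Uc N r η Y Q ⊆ D0 Y Q := by
    rintro p ⟨⟨⟨h1, h2⟩, ⟨h3, h4⟩, h5, h6⟩, _⟩
    exact ⟨⟨h1, h2⟩, ⟨h3, h4⟩, h5, h6⟩
  have hD0E : D0 Y Q \ Uc N r η Y Q ⊆ Ele N r := by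
    rintro p ⟨⟨⟨h1, h2⟩, ⟨h3, h4⟩, h5, h6⟩, hU⟩
    have hU' : ¬ (p.2.2 < η ∨ r ^ 2 < p.2.2 * max 1 (p.1 ^ 2) ∨
      ∃ a b : ℤ, IsCoprime a (b * N) ∧ cmp N p a b < p.2.2 * max 1 |p.1|) := fun h =>
      hU ⟨⟨⟨h1, h2⟩, ⟨h3, h4⟩, h5, h6⟩, h⟩
    push Not at hU'
    exact ⟨⟨h3.le, h4⟩, h5, hU'.2.1, fun a b hab => hU'.2.2 a b hab⟩
  have hvol : 2 * Y * Q ≤ (volume (Uc N r η Y Q)).toReal + (volume (Ele N r)).toReal := by
    have h1 : volume (D0 Y Q) ≤ volume (Uc N r η Y Q) + volume (Ele N r) := by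
      calc volume (D0 Y Q) ≤ volume (Uc N r η Y Q ∪ Ele N r) := by
            apply measure_mono
            intro p hp
            by_cases h : p ∈ Uc N r η Y Q
            · exact Or.inl h
            · exact Or.inr (hD0E ⟨hp, h⟩)
        _ ≤ _ := measure_union_le _ _
    rw [D0_volume Y Q] at h1
    have hE := Ele_volume_ne_top N hN r hr
    have h2 := ENNReal.toReal_mono (ENNReal.add_ne_top.2 ⟨hUvol, hE⟩) h1
    rwa [ENNReal.toReal_ofReal (by positivity), ENNReal.toReal_add hUvol hE] at h2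
  filter_upwards [e1, e2] with m h1 h2
  have hsum : W N m (Ele N r ∩ {p | η ≤ p.2.2}) + W N m (Uc N r η Y Q) ≤ W N m (DD Y Q) := by
    unfold W
    rw [← Set.ncard_union_eq ?_ ((hfinDD m).subset (fun v hv => ⟨hv.1, hED hv.2⟩)) (hfinU m)]
    · apply Set.ncard_le_ncard _ (hfinDD m)
      rintro v (⟨h1, h2⟩ | ⟨h1, h2⟩)
      · exact ⟨h1, hED h2⟩
      · exact ⟨h1, hUD h2⟩
    · rw [Set.disjoint_left]
      rintro v ⟨_, h1⟩ ⟨_, h2⟩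
      exact Set.disjoint_left.1 hdisj h1 h2
  have hsum' : (W N m (Ele N r ∩ {p | η ≤ p.2.2}) : ℝ) / (N : ℝ) ^ (m + 1) +
      (W N m (Uc N r η Y Q) : ℝ) / (N : ℝ) ^ (m + 1) ≤
      (W N m (DD Y Q) : ℝ) / (N : ℝ) ^ (m + 1) := by
    rw [← add_div]
    gcongr
    exact_mod_cast hsum
  unfold FN
  have := mul_le_mul_of_nonneg_left hvol (by positivity : 0 ≤ rho N / 2)
  rw [mul_add] at this
  linarith

/-- the part with small denominators -/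
lemma small_part (N m : ℕ) (hN : 2 ≤ N) (r η : ℝ) (hr : 0 ≤ r) (hη : 0 < η) :
    (W N m (Ele N r ∩ {p | p.2.2 < η}) : ℝ) / (N : ℝ) ^ (m + 1) ≤ (2 * r + 1) * √η := by
  classical
  have hN0 : 0 < N := by omega
  have hM : (0 : ℝ) < (N : ℝ) ^ (m + 1) := by positivity
  have hM1 : (1 : ℝ) ≤ (N : ℝ) ^ (m + 1) := one_le_pow₀ (by exact_mod_cast (by omega : 1 ≤ N))
  set s : ℝ := √((N : ℝ) ^ (m + 1)) with hs
  have hs2 : s * s = (N : ℝ) ^ (m + 1) := Real.mul_self_sqrt hM.le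
  have hs1 : 1 ≤ s := by
    rw [hs]; exact Real.one_le_sqrt.2 hM1
  have hfin : {v : ℤ × ℕ | v ∈ VV N ∧ pt N m v ∈ Ele N r ∩ {p | p.2.2 < η}}.Finite :=
    finite_of_bound N m hN0 (r ^ 2) _ (fun p hp => hp.1.2.2.1)
  have hcard : W N m (Ele N r ∩ {p | p.2.2 < η}) ≤
      (Finset.Icc (-⌊r * s⌋) ⌊r * s⌋ ×ˢ Finset.Icc 1 ⌊√η * s⌋₊).card := by
    unfold W
    rw [Set.ncard_eq_toFinset_card _ hfin]
    apply Finset.card_le_card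
    intro v hv
    rw [Set.Finite.mem_toFinset] at hv
    obtain ⟨hv, hE, hq⟩ := hv
    have hq' : (pt N m v).2.2 < η := hq
    have hnorm := hE.2.2.1
    rw [norm_pt N m hN0 v hv, ← sq_le_iff _ _ _ hr (by positivity) hM, nrm_cast] at hnorm
    have h1 : |(v.1 : ℝ)| ≤ r * s := (le_max_left _ _).trans hnorm
    have h2 : (v.2 : ℝ) ≤ √η * s := by
      have h3 : (v.2 : ℝ) ^ 2 / (N : ℝ) ^ (m + 1) < η := hq'
      rw [div_lt_iff₀ hM] at h3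
      rw [hs, ← Real.sqrt_mul hη.le]
      exact Real.le_sqrt_of_sq_le h3.le
    rw [mem_product, mem_Icc, mem_Icc]
    have h1' := abs_le.1 h1
    refine ⟨⟨?_, ?_⟩, hv.1, ?_⟩
    · have : -v.1 ≤ ⌊r * s⌋ := by
        rw [Int.le_floor]; push_cast; linarith [h1'.1]
      linarith
    · rw [Int.le_floor]; exact h1'.2
    · exact Nat.le_floor h2
  have hrs : 0 ≤ r * s := by positivity
  rw [card_product, Int.card_Icc, Nat.card_Icc] at hcard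
  have hfl : 0 ≤ ⌊r * s⌋ := Int.floor_nonneg.2 hrs
  have h3 : (((⌊r * s⌋ + 1 - -⌊r * s⌋).toNat : ℕ) : ℝ) ≤ 2 * (r * s) + 1 := by
    have h4 : (((⌊r * s⌋ + 1 - -⌊r * s⌋).toNat : ℕ) : ℤ) = 2 * ⌊r * s⌋ + 1 := by
      rw [Int.toNat_of_nonneg (by omega)]; ring
    have h5 : (((⌊r * s⌋ + 1 - -⌊r * s⌋).toNat : ℕ) : ℝ) = 2 * (⌊r * s⌋ : ℝ) + 1 := by
      exact_mod_cast h4
    rw [h5]
    have := Int.floor_le (r * s)
    linarith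
  have h4 : ((⌊√η * s⌋₊ + 1 - 1 : ℕ) : ℝ) ≤ √η * s := by
    rw [Nat.add_sub_cancel]
    exact Nat.floor_le (by positivity)
  rw [div_le_iff₀ hM]
  calc (W N m (Ele N r ∩ {p | p.2.2 < η}) : ℝ)
      ≤ ((((⌊r * s⌋ + 1 - -⌊r * s⌋).toNat) * (⌊√η * s⌋₊ + 1 - 1) : ℕ) : ℝ) := by
        exact_mod_cast hcard
    _ = (((⌊r * s⌋ + 1 - -⌊r * s⌋).toNat : ℕ) : ℝ) * ((⌊√η * s⌋₊ + 1 - 1 : ℕ) : ℝ) := by
        push_cast; ring
    _ ≤ (2 * (r * s) + 1) * (√η * s) := mul_le_mul h3 h4 (by positivity) (by positivity)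
    _ ≤ (2 * (r * s) + s) * (√η * s) := by gcongr
    _ = (2 * r + 1) * √η * (N : ℝ) ^ (m + 1) := by rw [← hs2]; ring

lemma law_upper (N : ℕ) (hN : 2 ≤ N) (r : ℝ) (hr : 0 ≤ r) (ε : ℝ) (hε : 0 < ε) :
    ∀ᶠ m in atTop, (cntH N (m + 1) r : ℝ) / (N : ℝ) ^ (m + 1) ≤ FN N r + ε := by
  have hN0 : 0 < N := by omega
  set c : ℝ := ε / (2 * (2 * r + 1)) with hc
  have hc0 : 0 < c := by positivity
  have hη : 0 < c ^ 2 := by positivity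
  filter_upwards [closed_upper N hN r (c ^ 2) hr hη (ε / 2) (by positivity)] with m hm
  have h1 := small_part N m hN r (c ^ 2) hr hη
  rw [Real.sqrt_sq hc0.le] at h1
  have h2 : (2 * r + 1) * c = ε / 2 := by rw [hc]; field_simp
  have hfin : {v : ℤ × ℕ | v ∈ VV N ∧ pt N m v ∈ Ele N r}.Finite :=
    finite_of_bound N m hN0 (r ^ 2) _ (fun p hp => hp.2.2.1)
  have h3 : W N m (Ele N r) ≤ W N m (Ele N r ∩ {p | c ^ 2 ≤ p.2.2}) +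
      W N m (Ele N r ∩ {p | p.2.2 < c ^ 2}) := by
    unfold W
    refine le_trans (Set.ncard_le_ncard ?_ ?_) (Set.ncard_union_le _ _)
    · rintro v ⟨h1, h2⟩
      by_cases h3 : (pt N m v).2.2 < c ^ 2
      · exact Or.inr ⟨h1, h2, h3⟩
      · exact Or.inl ⟨h1, h2, not_lt.1 h3⟩
    · exact (hfin.subset (fun v hv => ⟨hv.1, hv.2.1⟩)).union
        (hfin.subset (fun v hv => ⟨hv.1, hv.2.1⟩))
  have h4 : (cntH N (m + 1) r : ℝ) / (N : ℝ) ^ (m + 1) ≤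
      (W N m (Ele N r ∩ {p | c ^ 2 ≤ p.2.2}) : ℝ) / (N : ℝ) ^ (m + 1) +
      (W N m (Ele N r ∩ {p | p.2.2 < c ^ 2}) : ℝ) / (N : ℝ) ^ (m + 1) := by
    rw [← add_div]
    gcongr
    exact_mod_cast (upper N m hN r hr).trans h3
  linarith

/-- convergence of the distribution -/
theorem law (N : ℕ) (hN : 2 ≤ N) (r : ℝ) (hr : 0 ≤ r) :
    Tendsto (fun m => (cntH N (m + 1) r : ℝ) / (N : ℝ) ^ (m + 1)) atTop (𝓝 (FN N r)) := by
  rw [Metric.tendsto_atTop']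
  intro ε hε
  obtain ⟨m₀, hm₀⟩ := eventually_atTop.1 ((law_lower N hN r hr (ε / 2) (by positivity)).and
    (law_upper N hN r hr (ε / 2) (by positivity)))
  refine ⟨m₀, fun m hm => ?_⟩
  obtain ⟨h1, h2⟩ := hm₀ m hm.le
  rw [Real.dist_eq, abs_lt]
  constructor <;> linarith

end Pool.Agent.Helper94.NA
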