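import Mathlib
import Pool.Agent.Helper94.NA.Limit

/-! # Convergence of the mean of the logarithm -/

set_option autoImplicit false

noncomputable section

open Finset Filter Topology MeasureTheory

namespace Pool.Agent.Helper94.NA

open Pool.Agent.H25.Adic

/-! ### tails -/

lemma cntH_small (N n : ℕ) (hN : 2 ≤ N) (r : ℝ) (hr : 0 ≤ r) :
    (cntH N n r : ℝ) / (N : ℝ) ^ n ≤ 3 * r ^ 2 := by
  have hM : (0 : ℝ) < (N : ℝ) ^ n := by positivity
  set s : ℝ := √((N : ℝ) ^ n) with hs
  have hs2 : s * s = (N : ℝ) ^ n := Real.mul_self_sqrt hM.le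
  rw [div_le_iff₀ hM]
  rcases Nat.eq_zero_or_pos ⌊r * s⌋₊ with h0 | h0
  · have : cntH N n r = 0 := by
      unfold cntH
      rw [Finset.card_eq_zero, Finset.filter_eq_empty_iff]
      intro A _ hA
      have h1 : Hh N n A ≤ ⌊r * s⌋₊ := Nat.le_floor hA
      have h2 := Hh_pos N n A
      omega
    rw [this, Nat.cast_zero]
    positivity
  · have h1 : cntH N n r ≤ 3 * ⌊r * s⌋₊ ^ 2 := by
      refine le_trans ?_ (count_H (N := N) n ⌊r * s⌋₊ h0)
      unfold cntH
      apply Finset.card_le_card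
      intro A hA
      rw [mem_filter] at hA ⊢
      exact ⟨hA.1, Nat.le_floor hA.2⟩
    have h2 : ((⌊r * s⌋₊ : ℕ) : ℝ) ≤ r * s := Nat.floor_le (by positivity)
    calc (cntH N n r : ℝ) ≤ 3 * ((⌊r * s⌋₊ : ℕ) : ℝ) ^ 2 := by exact_mod_cast h1
      _ ≤ 3 * (r * s) ^ 2 := by gcongr
      _ = 3 * r ^ 2 * (N : ℝ) ^ n := by rw [← hs2]; ring

lemma cntH_large (N n : ℕ) (hN : 2 ≤ N) (r : ℝ) (hr : 0 < r) :
    1 - (cntH N n r : ℝ) / (N : ℝ) ^ n ≤ 24 * ((N : ℝ) + 1) ^ 2 / r ^ 2 := by
  classical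
  have hM : (0 : ℝ) < (N : ℝ) ^ n := by positivity
  set s : ℝ := √((N : ℝ) ^ n) with hs
  have hs2 : s * s = (N : ℝ) ^ n := Real.mul_self_sqrt hM.le
  have hs0 : 0 < s := Real.sqrt_pos.2 hM
  set T := (range (N ^ n)).filter (fun A : ℕ => ¬ (Hh N n A : ℝ) ≤ r * s) with hT
  have hcard : cntH N n r + T.card = N ^ n := by
    unfold cntH
    rw [hT, Finset.card_filter_add_card_filter_not, card_range]
  have hcardR : (cntH N n r : ℝ) + T.card = (N : ℝ) ^ n := by exact_mod_cast hcard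
  set H := ⌊2 * ((N : ℝ) + 1) * s / r⌋₊ with hH
  have hq : 0 < N ^ n := by positivity
  have hqz : (0 : ℤ) < (N : ℤ) ^ n := by positivity
  have hmem : ∀ A ∈ T, m1 ((N ^ n : ℕ) : ℤ) A ≤ H := by
    intro A hA
    rw [hT, mem_filter, not_le] at hA
    have h1 := main_ineq (n := n) hN (A : ℤ)
    have e : ((N ^ n : ℕ) : ℤ) = (N : ℤ) ^ n := by push_cast; rfl
    rw [e]
    apply Nat.le_floor
    rw [le_div_iff₀ hr]
    have h2 : (Hh N n A : ℝ) * (m1 ((N : ℤ) ^ n) A : ℝ) ≤ 2 * (N + 1) * (N : ℝ) ^ n := by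
      exact_mod_cast h1
    have h3 : (r * s) * (m1 ((N : ℤ) ^ n) A : ℝ) ≤ 2 * (N + 1) * (s * s) := by
      rw [hs2]
      refine le_trans ?_ h2
      exact mul_le_mul_of_nonneg_right hA.2.le (by positivity)
    have h4 : s * ((m1 ((N : ℤ) ^ n) A : ℝ) * r) ≤ s * (2 * (N + 1) * s) := by linarith
    exact le_of_mul_le_mul_left h4 hs0
  have hTcard : (T.card : ℝ) ≤ 6 * (H : ℝ) ^ 2 := by
    rcases Nat.eq_zero_or_pos H with h0 | h0
    · have : T = ∅ := by
        rw [Finset.eq_empty_iff_forall_notMem]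
        intro A hA
        have h1 := hmem A hA
        have e : ((N ^ n : ℕ) : ℤ) = (N : ℤ) ^ n := by push_cast; rfl
        rw [e] at h1
        have h2 := m1_pos hqz (A : ℤ)
        omega
      rw [this, card_empty, Nat.cast_zero]
      positivity
    · have h1 := count_m1 hq H h0
      have h2 : T.card ≤ 6 * H ^ 2 := by
        refine le_trans (Finset.card_le_card ?_) h1
        intro A hA
        rw [mem_filter]
        exact ⟨(mem_filter.1 hA).1, hmem A hA⟩
      exact_mod_cast h2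
  have hHle : (H : ℝ) ≤ 2 * ((N : ℝ) + 1) * s / r := Nat.floor_le (by positivity)
  have h5 : 1 - (cntH N n r : ℝ) / (N : ℝ) ^ n = (T.card : ℝ) / (N : ℝ) ^ n := by
    field_simp
    linarith
  rw [h5, div_le_iff₀ hM]
  calc (T.card : ℝ) ≤ 6 * (H : ℝ) ^ 2 := hTcard
    _ ≤ 6 * (2 * ((N : ℝ) + 1) * s / r) ^ 2 := by gcongr
    _ = 24 * ((N : ℝ) + 1) ^ 2 / r ^ 2 * (s * s) := by
        field_simp
        ring
    _ = _ := by rw [hs2]

/-! ### the layer cake -/

lemma upper_layer (x : ℝ) (hx : 0 < x) :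
    IntegrableOn (fun r : ℝ => if r < x then r⁻¹ else 0) (Set.Ioi 1) ∧
    ∫ r in Set.Ioi (1 : ℝ), (if r < x then r⁻¹ else 0) = max 0 (Real.log x) := by
  have heq : ∀ r ∈ Set.Ioi (1 : ℝ), (if r < x then r⁻¹ else 0) =
      (Set.Ioo 1 x).indicator (fun r : ℝ => r⁻¹) r := by
    intro r hr
    have hr' : 1 < r := hr
    by_cases h : r < x
    · rw [if_pos h, Set.indicator_of_mem (show r ∈ Set.Ioo 1 x from ⟨hr', h⟩)]
    · rw [if_neg h, Set.indicator_of_notMem (fun h' => h h'.2)]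
  have hint : IntegrableOn (fun r : ℝ => r⁻¹) (Set.Ioo 1 x) := by
    apply IntegrableOn.mono_set _ Set.Ioo_subset_Icc_self
    apply ContinuousOn.integrableOn_Icc
    apply ContinuousOn.inv₀ continuousOn_id
    intro r hr
    exact (lt_of_lt_of_le one_pos hr.1).ne'
  constructor
  · apply IntegrableOn.congr_fun (f := (Set.Ioo 1 x).indicator (fun r : ℝ => r⁻¹))
      _ (fun r hr => (heq r hr).symm) measurableSet_Ioi
    exact (hint.integrable_indicator measurableSet_Ioo).integrableOn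
  · rw [setIntegral_congr_fun measurableSet_Ioi heq, setIntegral_indicator measurableSet_Ioo]
    have h2 : Set.Ioi (1 : ℝ) ∩ Set.Ioo 1 x = Set.Ioo 1 x := by
      rw [Set.inter_eq_right]; exact fun r hr => hr.1
    rw [h2]
    rcases le_total x 1 with h | h
    · rw [Set.Ioo_eq_empty (not_lt.2 h), setIntegral_empty, max_eq_left (Real.log_nonpos hx.le h)]
    · rw [max_eq_right (Real.log_nonneg h), ← integral_Ioc_eq_integral_Ioo,
        ← intervalIntegral.integral_of_le h, integral_inv_of_pos one_pos hx, div_one]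

lemma lower_layer (x : ℝ) (hx : 0 < x) :
    IntegrableOn (fun r : ℝ => if x ≤ r then r⁻¹ else 0) (Set.Ioc 0 1) ∧
    ∫ r in Set.Ioc (0 : ℝ) 1, (if x ≤ r then r⁻¹ else 0) = max 0 (-Real.log x) := by
  have heq : ∀ r ∈ Set.Ioc (0 : ℝ) 1, (if x ≤ r then r⁻¹ else 0) =
      (Set.Icc x 1).indicator (fun r : ℝ => r⁻¹) r := by
    intro r hr
    by_cases h : x ≤ r
    · rw [if_pos h, Set.indicator_of_mem (show r ∈ Set.Icc x 1 from ⟨h, hr.2⟩)]
    · rw [if_neg h, Set.indicator_of_notMem (fun h' => h h'.1)]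
  have hint : IntegrableOn (fun r : ℝ => r⁻¹) (Set.Icc x 1) := by
    apply ContinuousOn.integrableOn_Icc
    apply ContinuousOn.inv₀ continuousOn_id
    intro r hr
    exact (lt_of_lt_of_le hx hr.1).ne'
  constructor
  · apply IntegrableOn.congr_fun (f := (Set.Icc x 1).indicator (fun r : ℝ => r⁻¹))
      _ (fun r hr => (heq r hr).symm) measurableSet_Ioc
    exact (hint.integrable_indicator measurableSet_Icc).integrableOn
  · rw [setIntegral_congr_fun measurableSet_Ioc heq, setIntegral_indicator measurableSet_Icc]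
    have h2 : Set.Ioc (0 : ℝ) 1 ∩ Set.Icc x 1 = Set.Icc x 1 := by
      rw [Set.inter_eq_right]; exact fun r hr => ⟨lt_of_lt_of_le hx hr.1, hr.2⟩
    rw [h2]
    rcases le_total x 1 with h | h
    · rw [integral_Icc_eq_integral_Ioc, ← intervalIntegral.integral_of_le h,
        integral_inv_of_pos hx one_pos, one_div, Real.log_inv, max_eq_right]
      linarith [Real.log_nonpos hx.le h]
    · rw [max_eq_left (by linarith [Real.log_nonneg h])]
      rcases h.eq_or_lt with rfl | h'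
      · rw [Set.Icc_self, Measure.restrict_eq_zero.2 (by simp), integral_zero_measure]
      · rw [Set.Icc_eq_empty (not_le.2 h'), setIntegral_empty]

/-- the proportion of the classes with small height -/
def GG (N n : ℕ) (r : ℝ) : ℝ := (cntH N n r : ℝ) / (N : ℝ) ^ n

/-- the mean of the logarithm of the normalised height -/
def LL (N n : ℕ) : ℝ :=
  (∑ A ∈ range (N ^ n), Real.log ((Hh N n A : ℝ) / √((N : ℝ) ^ n))) / (N : ℝ) ^ n

lemma GG_eq (N n : ℕ) (hN : 2 ≤ N) (r : ℝ) :
    GG N n r = (∑ A ∈ range (N ^ n), if (Hh N n A : ℝ) / √((N : ℝ) ^ n) ≤ r then (1 : ℝ) else 0) /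
      (N : ℝ) ^ n := by
  have hs0 : 0 < √((N : ℝ) ^ n) := Real.sqrt_pos.2 (by positivity)
  unfold GG cntH
  congr 1
  rw [Finset.card_filter]
  push_cast
  apply Finset.sum_congr rfl
  intro A _
  simp only [div_le_iff₀ hs0]

lemma one_sub_GG_eq (N n : ℕ) (hN : 2 ≤ N) (r : ℝ) :
    1 - GG N n r =
      (∑ A ∈ range (N ^ n), if r < (Hh N n A : ℝ) / √((N : ℝ) ^ n) then (1 : ℝ) else 0) /
      (N : ℝ) ^ n := by
  have hM : (0 : ℝ) < (N : ℝ) ^ n := by positivity
  rw [GG_eq N n hN, eq_div_iff hM.ne', sub_mul, div_mul_cancel₀ _ hM.ne', one_mul]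
  have h1 : ∑ A ∈ range (N ^ n), (1 : ℝ) = ((N : ℝ) ^ n) := by simp
  rw [← h1, ← Finset.sum_sub_distrib, h1]
  apply Finset.sum_congr rfl
  intro A _
  by_cases h : (Hh N n A : ℝ) / √((N : ℝ) ^ n) ≤ r
  · rw [if_pos h, if_neg (not_lt.2 h), sub_self]
  · rw [if_neg h, if_pos (not_le.1 h), sub_zero]

lemma LL_eq (N n : ℕ) (hN : 2 ≤ N) :
    LL N n = (∫ r in Set.Ioi (1 : ℝ), (1 - GG N n r) / r) -
      ∫ r in Set.Ioc (0 : ℝ) 1, GG N n r / r := by
  have hM : (0 : ℝ) < (N : ℝ) ^ n := by positivity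
  have hs0 : 0 < √((N : ℝ) ^ n) := Real.sqrt_pos.2 hM
  have hx : ∀ A : ℕ, 0 < (Hh N n A : ℝ) / √((N : ℝ) ^ n) := fun A => by
    have : (0 : ℝ) < (Hh N n A : ℝ) := by exact_mod_cast Hh_pos N n A
    positivity
  have h1 : (∫ r in Set.Ioi (1 : ℝ), (1 - GG N n r) / r) =
      (∑ A ∈ range (N ^ n), max 0 (Real.log ((Hh N n A : ℝ) / √((N : ℝ) ^ n)))) /
        (N : ℝ) ^ n := by
    have e : ∀ r : ℝ, (1 - GG N n r) / r = (∑ A ∈ range (N ^ n),
        if r < (Hh N n A : ℝ) / √((N : ℝ) ^ n) then r⁻¹ else 0) / (N : ℝ) ^ n := by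
      intro r
      rw [one_sub_GG_eq N n hN, div_right_comm, Finset.sum_div]
      congr 1
      apply Finset.sum_congr rfl
      intro A _
      split_ifs
      · rw [one_div]
      · rw [zero_div]
    simp_rw [e]
    rw [integral_div, integral_finsetSum _ (fun A _ => (upper_layer _ (hx A)).1)]
    congr 1
    apply Finset.sum_congr rfl
    intro A _
    exact (upper_layer _ (hx A)).2
  have h2 : (∫ r in Set.Ioc (0 : ℝ) 1, GG N n r / r) =
      (∑ A ∈ range (N ^ n), max 0 (-Real.log ((Hh N n A : ℝ) / √((N : ℝ) ^ n)))) /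
        (N : ℝ) ^ n := by
    have e : ∀ r : ℝ, GG N n r / r = (∑ A ∈ range (N ^ n),
        if (Hh N n A : ℝ) / √((N : ℝ) ^ n) ≤ r then r⁻¹ else 0) / (N : ℝ) ^ n := by
      intro r
      rw [GG_eq N n hN, div_right_comm, Finset.sum_div]
      congr 1
      apply Finset.sum_congr rfl
      intro A _
      split_ifs
      · rw [one_div]
      · rw [zero_div]
    simp_rw [e]
    rw [integral_div, integral_finsetSum _ (fun A _ => (lower_layer _ (hx A)).1)]
    congr 1
    apply Finset.sum_congr rfl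
    intro A _
    exact (lower_layer _ (hx A)).2
  rw [h1, h2, ← sub_div, ← Finset.sum_sub_distrib]
  unfold LL
  congr 1
  apply Finset.sum_congr rfl
  intro A _
  rcases le_total 0 (Real.log ((Hh N n A : ℝ) / √((N : ℝ) ^ n))) with h | h
  · rw [max_eq_right h, max_eq_left (by linarith), sub_zero]
  · rw [max_eq_left h, max_eq_right (by linarith)]; ring

lemma GG_measurable (N n : ℕ) (hN : 2 ≤ N) : Measurable (GG N n) := by
  have : GG N n = fun r => (∑ A ∈ range (N ^ n),
      if (Hh N n A : ℝ) / √((N : ℝ) ^ n) ≤ r then (1 : ℝ) else 0) / (N : ℝ) ^ n :=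
    funext (fun r => GG_eq N n hN r)
  rw [this]
  apply Measurable.div_const
  apply Finset.measurable_sum
  intro A _
  exact Measurable.ite measurableSet_Ici measurable_const measurable_const

lemma GG_nonneg (N n : ℕ) (r : ℝ) : 0 ≤ GG N n r := by unfold GG; positivity

lemma GG_le_one (N n : ℕ) (hN : 2 ≤ N) (r : ℝ) : GG N n r ≤ 1 := by
  unfold GG
  rw [div_le_one (by positivity)]
  exact_mod_cast cntH_le N n r

/-- convergence of the mean -/
theorem mean_tendsto (N : ℕ) (hN : 2 ≤ N) : Tendsto (fun m => LL N (m + 1)) atTop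
    (𝓝 ((∫ r in Set.Ioi (1 : ℝ), (1 - FN N r) / r) - ∫ r in Set.Ioc (0 : ℝ) 1, FN N r / r)) := by
  simp_rw [LL_eq N _ hN]
  apply Tendsto.sub
  · apply tendsto_integral_of_dominated_convergence
      (fun r : ℝ => 24 * ((N : ℝ) + 1) ^ 2 * r ^ (-3 : ℝ))
    · intro m
      exact ((measurable_const.sub (GG_measurable N (m + 1) hN)).div
        measurable_id).aestronglyMeasurable
    · exact (integrableOn_Ioi_rpow_of_lt (by norm_num) one_pos).const_mul _
    · intro m
      rw [ae_restrict_iff' measurableSet_Ioi]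
      apply Filter.Eventually.of_forall
      intro r hr
      have hr1 : 1 < r := hr
      have hr0 : 0 < r := by linarith
      have h0 : 0 ≤ 1 - GG N (m + 1) r := by have := GG_le_one N (m + 1) hN r; linarith
      rw [Real.norm_eq_abs, abs_of_nonneg (div_nonneg h0 hr0.le)]
      have h1 := cntH_large N (m + 1) hN r hr0
      rw [div_le_iff₀ hr0]
      refine h1.trans (le_of_eq ?_)
      rw [Real.rpow_neg hr0.le, show (3 : ℝ) = ((3 : ℕ) : ℝ) by norm_num, Real.rpow_natCast]
      field_simp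
    · rw [ae_restrict_iff' measurableSet_Ioi]
      apply Filter.Eventually.of_forall
      intro r hr
      have hr1 : 1 < r := hr
      exact (tendsto_const_nhds.sub (law N hN r (by linarith))).div_const r
  · apply tendsto_integral_of_dominated_convergence (fun r : ℝ => 3 * r)
    · intro m
      exact ((GG_measurable N (m + 1) hN).div measurable_id).aestronglyMeasurable
    · exact (continuous_const.mul continuous_id).integrableOn_Ioc
    · intro m
      rw [ae_restrict_iff' measurableSet_Ioc]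
      apply Filter.Eventually.of_forall
      intro r hr
      have hr0 : 0 < r := hr.1
      rw [Real.norm_eq_abs, abs_of_nonneg (div_nonneg (GG_nonneg _ _ _) hr0.le), div_le_iff₀ hr0]
      have := cntH_small N (m + 1) hN r hr0.le
      calc GG N (m + 1) r ≤ 3 * r ^ 2 := this
        _ = 3 * r * r := by ring
    · rw [ae_restrict_iff' measurableSet_Ioc]
      apply Filter.Eventually.of_forall
      intro r hr
      exact (law N hN r hr.1.le).div_const r

/-! ### properties of the limit distribution -/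

lemma FN_nonneg (N : ℕ) (r : ℝ) : 0 ≤ FN N r := by
  unfold FN
  have := rho_pos N
  positivity

lemma FN_le_one (N : ℕ) (hN : 2 ≤ N) (r : ℝ) (hr : 0 ≤ r) : FN N r ≤ 1 :=
  le_of_tendsto' (law N hN r hr) (fun m => GG_le_one N (m + 1) hN r)

lemma FN_small (N : ℕ) (hN : 2 ≤ N) (r : ℝ) (hr : 0 ≤ r) : FN N r ≤ 3 * r ^ 2 :=
  le_of_tendsto' (law N hN r hr) (fun m => cntH_small N (m + 1) hN r hr)

lemma FN_large (N : ℕ) (hN : 2 ≤ N) (r : ℝ) (hr : 0 < r) :
    1 - FN N r ≤ 24 * ((N : ℝ) + 1) ^ 2 / r ^ 2 :=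
  le_of_tendsto' (tendsto_const_nhds.sub (law N hN r hr.le))
    (fun m => cntH_large N (m + 1) hN r hr)

lemma FN_mono (N : ℕ) (hN : 2 ≤ N) (r r' : ℝ) (hr : 0 ≤ r) (h : r ≤ r') : FN N r ≤ FN N r' := by
  apply le_of_tendsto_of_tendsto' (law N hN r hr) (law N hN r' (hr.trans h))
  intro m
  gcongr
  unfold cntH
  apply Finset.card_le_card
  intro A hA
  rw [mem_filter] at hA ⊢
  exact ⟨hA.1, hA.2.trans (mul_le_mul_of_nonneg_right h (Real.sqrt_nonneg _))⟩

end Pool.Agent.Helper94.NA
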