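import Mathlib

/-! # Measure of the parameters whose arithmetic progression meets a set -/

set_option autoImplicit false

noncomputable section

open Filter Topology MeasureTheory Set

namespace Pool.Agent.Helper94.NA

/-- translates of an interval of length `N` by multiples of `N` tile the line -/
lemma tile_sum (T : Set ℝ) (hT : MeasurableSet T) (c p : ℝ) (hp : 0 < p) :
    ∑' k : ℤ, volume (T ∩ Ico (c + k • p) (c + (k + 1) • p)) = volume T := by
  have h1 : T = ⋃ k : ℤ, T ∩ Ico (c + k • p) (c + (k + 1) • p) := by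
    rw [← inter_iUnion, iUnion_Ico_add_zsmul hp c, inter_univ]
  conv_rhs => rw [h1]
  rw [measure_iUnion]
  · intro i j hij
    have h2 := pairwise_disjoint_Ico_add_zsmul c p hij
    exact h2.mono inter_subset_right inter_subset_right
  · intro k
    exact hT.inter measurableSet_Ico

lemma slice_one (T : Set ℝ) (N : ℕ) (hN : 0 < N) (a : ℤ) :
    volume {t : ℝ | t ∈ Ico (0 : ℝ) 1 ∧ (a : ℝ) + N * t ∈ T} =
      ENNReal.ofReal (1 / N) * volume (T ∩ Ico (a : ℝ) (a + N)) := by
  have hN' : (0 : ℝ) < N := by exact_mod_cast hN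
  have h1 : {t : ℝ | t ∈ Ico (0 : ℝ) 1 ∧ (a : ℝ) + N * t ∈ T} =
      ((N : ℝ) * ·) ⁻¹' ((fun u : ℝ => (a : ℝ) + u) ⁻¹' (T ∩ Ico (a : ℝ) (a + N))) := by
    ext t
    simp only [mem_ofPred_eq, mem_preimage, mem_inter_iff, mem_Ico]
    constructor
    · rintro ⟨⟨h0, h1⟩, h2⟩
      refine ⟨h2, ?_, ?_⟩ <;> nlinarith
    · rintro ⟨h2, h3, h4⟩
      refine ⟨⟨?_, ?_⟩, h2⟩
      · by_contra h
        rw [not_le] at h
        nlinarith
      · by_contra h
        rw [not_lt] at h
        nlinarith
  rw [h1, Real.volume_preimage_mul_left hN'.ne', measure_preimage_add, abs_of_pos (by positivity),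
    one_div]

/-- If `P` is `N`-periodic and for every `t` at most one integer `a` with `P a` has
`a + N t ∈ T`, then the measure of the set of the `t` for which there is one is
`#{j < N | P j} / N * vol T`. -/
lemma periodic_measure (T : Set ℝ) (hT : MeasurableSet T) (N : ℕ) (hN : 0 < N) (P : ℤ → Prop)
    [DecidablePred P] (hP : ∀ a k : ℤ, P (a + k * N) ↔ P a)
    (hun : ∀ (t : ℝ) (a a' : ℤ), P a → P a' → (a : ℝ) + N * t ∈ T → (a' : ℝ) + N * t ∈ T →
      a = a') :
    volume {t : ℝ | t ∈ Ico (0 : ℝ) 1 ∧ ∃ a : ℤ, P a ∧ (a : ℝ) + N * t ∈ T} =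
      ENNReal.ofReal ((((Finset.range N).filter (fun j : ℕ => P j)).card : ℝ) / N) * volume T := by
  classical
  have hN' : (0 : ℝ) < N := by exact_mod_cast hN
  have : NeZero N := ⟨hN.ne'⟩
  set S : ℤ → Set ℝ := fun a => if P a then {t : ℝ | t ∈ Ico (0 : ℝ) 1 ∧ (a : ℝ) + N * t ∈ T}
    else ∅ with hS
  have hSm : ∀ a, MeasurableSet (S a) := by
    intro a
    rw [hS]
    simp only
    split_ifs
    · apply MeasurableSet.inter measurableSet_Ico
      exact hT.preimage (by fun_prop)
    · exact MeasurableSet.empty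
  have h1 : {t : ℝ | t ∈ Ico (0 : ℝ) 1 ∧ ∃ a : ℤ, P a ∧ (a : ℝ) + N * t ∈ T} = ⋃ a, S a := by
    ext t
    simp only [mem_ofPred_eq, mem_iUnion, hS]
    constructor
    · rintro ⟨h0, a, ha, h2⟩
      refine ⟨a, ?_⟩
      rw [if_pos ha]
      exact ⟨h0, h2⟩
    · rintro ⟨a, ha⟩
      by_cases h : P a
      · rw [if_pos h] at ha
        exact ⟨ha.1, a, h, ha.2⟩
      · rw [if_neg h] at ha
        exact absurd ha (notMem_empty t)
  have hdisj : Pairwise (Function.onFun Disjoint S) := by
    intro a a' haa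
    rw [Function.onFun, Set.disjoint_left]
    intro t ht ht'
    simp only [hS] at ht ht'
    by_cases h : P a
    · by_cases h' : P a'
      · rw [if_pos h] at ht
        rw [if_pos h'] at ht'
        exact haa (hun t a a' h h' ht.2 ht'.2)
      · rw [if_neg h'] at ht'
        exact absurd ht' (notMem_empty t)
    · rw [if_neg h] at ht
      exact absurd ht (notMem_empty t)
  rw [h1, measure_iUnion hdisj hSm]
  have h2 : ∀ a : ℤ, volume (S a) =
      if P a then ENNReal.ofReal (1 / N) * volume (T ∩ Ico (a : ℝ) (a + N)) else 0 := by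
    intro a
    simp only [hS]
    split_ifs with h
    · exact slice_one T N hN a
    · exact measure_empty
  simp_rw [h2]
  rw [← (Int.divModEquiv N).symm.tsum_eq, ENNReal.tsum_prod' , ENNReal.tsum_comm, tsum_fintype]
  have h3 : ∀ j : Fin N, (∑' k : ℤ, (if P ((Int.divModEquiv N).symm (k, j)) then
      ENNReal.ofReal (1 / N) * volume (T ∩ Ico (((Int.divModEquiv N).symm (k, j) : ℤ) : ℝ)
        (((Int.divModEquiv N).symm (k, j) : ℤ) + N)) else 0)) =
      if P (j : ℕ) then ENNReal.ofReal (1 / N) * volume T else 0 := by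
    intro j
    have h4 : ∀ k : ℤ, (Int.divModEquiv N).symm (k, j) = ((j : ℕ) : ℤ) + k * N := by
      intro k
      rw [Int.divModEquiv_symm_apply]
      ring
    simp_rw [h4]
    simp only [hP]
    split_ifs with h
    · rw [ENNReal.tsum_mul_left]
      congr 1
      rw [← tile_sum T hT (j : ℕ) N hN']
      apply tsum_congr
      intro k
      congr 3
      · push_cast
        rw [zsmul_eq_mul]
      · push_cast
        rw [zsmul_eq_mul]
        push_cast
        ring
    · exact tsum_zero
  simp_rw [h3]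
  rw [← Finset.sum_filter, Finset.sum_const, nsmul_eq_mul, ← mul_assoc]
  congr 1
  rw [← ENNReal.ofReal_natCast, ← ENNReal.ofReal_mul (by positivity)]
  congr 1
  have h5 : (Finset.univ.filter (fun j : Fin N => P (j : ℕ))).card =
      ((Finset.range N).filter (fun j : ℕ => P j)).card := by
    rw [Finset.card_filter, Finset.card_filter]
    exact Fin.sum_univ_eq_sum_range (fun j : ℕ => if P (j : ℤ) then 1 else 0) N
  rw [h5]
  ring

end Pool.Agent.Helper94.NA
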