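import Mathlib
import Pool.Agent.Helper94.NA.Per
import Pool.Agent.Helper94.NA.Param

/-! # The slices of the limit region -/

set_option autoImplicit false

noncomputable section

open Filter Topology MeasureTheory Set

namespace Pool.Agent.Helper94.NA

/-- the interval of the parameters `τ` for which `(q τ, q y τ - 1)` is shorter than `(q, q y)` -/
def Tset (y q : ℝ) : Set ℝ := {τ | |τ| < max 1 |y| ∧ |q * y * τ - 1| < q * max 1 |y|}

/-- the condition on the parameter `t` -/
def Cond (N : ℕ) (y q t : ℝ) : Prop :=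
  ∀ a b : ℤ, IsCoprime a (b * N) → q * max 1 |y| ≤
      max (q * |a + b * N * t|) |q * y * (a + b * N * t) - b|

/-! ### a lemma on reduced bases -/

section norm

variable {E : Type*} [NormedAddCommGroup E] [NormedSpace ℝ E]

lemma reducedA (u v : E) (h1 : ‖u‖ ≤ ‖v‖) (h2 : ‖v‖ ≤ ‖u + v‖) (x : ℝ) (hx : 1 ≤ x) :
    ‖v‖ ≤ ‖u + x • v‖ := by
  have hx0 : 0 < x := by linarith
  have e : x • (u + v) = (x - 1) • u + (u + x • v) := by
    rw [smul_add, sub_smul, one_smul]; abel
  have h3 : x * ‖u + v‖ ≤ (x - 1) * ‖u‖ + ‖u + x • v‖ := by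
    calc x * ‖u + v‖ = ‖x • (u + v)‖ := by rw [norm_smul, Real.norm_of_nonneg hx0.le]
      _ ≤ ‖(x - 1) • u‖ + ‖u + x • v‖ := by rw [e]; exact norm_add_le _ _
      _ = _ := by rw [norm_smul, Real.norm_of_nonneg (by linarith)]
  nlinarith

lemma reducedB (u v : E) (h2 : ‖v‖ ≤ ‖u + v‖) (x : ℝ) (hx : 1 ≤ x) :
    ‖v‖ ≤ ‖x • u + v‖ := by
  have hx0 : 0 < x := by linarith
  have e : x • (u + v) = (x - 1) • v + (x • u + v) := by
    rw [smul_add, sub_smul, one_smul]; abel
  have h3 : x * ‖u + v‖ ≤ (x - 1) * ‖v‖ + ‖x • u + v‖ := by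
    calc x * ‖u + v‖ = ‖x • (u + v)‖ := by rw [norm_smul, Real.norm_of_nonneg hx0.le]
      _ ≤ ‖(x - 1) • v‖ + ‖x • u + v‖ := by rw [e]; exact norm_add_le _ _
      _ = _ := by rw [norm_smul, Real.norm_of_nonneg (by linarith)]
  nlinarith

lemma reducedC (u v : E) (h1 : ‖u‖ ≤ ‖v‖) (h2 : ‖v‖ ≤ ‖u + v‖) (b c : ℝ) (hb : 1 ≤ b)
    (hc : 1 ≤ c) : ‖v‖ ≤ ‖b • u + c • v‖ := by
  have hb0 : 0 < b := by linarith
  have hc0 : 0 < c := by linarith
  have hv := norm_nonneg v
  rcases le_total b c with h | h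
  · have e : b • u + c • v = b • (u + (c / b) • v) := by
      rw [smul_add, smul_smul, mul_div_cancel₀ _ hb0.ne']
    have h3 := reducedA u v h1 h2 (c / b) (by rw [le_div_iff₀ hb0]; linarith)
    rw [e, norm_smul, Real.norm_of_nonneg hb0.le]
    nlinarith
  · have e : b • u + c • v = c • ((b / c) • u + v) := by
      rw [smul_add, smul_smul, mul_div_cancel₀ _ hc0.ne']
    have h3 := reducedB u v h2 (b / c) (by rw [le_div_iff₀ hc0]; linarith)
    rw [e, norm_smul, Real.norm_of_nonneg hc0.le]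
    nlinarith

lemma reduced (u v : E) (h1 : ‖u‖ ≤ ‖v‖) (h2 : ‖v‖ ≤ ‖u + v‖) (h3 : ‖v‖ ≤ ‖u - v‖) (b c : ℤ)
    (hc : c ≠ 0) : ‖v‖ ≤ ‖(b : ℝ) • u + (c : ℝ) • v‖ := by
  have hv := norm_nonneg v
  have h3' : ‖v‖ ≤ ‖-u + v‖ := by
    rw [neg_add_eq_sub, norm_sub_rev]; exact h3
  have h1' : ‖-u‖ ≤ ‖v‖ := by rwa [norm_neg]
  rcases lt_trichotomy b 0 with hb | hb | hb
  · have hb1 : (1 : ℝ) ≤ -(b : ℝ) := by
      have : (1 : ℤ) ≤ -b := by omega
      exact_mod_cast this
    rcases lt_or_gt_of_ne hc with hc | hc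
    · have hc1 : (1 : ℝ) ≤ -(c : ℝ) := by
        have : (1 : ℤ) ≤ -c := by omega
        exact_mod_cast this
      have h := reducedC u v h1 h2 _ _ hb1 hc1
      rwa [neg_smul, neg_smul, ← neg_add, norm_neg] at h
    · have hc1 : (1 : ℝ) ≤ (c : ℝ) := by
        have : (1 : ℤ) ≤ c := by omega
        exact_mod_cast this
      have h := reducedC (-u) v h1' h3' _ _ hb1 hc1
      rwa [smul_neg, neg_smul, neg_neg] at h
  · rw [hb, Int.cast_zero, zero_smul, zero_add, norm_smul]
    have : (1 : ℝ) ≤ ‖(c : ℝ)‖ := by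
      rw [Real.norm_eq_abs, ← Int.cast_abs]
      exact_mod_cast Int.one_le_abs hc
    nlinarith
  · have hb1 : (1 : ℝ) ≤ (b : ℝ) := by
      have : (1 : ℤ) ≤ b := by omega
      exact_mod_cast this
    rcases lt_or_gt_of_ne hc with hc | hc
    · have hc1 : (1 : ℝ) ≤ -(c : ℝ) := by
        have : (1 : ℤ) ≤ -c := by omega
        exact_mod_cast this
      have h := reducedC (-u) v h1' h3' _ _ hb1 hc1
      have e : (b : ℝ) • (-u) + (-(c : ℝ)) • v = -((b : ℝ) • u + (c : ℝ) • v) := by
        rw [smul_neg, neg_smul, neg_add]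
      rwa [e, norm_neg] at h
    · have hc1 : (1 : ℝ) ≤ (c : ℝ) := by
        have : (1 : ℤ) ≤ c := by omega
        exact_mod_cast this
      exact reducedC u v h1 h2 _ _ hb1 hc1

end norm

/-! ### the condition in terms of the interval -/

lemma not_mem_Tset {y q τ : ℝ} (hq : 0 < q) (h : τ ∉ Tset y q) :
    q * max 1 |y| ≤ max (q * |τ|) |q * y * τ - 1| := by
  by_contra hc
  rw [not_le, max_lt_iff] at hc
  exact h ⟨lt_of_mul_lt_mul_left hc.1 hq.le, hc.2⟩

lemma mem_Tset_lt {y q τ : ℝ} (hq : 0 < q) (h : τ ∈ Tset y q) :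
    max (q * |τ|) |q * y * τ - 1| < q * max 1 |y| :=
  max_lt (mul_lt_mul_of_pos_left h.1 hq) h.2

lemma max_sq (y : ℝ) : max 1 (y ^ 2) = (max 1 |y|) ^ 2 := by
  rcases le_total 1 |y| with h | h
  · rw [max_eq_right h, sq_abs, max_eq_right]
    rw [← sq_abs]; nlinarith
  · rw [max_eq_left h, max_eq_left, one_pow]
    rw [← sq_abs]
    nlinarith [abs_nonneg y]

lemma cond_small (N : ℕ) (y q t : ℝ) (hq : 0 < q) (hs : q * max 1 (y ^ 2) ≤ 1) :
    Cond N y q t ↔ ¬ ∃ a : ℤ, IsCoprime a (N : ℤ) ∧ (a : ℝ) + N * t ∈ Tset y q := by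
  constructor
  · rintro h ⟨a, ha, hT⟩
    have h1 := h a 1 (by rwa [one_mul])
    have h2 := mem_Tset_lt hq hT
    rw [Int.cast_one, one_mul] at h1
    exact absurd h1 (not_le.2 h2)
  · intro h a b hab
    by_contra hc
    rw [not_le, max_lt_iff] at hc
    obtain ⟨h1, h2⟩ := hc
    set m := max 1 |y| with hm
    set τ : ℝ := a + b * N * t with hτ
    have hm1 : 1 ≤ m := le_max_left _ _
    have hmy : |y| ≤ m := le_max_right _ _
    have hτm : |τ| < m := lt_of_mul_lt_mul_left h1 hq.le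
    have hs' : q * m ^ 2 ≤ 1 := by rw [hm, ← max_sq]; exact hs
    have hb2 : |(b : ℝ)| < 2 := by
      have e : (b : ℝ) = q * y * τ - (q * y * τ - b) := by ring
      have h3 : |(b : ℝ)| ≤ |q * y * τ| + |q * y * τ - b| := by
        conv_lhs => rw [e]
        exact abs_sub _ _
      have h4 : |q * y * τ| ≤ q * m * m := by
        rw [abs_mul, abs_mul, abs_of_pos hq]
        have := abs_nonneg y
        have := abs_nonneg τ
        gcongr
      have h5 : q * m ≤ q * m ^ 2 := by
        nlinarith [mul_nonneg (mul_nonneg hq.le (by linarith : (0 : ℝ) ≤ m)) (sub_nonneg.2 hm1)]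
      nlinarith
    have hb3 : |b| < 2 := by exact_mod_cast hb2
    rw [abs_lt] at hb3
    have hb4 : b = -1 ∨ b = 0 ∨ b = 1 := by omega
    rcases hb4 with hb | hb | hb
    · apply h
      refine ⟨-a, ?_, ?_⟩
      · rw [hb] at hab
        rw [IsCoprime.neg_left_iff]
        rwa [neg_one_mul, IsCoprime.neg_right_iff] at hab
      · have e : ((-a : ℤ) : ℝ) + N * t = -τ := by
          rw [hτ, hb]; push_cast; ring
        rw [e]
        refine ⟨by rwa [abs_neg], ?_⟩
        have e2 : q * y * -τ - 1 = -(q * y * τ - b) := by rw [hb]; push_cast; ring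
        rw [e2, abs_neg]
        exact h2
    · rw [hb, zero_mul, isCoprime_zero_right, Int.isUnit_iff] at hab
      have hτ1 : |τ| = 1 := by
        rw [hτ, hb]
        rcases hab with ha | ha <;> rw [ha] <;> simp
      rw [hτ1] at hτm
      have hym : m = |y| := by
        rcases le_total 1 |y| with h' | h'
        · rw [hm, max_eq_right h']
        · rw [hm, max_eq_left h'] at hτm
          exact absurd hτm (lt_irrefl _)
      rw [hb, Int.cast_zero, sub_zero, abs_mul, hτ1, mul_one, abs_mul, abs_of_pos hq, hym] at h2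
      exact lt_irrefl _ h2
    · apply h
      refine ⟨a, ?_, ?_⟩
      · rwa [hb, one_mul] at hab
      · have e : (a : ℝ) + N * t = τ := by
          rw [hτ, hb]; push_cast; ring
        rw [e]
        refine ⟨hτm, ?_⟩
        have e2 : q * y * τ - 1 = q * y * τ - b := by rw [hb]; push_cast; ring
        rw [e2]
        exact h2

lemma cond_large (N p : ℕ) (hp : 2 ≤ p) (hN : ∀ a : ℤ, IsCoprime a (N : ℤ) ↔ ¬ (p : ℤ) ∣ a)
    (y q t : ℝ) (hq : 0 < q) (α β : ℝ) (hT : Tset y q = Ioo α β) (hL : 1 < β - α) :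
    Cond N y q t ↔ ∃ a : ℤ, (p : ℤ) ∣ a ∧
      (a : ℝ) + N * t ∈ {τ | τ ∈ Tset y q ∧ τ + 1 ∉ Tset y q ∧ τ - 1 ∉ Tset y q} := by
  constructor
  · intro h
    have key : ∀ a : ℤ, (a : ℝ) + N * t ∈ Tset y q → (p : ℤ) ∣ a := by
      intro a ha
      by_contra hpa
      have h1 := h a 1 (by rw [one_mul]; exact (hN a).2 hpa)
      have h2 := mem_Tset_lt hq ha
      rw [Int.cast_one, one_mul] at h1
      exact absurd h1 (not_le.2 h2)
    have hnd : ∀ a : ℤ, (p : ℤ) ∣ a → ¬ (p : ℤ) ∣ a + 1 := by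
      intro a h1 h2
      have h3 : (p : ℤ) ∣ 1 := by
        have := dvd_sub h2 h1
        rwa [add_sub_cancel_left] at this
      have h4 := Int.le_of_dvd one_pos h3
      omega
    set a : ℤ := ⌊α - N * t⌋ + 1 with ha
    have h5 : (⌊α - N * t⌋ : ℝ) ≤ α - N * t := Int.floor_le _
    have h6 : α - N * t < ⌊α - N * t⌋ + 1 := Int.lt_floor_add_one _
    have haT : (a : ℝ) + N * t ∈ Tset y q := by
      rw [hT, ha]
      push_cast
      constructor <;> linarith
    refine ⟨a, key a haT, haT, ?_, ?_⟩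
    · intro hc
      apply hnd a (key a haT)
      apply key
      have e : ((a + 1 : ℤ) : ℝ) + N * t = a + N * t + 1 := by push_cast; ring
      rwa [e]
    · intro hc
      have h7 : (p : ℤ) ∣ a - 1 := by
        apply key
        have e : ((a - 1 : ℤ) : ℝ) + N * t = a + N * t - 1 := by push_cast; ring
        rwa [e]
      apply hnd (a - 1) h7
      rw [sub_add_cancel]
      exact key a haT
  · rintro ⟨a, hpa, h1, h2, h3⟩
    set τ : ℝ := a + N * t with hτ
    intro a' b' hab
    set u : ℝ × ℝ := (q * τ, q * y * τ - 1) with hu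
    set v : ℝ × ℝ := (q, q * y) with hv
    have hnv : ‖v‖ = q * max 1 |y| := by
      rw [hv, Prod.norm_mk, Real.norm_eq_abs, Real.norm_eq_abs, abs_mul, abs_of_pos hq,
        mul_max_of_nonneg _ _ hq.le, mul_one]
    have hnw : ∀ x z : ℝ, ‖((q * x, z) : ℝ × ℝ)‖ = max (q * |x|) |z| := by
      intro x z
      rw [Prod.norm_mk, Real.norm_eq_abs, Real.norm_eq_abs, abs_mul, abs_of_pos hq]
    have g1 : ‖u‖ ≤ ‖v‖ := by
      rw [hnv, hu, hnw]
      exact (mem_Tset_lt hq h1).le
    have g2 : ‖v‖ ≤ ‖u + v‖ := by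
      have e : u + v = (q * (τ + 1), q * y * (τ + 1) - 1) := by
        rw [hu, hv]
        ext <;> simp <;> ring
      rw [hnv, e, hnw]
      exact not_mem_Tset hq h2
    have g3 : ‖v‖ ≤ ‖u - v‖ := by
      have e : u - v = (q * (τ - 1), q * y * (τ - 1) - 1) := by
        rw [hu, hv]
        ext <;> simp <;> ring
      rw [hnv, e, hnw]
      exact not_mem_Tset hq h3
    have hpa' : ¬ (p : ℤ) ∣ a' := (hN a').1 hab.of_mul_right_right
    have hc : a' - b' * a ≠ 0 := by
      intro h
      apply hpa'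
      rw [sub_eq_zero.1 h]
      exact Dvd.dvd.mul_left hpa b'
    have g4 := reduced u v g1 g2 g3 b' (a' - b' * a) hc
    have e : (b' : ℝ) • u + ((a' - b' * a : ℤ) : ℝ) • v =
        (q * (a' + b' * N * t), q * y * (a' + b' * N * t) - b') := by
      rw [hu, hv, hτ]
      ext
      · simp
        ring
      · simp
        ring
    rw [e, hnv, hnw] at g4
    exact g4

/-! ### the shape of the interval -/

/-- `z` coordinate -/
def zc (y : ℝ) : ℝ := min |y| |y|⁻¹

/-- `s` coordinate -/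
def sc (y q : ℝ) : ℝ := q * max 1 (y ^ 2)

lemma zc_pos {y : ℝ} (hy : y ≠ 0) : 0 < zc y := by
  have := abs_pos.2 hy
  unfold zc
  positivity

lemma zc_le_one (y : ℝ) : zc y ≤ 1 := by
  unfold zc
  rcases le_total |y| 1 with h | h
  · exact (min_le_left _ _).trans h
  · exact (min_le_right _ _).trans (inv_le_one_of_one_le₀ h)

lemma Tset_neg (y q : ℝ) : Tset (-y) q = {τ | -τ ∈ Tset y q} := by
  ext τ
  unfold Tset
  simp only [mem_ofPred_eq, abs_neg]
  rw [show q * -y * τ - 1 = q * y * -τ - 1 by ring]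

lemma Tset_pos (y q : ℝ) (hy : 0 < y) (hq : 0 < q) : ∃ α β, Tset y q = Ioo α β ∧
    (sc y q ≤ 1 → β - α = 1 - (1 / sc y q - 1) / zc y) ∧
    (1 < sc y q → β - α = 1 + min 1 ((1 - 1 / sc y q) / zc y)) := by
  have hay : |y| = y := abs_of_pos hy
  rcases le_total y 1 with h | h
  · -- `y ≤ 1`
    have hz : zc y = y := by
      unfold zc
      rw [hay, min_eq_left]
      exact h.trans (one_le_inv_iff₀.2 ⟨hy, h⟩)
    have hm : max 1 |y| = 1 := by rw [hay]; exact max_eq_left h
    have hs : sc y q = q := by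
      unfold sc
      rw [max_eq_left (by nlinarith), mul_one]
    rw [hz, hs]
    have hqy : 0 < q * y := mul_pos hq hy
    have hform : Tset y q = Ioo (max (-1) ((1 / q - 1) / y)) 1 := by
      ext τ
      unfold Tset
      rw [hm, mul_one]
      simp only [mem_ofPred_eq, mem_Ioo, max_lt_iff, abs_lt]
      have e1 : (1 / q - 1) / y < τ ↔ -q < q * y * τ - 1 := by
        rw [div_lt_iff₀ hy]
        constructor
        · intro h'
          have := mul_lt_mul_of_pos_left h' hq
          have e : q * (1 / q - 1) = 1 - q := by field_simp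
          rw [e] at this
          nlinarith
        · intro h'
          have h2 : q * (1 / q - 1) < q * (τ * y) := by
            have e : q * (1 / q - 1) = 1 - q := by field_simp
            rw [e]
            nlinarith
          exact lt_of_mul_lt_mul_left h2 hq.le
      constructor
      · rintro ⟨⟨h1, h2⟩, h3, h4⟩
        exact ⟨⟨h1, e1.2 h3⟩, h2⟩
      · rintro ⟨⟨h1, h2⟩, h3⟩
        refine ⟨⟨h1, h3⟩, e1.1 h2, ?_⟩
        nlinarith
    refine ⟨_, _, hform, ?_, ?_⟩
    · intro hs1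
      have : 0 ≤ (1 / q - 1) / y := by
        apply div_nonneg _ hy.le
        rw [sub_nonneg, le_div_iff₀ hq]
        linarith
      rw [max_eq_right (by linarith)]
    · intro hs1
      have e : (1 / q - 1) / y = -((1 - 1 / q) / y) := by ring
      rw [e]
      rcases le_total 1 ((1 - 1 / q) / y) with h' | h'
      · rw [min_eq_left h', max_eq_left (by linarith)]; ring
      · rw [min_eq_right h', max_eq_right (by linarith)]; ring
  · -- `1 ≤ y`
    have hz : zc y = y⁻¹ := by
      unfold zc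
      rw [hay, min_eq_right]
      exact (inv_le_one_of_one_le₀ h).trans h
    have hm : max 1 |y| = y := by rw [hay]; exact max_eq_right h
    have hs : sc y q = q * y ^ 2 := by
      unfold sc
      rw [max_eq_right (by nlinarith)]
    rw [hz, hs]
    have hqy : 0 < q * y := mul_pos hq hy
    have hqy2 : 0 < q * y ^ 2 := by positivity
    have hform : Tset y q = Ioo (max (-y) (1 / (q * y) - 1)) (min y (1 / (q * y) + 1)) := by
      ext τ
      unfold Tset
      rw [hm]
      simp only [mem_ofPred_eq, mem_Ioo, max_lt_iff, lt_min_iff, abs_lt]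
      have e0 : q * y * (1 / (q * y)) = 1 := by field_simp
      have e1 : 1 / (q * y) - 1 < τ ↔ -(q * y) < q * y * τ - 1 := by
        constructor
        · intro h'
          have := mul_lt_mul_of_pos_left h' hqy
          nlinarith
        · intro h'
          have h2 : q * y * (1 / (q * y) - 1) < q * y * τ := by nlinarith
          exact lt_of_mul_lt_mul_left h2 hqy.le
      have e2 : τ < 1 / (q * y) + 1 ↔ q * y * τ - 1 < q * y := by
        constructor
        · intro h'
          have := mul_lt_mul_of_pos_left h' hqy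
          nlinarith
        · intro h'
          have h2 : q * y * τ < q * y * (1 / (q * y) + 1) := by nlinarith
          exact lt_of_mul_lt_mul_left h2 hqy.le
      rw [e1, e2]
      tauto
    have hlow : max (-y) (1 / (q * y) - 1) = 1 / (q * y) - 1 := by
      apply max_eq_right
      have : 0 < 1 / (q * y) := by positivity
      linarith
    rw [hlow] at hform
    have e3 : 1 / (q * y ^ 2) = 1 / (q * y) * y⁻¹ := by field_simp
    have hy0 : y ≠ 0 := hy.ne'
    refine ⟨_, _, hform, ?_, ?_⟩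
    · intro hs1
      have h5 : y ≤ 1 / (q * y) := by
        rw [le_div_iff₀ hqy]; nlinarith
      rw [min_eq_left (by linarith), e3, div_inv_eq_mul]
      field_simp
      ring
    · intro hs1
      have e4 : (1 - 1 / (q * y ^ 2)) / y⁻¹ = y - 1 / (q * y) := by
        rw [e3, div_inv_eq_mul]
        field_simp
      rw [e4]
      rcases le_total 1 (y - 1 / (q * y)) with h' | h'
      · rw [min_eq_left h', min_eq_right (by linarith)]; ring
      · rw [min_eq_right h', min_eq_left (by linarith)]; ring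

lemma Tset_form (y q : ℝ) (hy : y ≠ 0) (hq : 0 < q) : ∃ α β, Tset y q = Ioo α β ∧
    (sc y q ≤ 1 → β - α = 1 - (1 / sc y q - 1) / zc y) ∧
    (1 < sc y q → β - α = 1 + min 1 ((1 - 1 / sc y q) / zc y)) := by
  rcases lt_or_gt_of_ne hy with h | h
  · obtain ⟨α, β, h1, h2, h3⟩ := Tset_pos (-y) q (by linarith) hq
    have e1 : sc (-y) q = sc y q := by unfold sc; rw [neg_sq]
    have e2 : zc (-y) = zc y := by unfold zc; rw [abs_neg]
    rw [e1, e2] at h2 h3
    refine ⟨-β, -α, ?_, ?_, ?_⟩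
    · have h4 : Tset y q = {τ | -τ ∈ Tset (-y) q} := by
        rw [← Tset_neg, neg_neg]
      rw [h4, h1]
      ext τ
      simp only [mem_ofPred_eq, mem_Ioo]
      constructor
      · rintro ⟨h5, h6⟩; constructor <;> linarith
      · rintro ⟨h5, h6⟩; constructor <;> linarith
    · intro h5; rw [← h2 h5]; ring
    · intro h5; rw [← h3 h5]; ring
  · exact Tset_pos y q h hq

/-- the weight `max (0, 1 - |1/s - 1| / z)` -/
def wz (z s : ℝ) : ℝ := max 0 (1 - |1 / s - 1| / z)

lemma wz_nonneg (z s : ℝ) : 0 ≤ wz z s := le_max_left _ _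

lemma wz_le_one (z s : ℝ) (hz : 0 < z) : wz z s ≤ 1 := by
  unfold wz
  apply max_le zero_le_one
  have : 0 ≤ |1 / s - 1| / z := by positivity
  linarith

lemma sc_pos (y q : ℝ) (hq : 0 < q) : 0 < sc y q := by
  unfold sc
  have : 0 < max 1 (y ^ 2) := lt_of_lt_of_le one_pos (le_max_left _ _)
  positivity

lemma card_coprime (N : ℕ) :
    ((Finset.range N).filter (fun j : ℕ => IsCoprime (j : ℤ) (N : ℤ))).card = N.totient := by
  rw [Nat.totient_eq_card_coprime]
  congr 1
  apply Finset.filter_congr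
  intro j _
  rw [Nat.isCoprime_iff_coprime, Nat.coprime_comm]

lemma slice_small (N : ℕ) (hN : 0 < N) (y q : ℝ) (hy : y ≠ 0) (hq : 0 < q) (hs : sc y q ≤ 1) :
    volume {t : ℝ | t ∈ Ico (0 : ℝ) 1 ∧ Cond N y q t} =
      ENNReal.ofReal (1 - (N.totient : ℝ) / N * wz (zc y) (sc y q)) := by
  classical
  have hN' : (0 : ℝ) < N := by exact_mod_cast hN
  obtain ⟨α, β, h1, h2, -⟩ := Tset_form y q hy hq
  have h2 := h2 hs
  have hz := zc_pos hy
  have hsp := sc_pos y q hq
  have h3 : 0 ≤ 1 / sc y q - 1 := by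
    rw [sub_nonneg, le_div_iff₀ hsp]; linarith
  have hL1 : β - α ≤ 1 := by
    rw [h2]
    have : 0 ≤ (1 / sc y q - 1) / zc y := div_nonneg h3 hz.le
    linarith
  have hTm : MeasurableSet (Tset y q) := by rw [h1]; exact measurableSet_Ioo
  have hper := periodic_measure (Tset y q) hTm N hN (fun a : ℤ => IsCoprime a (N : ℤ))
    (fun a k => by rw [IsCoprime.add_mul_right_left_iff])
    (by
      intro t a a' _ _ ha ha'
      rw [h1] at ha ha'
      by_contra hne
      have h4 : (1 : ℝ) ≤ |((a - a' : ℤ) : ℝ)| := by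
        rw [← Int.cast_abs]
        exact_mod_cast Int.one_le_abs (sub_ne_zero.2 hne)
      have h5 : |((a - a' : ℤ) : ℝ)| < 1 := by
        rw [abs_lt]
        push_cast
        constructor <;> linarith [ha.1, ha.2, ha'.1, ha'.2]
      linarith)
  rw [card_coprime] at hper
  have hvol : volume (Tset y q) = ENNReal.ofReal (wz (zc y) (sc y q)) := by
    rw [h1, Real.volume_Ioo, h2]
    unfold wz
    rw [abs_of_nonneg h3]
    rcases le_total 0 (1 - (1 / sc y q - 1) / zc y) with h' | h'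
    · rw [max_eq_right h']
    · rw [max_eq_left h', ENNReal.ofReal_of_nonpos h', ENNReal.ofReal_zero]
  rw [hvol, ← ENNReal.ofReal_mul (by positivity)] at hper
  have hset : {t : ℝ | t ∈ Ico (0 : ℝ) 1 ∧ Cond N y q t} = Ico (0 : ℝ) 1 \
      {t : ℝ | t ∈ Ico (0 : ℝ) 1 ∧ ∃ a : ℤ, IsCoprime a (N : ℤ) ∧ (a : ℝ) + N * t ∈ Tset y q} := by
    ext t
    simp only [mem_ofPred_eq, Set.mem_sdiff, not_and]
    constructor
    · rintro ⟨h5, h6⟩
      exact ⟨h5, fun _ => (cond_small N y q t hq hs).1 h6⟩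
    · rintro ⟨h5, h6⟩
      exact ⟨h5, (cond_small N y q t hq hs).2 (h6 h5)⟩
  rw [hset, measure_sdiff]
  · rw [hper, Real.volume_Ico, sub_zero, ← ENNReal.ofReal_sub]
    have := wz_nonneg (zc y) (sc y q)
    positivity
  · exact fun t ht => ht.1
  · apply MeasurableSet.nullMeasurableSet
    have e : {t : ℝ | t ∈ Ico (0 : ℝ) 1 ∧ ∃ a : ℤ, IsCoprime a (N : ℤ) ∧
        (a : ℝ) + N * t ∈ Tset y q} = Ico (0 : ℝ) 1 ∩ ⋃ a : ℤ, {t : ℝ | IsCoprime a (N : ℤ) ∧
        (a : ℝ) + N * t ∈ Tset y q} := by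
      ext t
      simp only [mem_ofPred_eq, mem_inter_iff, mem_iUnion]
    rw [e]
    apply measurableSet_Ico.inter
    apply MeasurableSet.iUnion
    intro a
    by_cases h : IsCoprime a (N : ℤ)
    · simp only [h, true_and]
      exact hTm.preimage (by fun_prop)
    · simp only [h, false_and]
      exact MeasurableSet.empty
  · rw [hper]
    exact ENNReal.ofReal_ne_top

lemma card_dvd (p k : ℕ) (hp : 0 < p) :
    ((Finset.range (p ^ (k + 1))).filter (fun j : ℕ => (p : ℤ) ∣ (j : ℤ))).card = p ^ k := by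
  have h1 : (Finset.range (p ^ (k + 1))).filter (fun j : ℕ => (p : ℤ) ∣ (j : ℤ)) =
      (Finset.range (p ^ k)).image (fun i => p * i) := by
    ext j
    simp only [Finset.mem_filter, Finset.mem_range, Finset.mem_image, Int.natCast_dvd_natCast]
    constructor
    · rintro ⟨h2, i, rfl⟩
      refine ⟨i, ?_, rfl⟩
      rw [pow_succ, mul_comm] at h2
      exact lt_of_mul_lt_mul_right h2 (Nat.zero_le p)
    · rintro ⟨i, h2, rfl⟩
      refine ⟨?_, dvd_mul_right _ _⟩
      rw [pow_succ, mul_comm]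
      exact Nat.mul_lt_mul_of_pos_right h2 hp
  rw [h1, Finset.card_image_of_injective, Finset.card_range]
  exact fun a b hab => Nat.eq_of_mul_eq_mul_left hp hab

lemma slice_large (p k : ℕ) (hp : p.Prime) (y q : ℝ) (hy : y ≠ 0) (hq : 0 < q)
    (hs : 1 < sc y q) :
    volume {t : ℝ | t ∈ Ico (0 : ℝ) 1 ∧ Cond (p ^ (k + 1)) y q t} =
      ENNReal.ofReal (1 / p * wz (zc y) (sc y q)) := by
  classical
  have hp2 := hp.two_le
  have hN : 0 < p ^ (k + 1) := by positivity
  have hp' : (0 : ℝ) < p := by exact_mod_cast hp.pos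
  have hNcop : ∀ a : ℤ, IsCoprime a ((p ^ (k + 1) : ℕ) : ℤ) ↔ ¬ (p : ℤ) ∣ a := by
    intro a
    push_cast
    rw [IsCoprime.pow_right_iff (by omega), isCoprime_comm,
      (Nat.prime_iff_prime_int.1 hp).coprime_iff_not_dvd]
  obtain ⟨α, β, h1, -, h2⟩ := Tset_form y q hy hq
  have h2 := h2 hs
  have hz := zc_pos hy
  have hsp := sc_pos y q hq
  have h3 : 0 < 1 - 1 / sc y q := by
    rw [sub_pos, div_lt_iff₀ hsp]; linarith
  have h4 : 0 < (1 - 1 / sc y q) / zc y := by positivity
  have hL1 : 1 < β - α := by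
    rw [h2]
    have : 0 < min 1 ((1 - 1 / sc y q) / zc y) := lt_min one_pos h4
    linarith
  have hL2 : β - α ≤ 2 := by
    rw [h2]
    have : min 1 ((1 - 1 / sc y q) / zc y) ≤ 1 := min_le_left _ _
    linarith
  set R : Set ℝ := {τ | τ ∈ Tset y q ∧ τ + 1 ∉ Tset y q ∧ τ - 1 ∉ Tset y q} with hR
  have hRform : R = Icc (β - 1) (α + 1) := by
    ext τ
    rw [hR, h1]
    simp only [mem_ofPred_eq, mem_Ioo, mem_Icc, not_and, not_lt]
    constructor
    · rintro ⟨⟨h5, h6⟩, h7, h8⟩
      constructor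
      · linarith [h7 (by linarith)]
      · by_contra hc
        rw [not_le] at hc
        linarith [h8 (by linarith)]
    · rintro ⟨h5, h6⟩
      refine ⟨⟨by linarith, by linarith⟩, fun _ => by linarith, fun h7 => ?_⟩
      linarith
  have hRm : MeasurableSet R := by rw [hRform]; exact measurableSet_Icc
  have hper := periodic_measure R hRm (p ^ (k + 1)) hN (fun a : ℤ => (p : ℤ) ∣ a)
    (fun a j => by
      have h5 : (p : ℤ) ∣ j * ((p ^ (k + 1) : ℕ) : ℤ) := by
        push_cast
        rw [pow_succ]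
        exact Dvd.intro_left (j * (p : ℤ) ^ k) (by ring)
      exact (dvd_add_left h5))
    (by
      intro t a a' hpa hpa' ha ha'
      rw [hRform] at ha ha'
      by_contra hne
      have h5 : (p : ℤ) ∣ a - a' := dvd_sub hpa hpa'
      have h6 : (2 : ℤ) ≤ |a - a'| := by
        have h7 := Int.le_of_dvd (abs_pos.2 (sub_ne_zero.2 hne)) ((dvd_abs _ _).2 h5)
        have h8 : (2 : ℤ) ≤ p := by exact_mod_cast hp2
        omega
      have h7 : (2 : ℝ) ≤ |((a - a' : ℤ) : ℝ)| := by
        rw [← Int.cast_abs]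
        exact_mod_cast h6
      have h8 : |((a - a' : ℤ) : ℝ)| ≤ 1 := by
        rw [abs_le]
        push_cast
        constructor <;> linarith [ha.1, ha.2, ha'.1, ha'.2]
      linarith)
  rw [card_dvd p k hp.pos] at hper
  have hset : {t : ℝ | t ∈ Ico (0 : ℝ) 1 ∧ Cond (p ^ (k + 1)) y q t} =
      {t : ℝ | t ∈ Ico (0 : ℝ) 1 ∧ ∃ a : ℤ, (p : ℤ) ∣ a ∧
        (a : ℝ) + ((p ^ (k + 1) : ℕ) : ℝ) * t ∈ R} := by
    ext t
    simp only [mem_ofPred_eq]
    rw [cond_large (p ^ (k + 1)) p hp2 hNcop y q t hq α β h1 hL1]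
  rw [hset, hper, hRform, Real.volume_Icc, ← ENNReal.ofReal_mul (by positivity)]
  have e1 : ((p ^ k : ℕ) : ℝ) / ((p ^ (k + 1) : ℕ) : ℝ) = 1 / p := by
    push_cast
    rw [pow_succ]
    field_simp
  have e2 : α + 1 - (β - 1) = wz (zc y) (sc y q) := by
    unfold wz
    have e3 : |1 / sc y q - 1| = 1 - 1 / sc y q := by
      rw [abs_sub_comm, abs_of_pos h3]
    rw [e3]
    rcases le_total 1 ((1 - 1 / sc y q) / zc y) with h' | h'
    · rw [min_eq_left h'] at h2
      rw [max_eq_left (by linarith)]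
      linarith
    · rw [min_eq_right h'] at h2
      rw [max_eq_right (by linarith)]
      linarith
  rw [e1, e2]

end Pool.Agent.Helper94.NA
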