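import Mathlib
import Pool.Agent.Helper94.NA.Slice
import Pool.Agent.Helper94.NA.Mean

/-! # The volume of the limit region -/

set_option autoImplicit false

noncomputable section

open Filter Topology MeasureTheory Set

namespace Pool.Agent.Helper94.NA

/-- the weight of a slice -/
def gam (c z s : ℝ) : ℝ := if s ≤ 1 then 1 - c * wz z s else (1 - c) * wz z s

lemma measurable_wz : Measurable (fun p : ℝ × ℝ => wz p.1 p.2) := by
  unfold wz
  fun_prop

lemma measurable_gam (c : ℝ) : Measurable (fun p : ℝ × ℝ => gam c p.1 p.2) := by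
  unfold gam
  apply Measurable.ite
  · exact measurableSet_le measurable_snd measurable_const
  · exact measurable_const.sub (measurable_const.mul measurable_wz)
  · exact measurable_const.mul measurable_wz

lemma gam_nonneg {c : ℝ} (h0 : 0 ≤ c) (h1 : c ≤ 1) (z s : ℝ) (hz : 0 < z) : 0 ≤ gam c z s := by
  unfold gam
  have h2 := wz_nonneg z s
  have h3 := wz_le_one z s hz
  split_ifs
  · nlinarith
  · nlinarith

lemma slice (N : ℕ) (hN : 0 < N) (y q : ℝ) (hy : y ≠ 0) (hq : 0 < q)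
    (h : sc y q ≤ 1 ∨ ∃ p k : ℕ, p.Prime ∧ N = p ^ (k + 1)) :
    volume {t : ℝ | t ∈ Ico (0 : ℝ) 1 ∧ Cond N y q t} =
      ENNReal.ofReal (gam ((N.totient : ℝ) / N) (zc y) (sc y q)) := by
  unfold gam
  split_ifs with hs
  · exact slice_small N hN y q hy hq hs
  · rcases h with h | ⟨p, k, hp, rfl⟩
    · exact absurd h hs
    · rw [slice_large p k hp y q hy hq (not_le.1 hs)]
      congr 2
      rw [Nat.totient_prime_pow_succ hp]
      have hp' : (0 : ℝ) < p := by exact_mod_cast hp.pos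
      rw [Nat.cast_mul, Nat.cast_sub hp.one_le]
      push_cast
      rw [pow_succ]
      field_simp
      ring

lemma measurableSet_Ele (N : ℕ) (r : ℝ) : MeasurableSet (Ele N r) := by
  have e : Ele N r = ({p : ℝ × ℝ × ℝ | 0 ≤ p.2.1} ∩ {p : ℝ × ℝ × ℝ | p.2.1 < 1}) ∩
      ({p : ℝ × ℝ × ℝ | 0 < p.2.2} ∩ ({p : ℝ × ℝ × ℝ | p.2.2 * max 1 (p.1 ^ 2) ≤ r ^ 2} ∩
        ⋂ (a : ℤ), ⋂ (b : ℤ), ⋂ (_ : IsCoprime a (b * N)),
          {p : ℝ × ℝ × ℝ | p.2.2 * max 1 |p.1| ≤ cmp N p a b})) := by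
    ext p
    simp only [Ele, mem_inter_iff, mem_ofPred_eq, mem_iInter]
  rw [e]
  have m1 : Measurable (fun p : ℝ × ℝ × ℝ => p.2.1) := by fun_prop
  have m2 : Measurable (fun p : ℝ × ℝ × ℝ => p.2.2) := by fun_prop
  apply MeasurableSet.inter
  · exact (measurableSet_le measurable_const m1).inter (measurableSet_lt m1 measurable_const)
  · apply (measurableSet_lt measurable_const m2).inter
    apply (measurableSet_le continuous_nrm2.measurable measurable_const).inter
    exact MeasurableSet.iInter fun a => MeasurableSet.iInter fun b => MeasurableSet.iInter fun _ =>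
      measurableSet_le continuous_lhs.measurable (continuous_cmp N a b).measurable

/-- scaling of the inner integral -/
lemma lintegral_scale (f : ℝ → ENNReal) (M : ℝ) (hM : 0 < M) :
    ∫⁻ q, f (q * M) = ENNReal.ofReal M⁻¹ * ∫⁻ s, f s := by
  have h1 := Real.map_volume_mul_right hM.ne'
  have h2 : ∫⁻ q, f (q * M) = ∫⁻ s, f s ∂(Measure.map (· * M) volume) := by
    have he : MeasurableEmbedding (fun x : ℝ => x * M) := measurableEmbedding_mulRight₀ hM.ne'
    rw [he.lintegral_map]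
  rw [h2, h1, lintegral_smul_measure, abs_of_pos (inv_pos.2 hM)]
  rfl

lemma lintegral_zc (Φ : ℝ → ENNReal) :
    ∫⁻ y, ENNReal.ofReal (max 1 (y ^ 2))⁻¹ * Φ (zc y) = 4 * ∫⁻ z in Ioo (0 : ℝ) 1, Φ z := by
  set f : ℝ → ENNReal := fun y => ENNReal.ofReal (max 1 (y ^ 2))⁻¹ * Φ (zc y) with hf
  have hneg : ∀ y, f (-y) = f y := by
    intro y
    simp only [hf, neg_sq]
    rw [show zc (-y) = zc y by unfold zc; rw [abs_neg]]
  have h1 : ∫⁻ y, f y = (∫⁻ y in Ioi (0 : ℝ), f y) + ∫⁻ y in Iio (0 : ℝ), f y := by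
    rw [← lintegral_add_compl f (measurableSet_Ioi (a := (0 : ℝ))), compl_Ioi]
    congr 1
    exact setLIntegral_congr Iio_ae_eq_Iic.symm
  have h2 : ∫⁻ y in Iio (0 : ℝ), f y = ∫⁻ y in Ioi (0 : ℝ), f y := by
    have h3 := (Measure.measurePreserving_neg (volume : Measure ℝ)).setLIntegral_comp_preimage_emb
      (MeasurableEquiv.neg ℝ).measurableEmbedding f (Iio 0)
    rw [← h3]
    have e : (Neg.neg ⁻¹' Iio (0 : ℝ)) = Ioi 0 := by
      ext x; simp
    rw [e]
    exact lintegral_congr fun y => hneg y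
  have h4 : ∫⁻ y in Ioi (0 : ℝ), f y = (∫⁻ y in Ioo (0 : ℝ) 1, f y) + ∫⁻ y in Ioi (1 : ℝ), f y := by
    rw [← Ioc_union_Ioi_eq_Ioi (zero_le_one (α := ℝ)),
      lintegral_union measurableSet_Ioi (by
        rw [Set.disjoint_left]
        intro x hx hx'
        exact absurd hx' (not_lt.2 hx.2))]
    congr 1
    exact setLIntegral_congr Ioo_ae_eq_Ioc.symm
  have h5 : ∫⁻ y in Ioo (0 : ℝ) 1, f y = ∫⁻ z in Ioo (0 : ℝ) 1, Φ z := by
    apply setLIntegral_congr_fun measurableSet_Ioo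
    intro y hy
    have hz : zc y = y := by
      unfold zc
      rw [abs_of_pos hy.1, min_eq_left]
      exact hy.2.le.trans (one_le_inv_iff₀.2 ⟨hy.1, hy.2.le⟩)
    have hm : max 1 (y ^ 2) = 1 := max_eq_left (by nlinarith [hy.1, hy.2])
    simp only [hf]
    rw [hz, hm, inv_one, ENNReal.ofReal_one, one_mul]
  have h6 : ∫⁻ z in Ioo (0 : ℝ) 1, Φ z = ∫⁻ y in Ioi (1 : ℝ), f y := by
    have e : (fun x : ℝ => x⁻¹) '' Ioi (1 : ℝ) = Ioo 0 1 := by
      ext x
      simp only [mem_image, mem_Ioi, mem_Ioo]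
      constructor
      · rintro ⟨y, hy, rfl⟩
        have : 0 < y := by linarith
        exact ⟨inv_pos.2 this, inv_lt_one_of_one_lt₀ hy⟩
      · rintro ⟨h7, h8⟩
        exact ⟨x⁻¹, (one_lt_inv₀ h7).2 h8, inv_inv x⟩
    rw [← e, lintegral_image_eq_lintegral_abs_deriv_mul (f' := fun x => -(x ^ 2)⁻¹)
      measurableSet_Ioi (fun x hx => (hasDerivAt_inv (by
        have : (1 : ℝ) < x := hx
        linarith)).hasDerivWithinAt) inv_injective.injOn]
    apply setLIntegral_congr_fun measurableSet_Ioi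
    intro y hy
    have hy1 : (1 : ℝ) < y := hy
    have hy0 : 0 < y := by linarith
    have hz : zc y = y⁻¹ := by
      unfold zc
      rw [abs_of_pos hy0, min_eq_right]
      exact (inv_le_one_of_one_le₀ hy1.le).trans hy1.le
    have hm : max 1 (y ^ 2) = y ^ 2 := max_eq_right (by nlinarith)
    simp only [hf]
    rw [hz, hm, abs_neg, abs_of_pos (by positivity)]
  rw [h1, h2, h4, ← h6, h5]
  ring

theorem vol_Ele (N : ℕ) (hN : 0 < N) (r : ℝ)
    (h : r ^ 2 ≤ 1 ∨ ∃ p k : ℕ, p.Prime ∧ N = p ^ (k + 1)) :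
    volume (Ele N r) = 4 * ∫⁻ z in Ioo (0 : ℝ) 1, ∫⁻ s in Ioc (0 : ℝ) (r ^ 2),
      ENNReal.ofReal (gam ((N.totient : ℝ) / N) z s) := by
  rw [Measure.volume_eq_prod, Measure.prod_apply (measurableSet_Ele N r), ← lintegral_zc]
  apply lintegral_congr_ae
  have h0 : ∀ᵐ y : ℝ, y ≠ 0 := by
    rw [ae_iff]
    simp
  filter_upwards [h0] with y hy
  set M := max 1 (y ^ 2) with hM
  have hM0 : 0 < M := lt_of_lt_of_le one_pos (le_max_left _ _)
  rw [Measure.volume_eq_prod, Measure.prod_apply_symm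
    ((measurable_prodMk_left) (measurableSet_Ele N r))]
  set g : ℝ → ENNReal := (Ioc (0 : ℝ) (r ^ 2)).indicator
    (fun s => ENNReal.ofReal (gam ((N.totient : ℝ) / N) (zc y) s)) with hg
  have h1 : ∀ q : ℝ, volume ((fun t => (t, q)) ⁻¹' (Prod.mk y ⁻¹' Ele N r)) = g (q * M) := by
    intro q
    by_cases hq : q * M ∈ Ioc (0 : ℝ) (r ^ 2)
    · have hq0 : 0 < q := (pos_iff_pos_of_mul_pos hq.1).2 hM0
      rw [hg, indicator_of_mem hq]
      have h2 := slice N hN y q hy hq0 (by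
        rcases h with h | h
        · exact Or.inl (hq.2.trans h)
        · exact Or.inr h)
      rw [show q * M = sc y q from rfl, ← h2]
      congr 1
      ext t
      simp only [mem_preimage, Ele, Cond, mem_ofPred_eq, mem_Ico]
      constructor
      · rintro ⟨h3, _, _, h4⟩
        exact ⟨h3, h4⟩
      · rintro ⟨h3, h4⟩
        exact ⟨h3, hq0, hq.2, h4⟩
    · rw [hg, indicator_of_notMem hq]
      have : ((fun t => (t, q)) ⁻¹' (Prod.mk y ⁻¹' Ele N r)) = (∅ : Set ℝ) := by
        rw [eq_empty_iff_forall_notMem]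
        intro t ht
        apply hq
        obtain ⟨_, h3, h4, _⟩ := ht
        exact ⟨mul_pos h3 hM0, h4⟩
      rw [this, measure_empty]
  rw [lintegral_congr h1, lintegral_scale g M hM0, hg, lintegral_indicator measurableSet_Ioc]

end Pool.Agent.Helper94.NA
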