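import Mathlib
import Pool.Agent.Helper94.NA.Vol
import Pool.Agent.Helper94.NA.Ints

/-! # The averaged weight -/

set_option autoImplicit false

noncomputable section

open Filter Topology MeasureTheory Set

namespace Pool.Agent.Helper94.NA

/-- the averaged weight -/
def wf (s : ℝ) : ℝ := if s ≤ 1 / 2 then 0 else 1 - |1 / s - 1| + |1 / s - 1| * Real.log |1 / s - 1|

lemma h_nonneg {v : ℝ} (hv : 0 < v) : 0 ≤ 1 - v + v * Real.log v := by
  have h1 := Real.one_sub_inv_le_log_of_pos hv
  have h2 := mul_le_mul_of_nonneg_left h1 hv.le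
  have h3 : v * (1 - v⁻¹) = v - 1 := by field_simp
  linarith

lemma wf_nonneg (s : ℝ) : 0 ≤ wf s := by
  unfold wf
  split_ifs
  · exact le_rfl
  · rcases (abs_nonneg (1 / s - 1)).eq_or_lt with h | h
    · rw [← h]; norm_num
    · exact h_nonneg h

lemma measurable_wf : Measurable wf := by
  unfold wf
  apply Measurable.ite measurableSet_Iic measurable_const
  fun_prop

lemma integrable_wz (s : ℝ) : IntegrableOn (fun z => wz z s) (Ioo 0 1) := by
  apply Measure.integrableOn_of_bounded (M := 1)
  · rw [Real.volume_Ioo]; exact ENNReal.ofReal_ne_top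
  · exact (measurable_wz.comp (measurable_id.prodMk measurable_const)).aestronglyMeasurable
  · rw [ae_restrict_iff' measurableSet_Ioo]
    refine Eventually.of_forall fun z hz => ?_
    rw [Real.norm_of_nonneg (wz_nonneg z s)]
    exact wz_le_one z s hz.1

lemma integral_wz (s : ℝ) (hs : 0 < s) : ∫ z in Ioo (0 : ℝ) 1, wz z s = wf s := by
  set δ := |1 / s - 1| with hδ
  by_cases h : s ≤ 1 / 2
  · have hδ1 : 1 ≤ δ := by
      rw [hδ]
      refine le_trans ?_ (le_abs_self _)
      have : 2 ≤ 1 / s := by rw [le_div_iff₀ hs]; linarith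
      linarith
    have h1 : ∀ z ∈ Ioo (0 : ℝ) 1, wz z s = 0 := by
      intro z hz
      unfold wz
      rw [max_eq_left]
      have : 1 ≤ δ / z := by rw [le_div_iff₀ hz.1]; linarith [hz.2]
      linarith
    rw [setIntegral_congr_fun measurableSet_Ioo h1]
    unfold wf
    rw [if_pos h]
    simp
  · have hδ1 : δ < 1 := by
      rw [hδ, abs_lt]
      rw [not_le] at h
      have h1 : 1 / s < 2 := by rw [div_lt_iff₀ hs]; linarith
      have h2 : 0 < 1 / s := by positivity
      constructor <;> linarith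
    have hwf : wf s = 1 - δ + δ * Real.log δ := by unfold wf; rw [if_neg h]
    rw [hwf]
    rcases (abs_nonneg (1 / s - 1)).eq_or_lt with h0 | h0
    · rw [← hδ] at h0
      have h1 : ∀ z ∈ Ioo (0 : ℝ) 1, wz z s = 1 := by
        intro z hz
        unfold wz
        rw [← hδ, ← h0]
        simp
      rw [setIntegral_congr_fun measurableSet_Ioo h1, ← h0]
      simp
    · rw [← hδ] at h0
      have e : Ioo (0 : ℝ) 1 = Ioc 0 δ ∪ Ioo δ 1 := (Ioc_union_Ioo_eq_Ioo h0.le hδ1).symm
      rw [e, setIntegral_union (by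
          rw [Set.disjoint_left]
          intro x hx hx'
          exact absurd hx'.1 (not_lt.2 hx.2)) measurableSet_Ioo
        ((integrable_wz s).mono_set (by rw [e]; exact subset_union_left))
        ((integrable_wz s).mono_set (by rw [e]; exact subset_union_right))]
      have h1 : ∀ z ∈ Ioc (0 : ℝ) δ, wz z s = 0 := by
        intro z hz
        unfold wz
        rw [max_eq_left]
        have : 1 ≤ δ / z := by rw [le_div_iff₀ hz.1]; linarith [hz.2]
        linarith
      have h2 : ∀ z ∈ Ioo δ 1, wz z s = 1 - δ / z := by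
        intro z hz
        unfold wz
        rw [max_eq_right]
        have hz0 : 0 < z := h0.trans hz.1
        have : δ / z ≤ 1 := by rw [div_le_iff₀ hz0]; linarith [hz.1]
        linarith
      rw [setIntegral_congr_fun measurableSet_Ioc h1, setIntegral_congr_fun measurableSet_Ioo h2,
        ← integral_Ioc_eq_integral_Ioo, ← intervalIntegral.integral_of_le hδ1.le]
      have h3 : ∫ z in δ..1, (1 - δ / z) = (1 - δ * Real.log 1) - (δ - δ * Real.log δ) := by
        apply intervalIntegral.integral_eq_sub_of_hasDerivAt (f := fun z => z - δ * Real.log z)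
        · intro z hz
          rw [uIcc_of_le hδ1.le] at hz
          have hz0 : z ≠ 0 := (h0.trans_le hz.1).ne'
          have := (hasDerivAt_id' z).sub ((Real.hasDerivAt_log hz0).const_mul δ)
          refine this.congr_deriv ?_
          rw [div_eq_mul_inv]
        · apply ContinuousOn.intervalIntegrable
          rw [uIcc_of_le hδ1.le]
          apply continuousOn_const.sub
          apply continuousOn_const.div continuousOn_id
          intro z hz
          exact (h0.trans_le hz.1).ne'
      rw [h3]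
      simp
      ring

/-- the density -/
def dG (c s : ℝ) : ℝ := if s ≤ 1 then 1 - c * wf s else (1 - c) * wf s

lemma measurable_dG (c : ℝ) : Measurable (dG c) := by
  unfold dG
  apply Measurable.ite measurableSet_Iic
  · exact measurable_const.sub (measurable_const.mul measurable_wf)
  · exact measurable_const.mul measurable_wf

lemma lintegral_gam (c s : ℝ) (h0 : 0 ≤ c) (h1 : c ≤ 1) (hs : 0 < s) :
    ∫⁻ z in Ioo (0 : ℝ) 1, ENNReal.ofReal (gam c z s) = ENNReal.ofReal (dG c s) := by
  have h2 := integrable_wz s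
  have h3 : IntegrableOn (fun z => gam c z s) (Ioo 0 1) := by
    unfold gam
    split_ifs
    · exact (integrable_const 1).sub (h2.const_mul c)
    · exact h2.const_mul (1 - c)
  rw [← ofReal_integral_eq_lintegral_ofReal h3 (by
    rw [EventuallyLE, ae_restrict_iff' measurableSet_Ioo]
    exact Eventually.of_forall fun z hz => gam_nonneg h0 h1 z s hz.1)]
  congr 1
  unfold gam dG
  split_ifs
  · rw [integral_sub (integrable_const 1) (h2.const_mul c), integral_const_mul, integral_wz s hs]
    simp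
  · rw [integral_const_mul, integral_wz s hs]

lemma lintegral_inv_image (g : ℝ → ENNReal) : ∫⁻ s in Ioi (1 : ℝ), g s =
    ∫⁻ u in Ioo (0 : ℝ) 1, ENNReal.ofReal ((u ^ 2)⁻¹) * g u⁻¹ := by
  have e : (fun x : ℝ => x⁻¹) '' Ioo (0 : ℝ) 1 = Ioi 1 := by
    ext x
    simp only [mem_image, mem_Ioi, mem_Ioo]
    constructor
    · rintro ⟨y, ⟨h1, h2⟩, rfl⟩
      exact (one_lt_inv₀ h1).2 h2
    · intro h
      have h0 : 0 < x := by linarith
      exact ⟨x⁻¹, ⟨inv_pos.2 h0, inv_lt_one_of_one_lt₀ h⟩, inv_inv x⟩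
  rw [← e, lintegral_image_eq_lintegral_abs_deriv_mul (f' := fun x => -(x ^ 2)⁻¹)
    measurableSet_Ioo (fun x hx => (hasDerivAt_inv hx.1.ne').hasDerivWithinAt)
    inv_injective.injOn]
  apply setLIntegral_congr_fun measurableSet_Ioo
  intro y hy
  have := hy.1
  simp only
  rw [abs_neg, abs_of_pos (by positivity)]

lemma hasSum_tele : HasSum (fun n : ℕ => 1 / (((n : ℝ) + 1) * ((n : ℝ) + 2))) 1 := by
  rw [hasSum_iff_tendsto_nat_of_nonneg (fun n => by positivity)]
  have h1 : ∀ n : ℕ, ∑ i ∈ Finset.range n, 1 / (((i : ℝ) + 1) * ((i : ℝ) + 2)) =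
      1 - 1 / ((n : ℝ) + 1) := by
    intro n
    induction n with
    | zero => simp
    | succ n ih =>
      rw [Finset.sum_range_succ, ih]
      push_cast
      field_simp
      ring
  simp_rw [h1]
  have h2 := (tendsto_one_div_add_atTop_nhds_zero_nat (𝕜 := ℝ)).const_sub 1
  rwa [sub_zero] at h2

lemma hasSum_B : HasSum (fun n : ℕ => 1 / (((n : ℝ) + 1) * ((n : ℝ) + 2)) * (1 / ((n : ℝ) + 1) ^ 2))
    (1 + Z3 - Real.pi ^ 2 / 6) := by
  have h := (hasSum_tele.add hasSum_three).sub hasSum_two
  have e : (fun n : ℕ => 1 / (((n : ℝ) + 1) * ((n : ℝ) + 2)) * (1 / ((n : ℝ) + 1) ^ 2)) =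
      fun n : ℕ => 1 / (((n : ℝ) + 1) * ((n : ℝ) + 2)) + 1 / ((n : ℝ) + 1) ^ 3 -
        1 / ((n : ℝ) + 1) ^ 2 := by
    funext n
    field_simp
    ring
  rw [e]
  exact h

lemma hasSum_wf (u : ℝ) (h0 : 0 < u) (h1 : u < 1) :
    HasSum (fun n : ℕ => u ^ n * (1 / (((n : ℝ) + 1) * ((n : ℝ) + 2))))
      ((u + (1 - u) * Real.log (1 - u)) / u ^ 2) := by
  have h2 := Real.hasSum_pow_div_log_of_abs_lt_one (x := u) (by rw [abs_lt]; constructor <;> linarith)
  have h3 := (hasSum_nat_add_iff' 1).2 h2
  have h4 := ((h2.mul_left u).sub h3).mul_left (1 / u ^ 2)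
  have e : (fun n : ℕ => u ^ n * (1 / (((n : ℝ) + 1) * ((n : ℝ) + 2)))) =
      fun n : ℕ => 1 / u ^ 2 * (u * (u ^ (n + 1) / ((n : ℝ) + 1)) -
        u ^ (n + 1 + 1) / (((n + 1 : ℕ) : ℝ) + 1)) := by
    funext n
    push_cast
    rw [pow_succ, pow_succ]
    field_simp
    ring
  have e2 : (u + (1 - u) * Real.log (1 - u)) / u ^ 2 = 1 / u ^ 2 * (u * -Real.log (1 - u) -
      (-Real.log (1 - u) - ∑ i ∈ Finset.range 1, u ^ (i + 1) / ((i : ℝ) + 1))) := by
    rw [Finset.sum_range_one]
    simp
    ring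
  rw [e, e2]
  exact h4

theorem int_B : ∫⁻ s in Ioi (1 : ℝ), ENNReal.ofReal (wf s * Real.log s) =
    ENNReal.ofReal (1 + Z3 - Real.pi ^ 2 / 6) := by
  rw [lintegral_inv_image]
  have h1 : ∫⁻ u in Ioo (0 : ℝ) 1, ENNReal.ofReal ((u ^ 2)⁻¹) *
      ENNReal.ofReal (wf u⁻¹ * Real.log u⁻¹) = ∫⁻ u in Ioo (0 : ℝ) 1, ∑' n : ℕ,
        ENNReal.ofReal (1 / (((n : ℝ) + 1) * ((n : ℝ) + 2))) *
          ENNReal.ofReal (u ^ n * -Real.log u) := by
    apply setLIntegral_congr_fun measurableSet_Ioo
    rintro u ⟨hu0, hu1⟩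
    have hl : 0 ≤ -Real.log u := by
      have := Real.log_nonpos hu0.le hu1.le
      linarith
    have hw : wf u⁻¹ = u + (1 - u) * Real.log (1 - u) := by
      unfold wf
      rw [if_neg, one_div, inv_inv, abs_sub_comm, abs_of_pos (by linarith)]
      · ring
      · rw [not_le]
        have := (one_lt_inv₀ hu0).2 hu1
        linarith
    simp only
    rw [hw, Real.log_inv, ← ENNReal.ofReal_mul (by positivity)]
    have h2 := (hasSum_wf u hu0 hu1).mul_right (-Real.log u)
    have e : (u ^ 2)⁻¹ * ((u + (1 - u) * Real.log (1 - u)) * -Real.log u) =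
        (u + (1 - u) * Real.log (1 - u)) / u ^ 2 * -Real.log u := by
      field_simp
    rw [e, ← tsum_ofReal h2 (fun n => by positivity)]
    congr 1
    funext n
    rw [← ENNReal.ofReal_mul (by positivity)]
    congr 1
    ring
  rw [h1, lintegral_tsum (fun n => by fun_prop), ← tsum_ofReal hasSum_B (fun n => by positivity)]
  congr 1
  funext n
  rw [lintegral_const_mul _ (by fun_prop), mom1, ← ENNReal.ofReal_mul (by positivity)]

lemma tendsto_aux : ContinuousOn (fun v : ℝ => Real.log (1 + v) ^ 2 * Real.log v) (Icc 0 1) := by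
  intro v hv
  rcases hv.1.eq_or_lt with h | h
  · rw [← h]
    rw [ContinuousWithinAt]
    simp only [add_zero, Real.log_one, ne_eq, OfNat.ofNat_ne_zero, not_false_eq_true, zero_pow,
      zero_mul]
    apply squeeze_zero_norm' (a := fun v => v * |v * Real.log v|)
    · rw [eventually_nhdsWithin_iff]
      refine Eventually.of_forall fun x hx => ?_
      have hx0 := hx.1
      have h1 : 0 ≤ Real.log (1 + x) := Real.log_nonneg (by linarith)
      have h2 : Real.log (1 + x) ≤ x := by
        have := Real.log_le_sub_one_of_pos (by linarith : (0 : ℝ) < 1 + x)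
        linarith
      rw [norm_mul, norm_pow, Real.norm_eq_abs, Real.norm_eq_abs, abs_of_nonneg h1, abs_mul,
        abs_of_nonneg hx0, ← mul_assoc, ← sq]
      have := abs_nonneg (Real.log x)
      gcongr
    · have h1 : Continuous (fun v : ℝ => v * |v * Real.log v|) := by
        have := Real.continuous_mul_log
        fun_prop
      have h2 := h1.tendsto 0
      simp only [zero_mul] at h2
      exact h2.mono_left nhdsWithin_le_nhds
  · apply ContinuousAt.continuousWithinAt
    have h1 : ContinuousAt (fun v : ℝ => Real.log (1 + v)) v :=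
      ContinuousAt.log (by fun_prop) (by linarith)
    exact (h1.pow 2).mul (Real.continuousAt_log h.ne')

lemma int_A' : 0 ≤ 1 - Real.pi ^ 2 / 12 - Z3 / 8 ∧ ∫⁻ v in Ioo (0 : ℝ) 1,
    ENNReal.ofReal ((1 - v + v * Real.log v) * Real.log (1 + v) / (1 + v) ^ 2) =
    ENNReal.ofReal (1 - Real.pi ^ 2 / 12 - Z3 / 8) := by
  have h1 := ftc_nonneg (fun v => -((1 - v + v * Real.log v) * (Real.log (1 + v) + 1) / (1 + v)) +
      1 / 2 * (Real.log (1 + v) ^ 2 * Real.log v))
    (fun v => (1 - v + v * Real.log v) * Real.log (1 + v) / (1 + v) ^ 2 +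
      (-Real.log v / (1 + v) + 1 / 2 * (Real.log (1 + v) ^ 2 / v))) 0 1 zero_le_one ?_ ?_ ?_
  · have h2 : ∫⁻ v in Ioo (0 : ℝ) 1,
        ENNReal.ofReal ((1 - v + v * Real.log v) * Real.log (1 + v) / (1 + v) ^ 2 +
        (-Real.log v / (1 + v) + 1 / 2 * (Real.log (1 + v) ^ 2 / v))) =
        (∫⁻ v in Ioo (0 : ℝ) 1,
          ENNReal.ofReal ((1 - v + v * Real.log v) * Real.log (1 + v) / (1 + v) ^ 2)) +
        ((∫⁻ v in Ioo (0 : ℝ) 1, ENNReal.ofReal (-Real.log v / (1 + v))) +
        ENNReal.ofReal (1 / 2) *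
          ∫⁻ v in Ioo (0 : ℝ) 1, ENNReal.ofReal (Real.log (1 + v) ^ 2 / v)) := by
      rw [← lintegral_const_mul _ (by fun_prop), ← lintegral_add_left (by fun_prop),
        ← lintegral_add_left (by fun_prop)]
      apply setLIntegral_congr_fun measurableSet_Ioo
      rintro v ⟨h0, h1⟩
      have hl : 0 ≤ -Real.log v := by
        have := Real.log_nonpos h0.le h1.le
        linarith
      have hh := h_nonneg h0
      have hl2 : 0 ≤ Real.log (1 + v) := Real.log_nonneg (by linarith)
      simp only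
      rw [← ENNReal.ofReal_mul (by norm_num), ← ENNReal.ofReal_add (by positivity) (by positivity),
        ← ENNReal.ofReal_add (by positivity) (by positivity)]
    rw [h2, K1, K2, ← ENNReal.ofReal_mul (by norm_num),
      ← ENNReal.ofReal_add (by positivity) (by have := Z3_pos; positivity)] at h1
    have h3 := ENNReal.eq_sub_of_add_eq ENNReal.ofReal_ne_top h1
    refine ⟨?_, ?_⟩
    · have h4 : ENNReal.ofReal (Real.pi ^ 2 / 12 + 1 / 2 * (Z3 / 4)) ≤ ENNReal.ofReal 1 := by
        have h5 : ENNReal.ofReal (Real.pi ^ 2 / 12 + 1 / 2 * (Z3 / 4)) ≤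
            (∫⁻ v in Ioo (0 : ℝ) 1,
            ENNReal.ofReal ((1 - v + v * Real.log v) * Real.log (1 + v) / (1 + v) ^ 2)) +
            ENNReal.ofReal (Real.pi ^ 2 / 12 + 1 / 2 * (Z3 / 4)) := le_add_self
        rw [h1] at h5
        refine h5.trans (le_of_eq ?_)
        congr 1
        simp
      have h6 := (ENNReal.ofReal_le_ofReal_iff zero_le_one).1 h4
      linarith
    · rw [h3, ← ENNReal.ofReal_sub _ (by have := Z3_pos; positivity)]
      congr 1
      simp
      ring
  · apply ContinuousOn.add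
    · apply ContinuousOn.neg
      apply ContinuousOn.div
      · apply ContinuousOn.mul
        · have := Real.continuous_mul_log
          apply Continuous.continuousOn
          fun_prop
        · apply ContinuousOn.add _ continuousOn_const
          apply ContinuousOn.log (by fun_prop)
          intro v hv
          linarith [hv.1]
      · fun_prop
      · intro v hv
        linarith [hv.1]
    · exact continuousOn_const.mul tendsto_aux
  · rintro v ⟨h0, h1⟩
    have hv1 : 1 + v ≠ 0 := by linarith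
    have d1 : HasDerivAt (fun v => 1 - v + v * Real.log v) (-1 + (Real.log v + 1)) v :=
      ((hasDerivAt_id' v).const_sub 1).add (Real.hasDerivAt_mul_log h0.ne')
    have d2 : HasDerivAt (fun v => Real.log (1 + v)) (1 / (1 + v)) v :=
      ((hasDerivAt_id' v).const_add 1).log hv1
    have d3 : HasDerivAt (fun v => 1 + v) 1 v := (hasDerivAt_id' v).const_add 1
    have d4 := (((d1.mul (d2.add_const 1)).div d3 hv1).neg).add
      (((d2.fun_pow 2).mul (Real.hasDerivAt_log h0.ne')).const_mul (1 / 2))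
    refine d4.congr_deriv ?_
    simp only [Pi.mul_apply]
    have : v ≠ 0 := h0.ne'
    field_simp
    ring
  · rintro v ⟨h0, h1⟩
    have hl : 0 ≤ -Real.log v := by
      have := Real.log_nonpos h0.le h1.le
      linarith
    have hh := h_nonneg h0
    have hl2 : 0 ≤ Real.log (1 + v) := Real.log_nonneg (by linarith)
    positivity

theorem int_A : ∫⁻ s in Ioo (0 : ℝ) 1, ENNReal.ofReal (wf s * -Real.log s) =
    ENNReal.ofReal (1 - Real.pi ^ 2 / 12 - Z3 / 8) := by
  rw [← int_A'.2]
  have e : Ioo (0 : ℝ) 1 = Ioc 0 (1 / 2) ∪ Ioo (1 / 2) 1 :=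
    (Ioc_union_Ioo_eq_Ioo (by norm_num) (by norm_num)).symm
  have h1 : ∫⁻ s in Ioc (0 : ℝ) (1 / 2), ENNReal.ofReal (wf s * -Real.log s) = 0 := by
    rw [setLIntegral_congr_fun (g := fun _ => 0) measurableSet_Ioc, lintegral_zero]
    intro s hs
    simp only [wf]
    rw [if_pos hs.2, zero_mul, ENNReal.ofReal_zero]
  have h2 : ∫⁻ s in Ioo (0 : ℝ) 1, ENNReal.ofReal (wf s * -Real.log s) =
      ∫⁻ s in Ioo (1 / 2 : ℝ) 1, ENNReal.ofReal (wf s * -Real.log s) := by
    rw [e, lintegral_union measurableSet_Ioo (by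
        rw [Set.disjoint_left]
        intro x hx hx'
        exact absurd hx'.1 (not_lt.2 hx.2)), h1, zero_add]
  rw [h2]
  have e : (fun x : ℝ => (1 + x)⁻¹) '' Ioo (0 : ℝ) 1 = Ioo (1 / 2) 1 := by
    ext x
    simp only [mem_image, mem_Ioo]
    constructor
    · rintro ⟨y, ⟨h1, h2⟩, rfl⟩
      constructor
      · rw [one_div]
        exact (inv_lt_inv₀ (by norm_num) (by linarith)).2 (by linarith)
      · exact inv_lt_one_of_one_lt₀ (by linarith)
    · rintro ⟨h1, h2⟩
      have h0 : 0 < x := by linarith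
      refine ⟨x⁻¹ - 1, ⟨?_, ?_⟩, ?_⟩
      · have := (one_lt_inv₀ h0).2 h2
        linarith
      · have : x⁻¹ < 2 := by
          rw [inv_lt_comm₀ h0 (by norm_num)]
          linarith
        linarith
      · rw [add_sub_cancel, inv_inv]
  rw [← e, lintegral_image_eq_lintegral_abs_deriv_mul (f' := fun x => -1 / (1 + x) ^ 2)
      measurableSet_Ioo (fun x hx => by
        have h0 : 1 + x ≠ 0 := by linarith [hx.1]
        exact (((hasDerivAt_id' x).const_add 1).fun_inv h0).hasDerivWithinAt)
      (fun a ha b hb hab => by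
        have hab' : (1 + a)⁻¹ = (1 + b)⁻¹ := hab
        have := inv_injective hab'
        linarith)]
  apply setLIntegral_congr_fun measurableSet_Ioo
  rintro v ⟨hv0, hv1⟩
  have h3 : 0 < 1 + v := by linarith
  simp only
  rw [← ENNReal.ofReal_mul (abs_nonneg _)]
  congr 1
  have hw : wf (1 + v)⁻¹ = 1 - v + v * Real.log v := by
    unfold wf
    rw [if_neg, one_div, inv_inv, add_sub_cancel_left, abs_of_pos hv0]
    rw [not_le, one_div]
    exact (inv_lt_inv₀ (by norm_num) h3).2 (by linarith)
  rw [hw, Real.log_inv, neg_neg, abs_div, abs_neg, abs_one, abs_of_pos (by positivity)]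
  ring

end Pool.Agent.Helper94.NA
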