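import Mathlib
import Pool.Agent.Helper94.NA.Wf

/-! # The closed forms -/

set_option autoImplicit false

noncomputable section

open Filter Topology MeasureTheory Set

namespace Pool.Agent.Helper94.NA

/-- the hypothesis: the radius is at most one or the base is a prime power -/
def OK (N : ℕ) (r : ℝ) : Prop := r ^ 2 ≤ 1 ∨ ∃ p k : ℕ, p.Prime ∧ N = p ^ (k + 1)

lemma tot_nonneg (N : ℕ) : 0 ≤ (N.totient : ℝ) / N := by positivity

lemma tot_le_one (N : ℕ) : (N.totient : ℝ) / N ≤ 1 := by
  rcases Nat.eq_zero_or_pos N with h | h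
  · rw [h]; simp
  · rw [div_le_one (by exact_mod_cast h)]
    exact_mod_cast Nat.totient_le N

lemma wf_le_one (s : ℝ) : wf s ≤ 1 := by
  unfold wf
  split_ifs with h
  · exact zero_le_one
  · have hs : 1 / 2 < s := not_le.1 h
    have hs0 : 0 < s := by linarith
    have h1 : |1 / s - 1| ≤ 1 := by
      rw [abs_le]
      have h2 : 0 < 1 / s := by positivity
      have h3 : 1 / s < 2 := by
        rw [div_lt_iff₀ hs0]; linarith
      constructor <;> linarith
    have h4 := abs_nonneg (1 / s - 1)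
    have h5 := Real.log_nonpos h4 h1
    nlinarith

lemma dG_nonneg {c : ℝ} (h0 : 0 ≤ c) (h1 : c ≤ 1) (s : ℝ) : 0 ≤ dG c s := by
  unfold dG
  have h2 := wf_nonneg s
  have h3 := wf_le_one s
  split_ifs
  · nlinarith
  · nlinarith

/-- the volume as a simple integral -/
theorem vol_G (N : ℕ) (hN : 0 < N) (r : ℝ) (h : OK N r) :
    volume (Ele N r) = 4 * ∫⁻ s in Ioc (0 : ℝ) (r ^ 2),
      ENNReal.ofReal (dG ((N.totient : ℝ) / N) s) := by
  rw [vol_Ele N hN r h, lintegral_lintegral_swap]
  · congr 1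
    apply setLIntegral_congr_fun measurableSet_Ioc
    intro s hs
    exact lintegral_gam _ s (tot_nonneg N) (tot_le_one N) hs.1
  · exact (measurable_gam _).ennreal_ofReal.aemeasurable

lemma ofReal_FN (N : ℕ) (hN : 2 ≤ N) (r : ℝ) (hr : 0 ≤ r) (h : OK N r) :
    ENNReal.ofReal (FN N r) = ENNReal.ofReal (2 * rho N) * ∫⁻ s in Ioc (0 : ℝ) (r ^ 2),
      ENNReal.ofReal (dG ((N.totient : ℝ) / N) s) := by
  have hρ := rho_pos N
  unfold FN
  rw [ENNReal.ofReal_mul (by positivity), ENNReal.ofReal_toReal (Ele_volume_ne_top N hN r hr),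
    vol_G N (by omega) r h, ← mul_assoc]
  congr 1
  rw [show (4 : ENNReal) = ENNReal.ofReal 4 by norm_num, ← ENNReal.ofReal_mul (by positivity)]
  congr 1
  ring

/-- the limit distribution as a simple integral -/
theorem FN_eq (N : ℕ) (hN : 2 ≤ N) (r : ℝ) (h : OK N r) :
    FN N r = 2 * rho N * ∫ s in (0 : ℝ)..(r ^ 2), dG ((N.totient : ℝ) / N) s := by
  have h1 := vol_G N (by omega) r h
  rw [intervalIntegral.integral_of_le (by positivity),
    integral_eq_lintegral_of_nonneg_ae
      (Eventually.of_forall (dG_nonneg (tot_nonneg N) (tot_le_one N)))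
      (measurable_dG _).aestronglyMeasurable]
  unfold FN
  rw [h1, ENNReal.toReal_mul]
  norm_num
  ring

section primepower

variable (N : ℕ)

lemma total (hN : 2 ≤ N) (h : ∃ p k : ℕ, p.Prime ∧ N = p ^ (k + 1)) :
    ENNReal.ofReal (2 * rho N) * ∫⁻ s in Ioi (0 : ℝ),
      ENNReal.ofReal (dG ((N.totient : ℝ) / N) s) = 1 := by
  set g : ℝ → ENNReal := fun s => ENNReal.ofReal (dG ((N.totient : ℝ) / N) s) with hg
  have hcov : AECover (volume.restrict (Ioi (0 : ℝ))) atTop (fun n : ℕ => Iic ((n : ℝ) ^ 2)) := by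
    apply aecover_Iic
    exact (tendsto_pow_atTop two_ne_zero).comp tendsto_natCast_atTop_atTop
  have h1 := hcov.lintegral_tendsto_of_nat (f := g)
    ((measurable_dG _).ennreal_ofReal.aemeasurable)
  have h2 : ∀ n : ℕ, ∫⁻ s in Iic ((n : ℝ) ^ 2), g s ∂(volume.restrict (Ioi (0 : ℝ))) =
      ∫⁻ s in Ioc (0 : ℝ) ((n : ℝ) ^ 2), g s := by
    intro n
    rw [Measure.restrict_restrict measurableSet_Iic, inter_comm, Ioi_inter_Iic]
  simp_rw [h2] at h1
  have h3 := ENNReal.Tendsto.const_mul h1 (Or.inr (ENNReal.ofReal_ne_top (r := 2 * rho N)))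
  have h4 : ∀ n : ℕ, ENNReal.ofReal (2 * rho N) * ∫⁻ s in Ioc (0 : ℝ) ((n : ℝ) ^ 2), g s =
      ENNReal.ofReal (FN N n) := fun n => (ofReal_FN N hN n n.cast_nonneg (Or.inr h)).symm
  simp_rw [h4] at h3
  have h5 : Tendsto (fun n : ℕ => FN N n) atTop (𝓝 1) := by
    have h6 : Tendsto (fun n : ℕ => 1 - 24 * ((N : ℝ) + 1) ^ 2 / (n : ℝ) ^ 2) atTop (𝓝 1) := by
      have h7 : Tendsto (fun n : ℕ => 24 * ((N : ℝ) + 1) ^ 2 / (n : ℝ) ^ 2) atTop (𝓝 0) :=
        tendsto_const_nhds.div_atTop
          ((tendsto_pow_atTop two_ne_zero).comp tendsto_natCast_atTop_atTop)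
      have := h7.const_sub 1
      rwa [sub_zero] at this
    apply tendsto_of_tendsto_of_tendsto_of_le_of_le' h6 tendsto_const_nhds
    · filter_upwards [eventually_gt_atTop 0] with n hn
      have := FN_large N hN n (by exact_mod_cast hn)
      linarith
    · exact Eventually.of_forall fun n => FN_le_one N hN n n.cast_nonneg
  have h8 := (ENNReal.continuous_ofReal.tendsto 1).comp h5
  have h9 := tendsto_nhds_unique h3 h8
  rw [h9, ENNReal.ofReal_one]

lemma ofReal_one_sub_FN (hN : 2 ≤ N) (h : ∃ p k : ℕ, p.Prime ∧ N = p ^ (k + 1)) (r : ℝ)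
    (hr : 0 ≤ r) :
    ENNReal.ofReal (1 - FN N r) = ENNReal.ofReal (2 * rho N) * ∫⁻ s in Ioi (r ^ 2),
      ENNReal.ofReal (dG ((N.totient : ℝ) / N) s) := by
  have h1 := total N hN h
  rw [← Ioc_union_Ioi_eq_Ioi (show (0 : ℝ) ≤ r ^ 2 by positivity),
      lintegral_union measurableSet_Ioi (by
        rw [Set.disjoint_left]
        intro x hx hx'
        exact absurd hx' (not_lt.2 hx.2)), mul_add, ← ofReal_FN N hN r hr (Or.inr h)] at h1
  rw [ENNReal.ofReal_sub _ (FN_nonneg N r), ENNReal.ofReal_one, ← h1]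
  exact (ENNReal.add_sub_cancel_left ENNReal.ofReal_ne_top)

end primepower

lemma lint_inv (a b : ℝ) (ha : 0 < a) (hab : a ≤ b) :
    ∫⁻ r in Ioo a b, ENNReal.ofReal (1 / r) = ENNReal.ofReal (Real.log b - Real.log a) := by
  apply ftc_nonneg Real.log (fun r => 1 / r) a b hab
  · exact Real.continuousOn_log.mono (fun x hx => by
      have : 0 < x := ha.trans_le hx.1
      exact this.ne')
  · intro x hx
    have : 0 < x := ha.trans hx.1
    rw [one_div]
    exact Real.hasDerivAt_log this.ne'
  · intro x hx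
    have : 0 < x := ha.trans hx.1
    positivity

/-- the lower part -/
lemma lower_int (N : ℕ) (hN : 2 ≤ N) :
    ∫⁻ r in Ioc (0 : ℝ) 1, ENNReal.ofReal (FN N r / r) =
      ENNReal.ofReal (rho N) * ∫⁻ s in Ioo (0 : ℝ) 1,
        ENNReal.ofReal (dG ((N.totient : ℝ) / N) s * -Real.log s) := by
  have hρ := rho_pos N
  set g : ℝ → ENNReal := fun s => ENNReal.ofReal (dG ((N.totient : ℝ) / N) s) with hg
  have hgm : Measurable g := (measurable_dG _).ennreal_ofReal
  have h1 : ∫⁻ r in Ioc (0 : ℝ) 1, ENNReal.ofReal (FN N r / r) =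
      ∫⁻ r in Ioo (0 : ℝ) 1, ∫⁻ s in Ioo (0 : ℝ) 1, ENNReal.ofReal (2 * rho N) *
        (if s < r ^ 2 then ENNReal.ofReal (1 / r) * g s else 0) := by
    rw [setLIntegral_congr Ioo_ae_eq_Ioc.symm]
    apply setLIntegral_congr_fun measurableSet_Ioo
    rintro r ⟨hr0, hr1⟩
    simp only
    rw [div_eq_mul_one_div, ENNReal.ofReal_mul (FN_nonneg N r),
      ofReal_FN N hN r hr0.le (Or.inl (by nlinarith)), lintegral_const_mul _ (by
        apply Measurable.ite measurableSet_Iio _ measurable_const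
        exact measurable_const.mul hgm), mul_assoc, mul_comm _ (ENNReal.ofReal (1 / r)),
      setLIntegral_congr Ioo_ae_eq_Ioc.symm, ← lintegral_const_mul _ hgm]
    congr 1
    have e : Ioo (0 : ℝ) (r ^ 2) = Iio (r ^ 2) ∩ Ioo 0 1 := by
      ext x
      simp only [mem_Ioo, mem_inter_iff, mem_Iio]
      constructor
      · rintro ⟨h2, h3⟩
        exact ⟨h3, h2, by nlinarith⟩
      · rintro ⟨h3, h2, _⟩
        exact ⟨h2, h3⟩
    rw [e, ← Measure.restrict_restrict measurableSet_Iio, ← lintegral_indicator measurableSet_Iio]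
    apply lintegral_congr
    intro s
    by_cases hs : s < r ^ 2
    · rw [if_pos hs, indicator_of_mem (by exact hs)]
    · rw [if_neg hs, indicator_of_notMem (by exact hs)]
  rw [h1, lintegral_lintegral_swap]
  · rw [← lintegral_const_mul _ (by
      exact ((measurable_dG _).mul (by fun_prop)).ennreal_ofReal)]
    apply setLIntegral_congr_fun measurableSet_Ioo
    rintro s ⟨hs0, hs1⟩
    simp only
    have hsq : √s < 1 := by rw [Real.sqrt_lt' one_pos]; linarith
    have hsq0 : 0 < √s := Real.sqrt_pos.2 hs0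
    have h3 : ∫⁻ r in Ioo (0 : ℝ) 1, ENNReal.ofReal (2 * rho N) *
        (if s < r ^ 2 then ENNReal.ofReal (1 / r) * g s else 0) =
        ∫⁻ r in Ioo √s 1, ENNReal.ofReal (2 * rho N) * g s * ENNReal.ofReal (1 / r) := by
      have e : Ioo √s 1 = Ioi √s ∩ Ioo 0 1 := by
        ext x
        simp only [mem_Ioo, mem_inter_iff, mem_Ioi]
        constructor
        · rintro ⟨h4, h5⟩
          exact ⟨h4, hsq0.trans h4, h5⟩
        · rintro ⟨h4, _, h5⟩
          exact ⟨h4, h5⟩
      rw [e, ← Measure.restrict_restrict measurableSet_Ioi,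
        ← lintegral_indicator measurableSet_Ioi]
      apply setLIntegral_congr_fun measurableSet_Ioo
      rintro r ⟨hr0, hr1⟩
      simp only
      have hiff : s < r ^ 2 ↔ r ∈ Ioi √s := by
        rw [mem_Ioi, Real.sqrt_lt' hr0]
      by_cases hr : s < r ^ 2
      · rw [if_pos hr, indicator_of_mem (hiff.1 hr)]
        ring
      · rw [if_neg hr, indicator_of_notMem (fun h => hr (hiff.2 h)), mul_zero]
    rw [h3, lintegral_const_mul _ (by fun_prop), lint_inv √s 1 hsq0 hsq.le, Real.log_one,
      Real.log_sqrt hs0.le]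
    have hl := Real.log_nonpos hs0.le hs1.le
    have hd := dG_nonneg (tot_nonneg N) (tot_le_one N) s
    rw [hg]
    simp only
    rw [← ENNReal.ofReal_mul (by positivity), ← ENNReal.ofReal_mul (by positivity),
      ← ENNReal.ofReal_mul (by positivity)]
    congr 1
    ring
  · apply Measurable.aemeasurable
    apply Measurable.mul measurable_const
    apply Measurable.ite
    · exact measurableSet_lt measurable_snd (by fun_prop)
    · exact (by fun_prop : Measurable (fun p : ℝ × ℝ => ENNReal.ofReal (1 / p.1))).mul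
        (hgm.comp measurable_snd)
    · exact measurable_const

/-- the upper part -/
lemma upper_int (N : ℕ) (hN : 2 ≤ N) (h : ∃ p k : ℕ, p.Prime ∧ N = p ^ (k + 1)) :
    ∫⁻ r in Ioi (1 : ℝ), ENNReal.ofReal ((1 - FN N r) / r) =
      ENNReal.ofReal (rho N) * ∫⁻ s in Ioi (1 : ℝ),
        ENNReal.ofReal (dG ((N.totient : ℝ) / N) s * Real.log s) := by
  have hρ := rho_pos N
  set g : ℝ → ENNReal := fun s => ENNReal.ofReal (dG ((N.totient : ℝ) / N) s) with hg
  have hgm : Measurable g := (measurable_dG _).ennreal_ofReal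
  have h1 : ∫⁻ r in Ioi (1 : ℝ), ENNReal.ofReal ((1 - FN N r) / r) =
      ∫⁻ r in Ioi (1 : ℝ), ∫⁻ s in Ioi (1 : ℝ), ENNReal.ofReal (2 * rho N) *
        (if r ^ 2 < s then ENNReal.ofReal (1 / r) * g s else 0) := by
    apply setLIntegral_congr_fun measurableSet_Ioi
    intro r hr
    have hr1 : 1 < r := hr
    have hr0 : 0 < r := by linarith
    simp only
    have hF := FN_le_one N hN r hr0.le
    rw [div_eq_mul_one_div, ENNReal.ofReal_mul (by linarith),
      ofReal_one_sub_FN N hN h r hr0.le, lintegral_const_mul _ (by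
        apply Measurable.ite measurableSet_Ioi _ measurable_const
        exact measurable_const.mul hgm), mul_assoc, mul_comm _ (ENNReal.ofReal (1 / r)),
      ← lintegral_const_mul _ hgm]
    congr 1
    have e : Ioi (r ^ 2) = Ioi (r ^ 2) ∩ Ioi 1 := by
      ext x
      simp only [mem_inter_iff, mem_Ioi]
      constructor
      · intro h3
        exact ⟨h3, by nlinarith⟩
      · rintro ⟨h3, _⟩
        exact h3
    rw [e, ← Measure.restrict_restrict measurableSet_Ioi, ← lintegral_indicator measurableSet_Ioi]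
    apply lintegral_congr
    intro s
    by_cases hs : r ^ 2 < s
    · rw [if_pos hs, indicator_of_mem (by exact hs)]
    · rw [if_neg hs, indicator_of_notMem (by exact hs)]
  rw [h1, lintegral_lintegral_swap]
  · rw [← lintegral_const_mul _ (by
      exact ((measurable_dG _).mul (by fun_prop)).ennreal_ofReal)]
    apply setLIntegral_congr_fun measurableSet_Ioi
    intro s hs
    have hs1 : 1 < s := hs
    have hs0 : 0 < s := by linarith
    simp only
    have hsq : 1 < √s := by rw [Real.lt_sqrt zero_le_one]; linarith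
    have h3 : ∫⁻ r in Ioi (1 : ℝ), ENNReal.ofReal (2 * rho N) *
        (if r ^ 2 < s then ENNReal.ofReal (1 / r) * g s else 0) =
        ∫⁻ r in Ioo 1 √s, ENNReal.ofReal (2 * rho N) * g s * ENNReal.ofReal (1 / r) := by
      have e : Ioo 1 √s = Iio √s ∩ Ioi 1 := by
        ext x
        simp only [mem_Ioo, mem_inter_iff, mem_Ioi, mem_Iio]
        tauto
      rw [e, ← Measure.restrict_restrict measurableSet_Iio,
        ← lintegral_indicator measurableSet_Iio]
      apply setLIntegral_congr_fun measurableSet_Ioi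
      intro r hr
      have hr1 : 1 < r := hr
      have hr0 : 0 < r := by linarith
      simp only
      have hiff : r ^ 2 < s ↔ r ∈ Iio √s := by
        rw [mem_Iio, Real.lt_sqrt hr0.le]
      by_cases hr : r ^ 2 < s
      · rw [if_pos hr, indicator_of_mem (hiff.1 hr)]
        ring
      · rw [if_neg hr, indicator_of_notMem (fun h => hr (hiff.2 h)), mul_zero]
    rw [h3, lintegral_const_mul _ (by fun_prop), lint_inv 1 √s one_pos hsq.le, Real.log_one,
      Real.log_sqrt hs0.le]
    have hl := Real.log_nonneg hs1.le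
    have hd := dG_nonneg (tot_nonneg N) (tot_le_one N) s
    rw [hg]
    simp only
    rw [← ENNReal.ofReal_mul (by positivity), ← ENNReal.ofReal_mul (by positivity),
      ← ENNReal.ofReal_mul (by positivity)]
    congr 1
    ring
  · apply Measurable.aemeasurable
    apply Measurable.mul measurable_const
    apply Measurable.ite
    · exact measurableSet_lt (by fun_prop) measurable_snd
    · exact (by fun_prop : Measurable (fun p : ℝ × ℝ => ENNReal.ofReal (1 / p.1))).mul
        (hgm.comp measurable_snd)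
    · exact measurable_const

lemma lower_val (N : ℕ) (hN : 2 ≤ N) :
    ∫ r in Ioc (0 : ℝ) 1, FN N r / r =
      rho N * (1 - (N.totient : ℝ) / N * (1 - Real.pi ^ 2 / 12 - Z3 / 8)) := by
  have hρ := rho_pos N
  set c := (N.totient : ℝ) / N with hc
  have hc0 : 0 ≤ c := tot_nonneg N
  have hc1 : c ≤ 1 := tot_le_one N
  have h1 := lower_int N hN
  have h2 : (∫⁻ s in Ioo (0 : ℝ) 1, ENNReal.ofReal (dG c s * -Real.log s)) +
      ENNReal.ofReal c * ∫⁻ s in Ioo (0 : ℝ) 1, ENNReal.ofReal (wf s * -Real.log s) =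
      ∫⁻ s in Ioo (0 : ℝ) 1, ENNReal.ofReal (s ^ 0 * -Real.log s) := by
    rw [← lintegral_const_mul _ (by exact (measurable_wf.mul (by fun_prop)).ennreal_ofReal),
      ← lintegral_add_left (by exact ((measurable_dG _).mul (by fun_prop)).ennreal_ofReal)]
    apply setLIntegral_congr_fun measurableSet_Ioo
    rintro s ⟨hs0, hs1⟩
    have hl := Real.log_nonpos hs0.le hs1.le
    have hl' : 0 ≤ -Real.log s := by linarith
    have hd := dG_nonneg hc0 hc1 s
    have hw := wf_nonneg s
    simp only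
    rw [← ENNReal.ofReal_mul hc0, ← ENNReal.ofReal_add (by positivity) (by positivity)]
    congr 1
    unfold dG
    rw [if_pos hs1.le]
    ring
  rw [mom1, int_A, ← ENNReal.ofReal_mul hc0] at h2
  have h3 := ENNReal.eq_sub_of_add_eq ENNReal.ofReal_ne_top h2
  have hA := int_A'.1
  have hA1 : 1 - Real.pi ^ 2 / 12 - Z3 / 8 ≤ 1 := by
    have := Z3_pos
    have : 0 ≤ Real.pi ^ 2 := by positivity
    linarith
  set A := 1 - Real.pi ^ 2 / 12 - Z3 / 8 with hAdef
  have hcA : c * A ≤ 1 := by nlinarith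
  rw [integral_eq_lintegral_of_nonneg_ae]
  · rw [h1, h3, ← ENNReal.ofReal_sub _ (by positivity), ← ENNReal.ofReal_mul hρ.le,
      ENNReal.toReal_ofReal]
    · simp
    · have : 0 ≤ 1 / (((0 : ℕ) : ℝ) + 1) ^ 2 - c * A := by
        simp
        linarith
      positivity
  · rw [EventuallyLE, ae_restrict_iff' measurableSet_Ioc]
    exact Eventually.of_forall fun r hr => div_nonneg (FN_nonneg N r) hr.1.le
  · apply AEMeasurable.aestronglyMeasurable
    have h4 : AEMeasurable (FN N) (volume.restrict (Ioc 0 1)) := by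
      apply aemeasurable_restrict_of_monotoneOn measurableSet_Ioc
      intro a ha b hb hab
      exact FN_mono N hN a b ha.1.le hab
    exact h4.div measurable_id.aemeasurable

lemma upper_val (N : ℕ) (hN : 2 ≤ N) (h : ∃ p k : ℕ, p.Prime ∧ N = p ^ (k + 1)) :
    ∫ r in Ioi (1 : ℝ), (1 - FN N r) / r =
      rho N * (1 - (N.totient : ℝ) / N) * (1 + Z3 - Real.pi ^ 2 / 6) := by
  have hρ := rho_pos N
  set c := (N.totient : ℝ) / N with hc
  have hc0 : 0 ≤ c := tot_nonneg N
  have hc1 : c ≤ 1 := tot_le_one N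
  have h1 := upper_int N hN h
  have hB : 0 ≤ 1 + Z3 - Real.pi ^ 2 / 6 := hasSum_B.nonneg (fun n => by positivity)
  have h2 : (∫⁻ s in Ioi (1 : ℝ), ENNReal.ofReal (dG c s * Real.log s)) =
      ENNReal.ofReal (1 - c) * ∫⁻ s in Ioi (1 : ℝ), ENNReal.ofReal (wf s * Real.log s) := by
    rw [← lintegral_const_mul _ (by exact (measurable_wf.mul (by fun_prop)).ennreal_ofReal)]
    apply setLIntegral_congr_fun measurableSet_Ioi
    intro s hs
    have hs1 : 1 < s := hs
    simp only
    rw [← ENNReal.ofReal_mul (by linarith)]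
    congr 1
    unfold dG
    rw [if_neg (not_le.2 hs1)]
    ring
  rw [integral_eq_lintegral_of_nonneg_ae]
  · rw [h1, h2, int_B, ← ENNReal.ofReal_mul (by linarith), ← ENNReal.ofReal_mul hρ.le,
      ENNReal.toReal_ofReal]
    · ring
    · have : 0 ≤ 1 - c := by linarith
      positivity
  · rw [EventuallyLE, ae_restrict_iff' measurableSet_Ioi]
    refine Eventually.of_forall fun r hr => ?_
    have hr1 : (1 : ℝ) < r := hr
    have := FN_le_one N hN r (by linarith)
    exact div_nonneg (by linarith) (by linarith)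
  · apply AEMeasurable.aestronglyMeasurable
    have h4 : AEMeasurable (FN N) (volume.restrict (Ioi 1)) := by
      apply aemeasurable_restrict_of_monotoneOn measurableSet_Ioi
      intro a ha b hb hab
      have ha1 : (1 : ℝ) < a := ha
      exact FN_mono N hN a b (by linarith) hab
    exact (h4.const_sub 1).div measurable_id.aemeasurable

/-- the closed form of the constant for prime powers -/
theorem const_closed (p k : ℕ) (hp : p.Prime) :
    ((∫ r in Ioi (1 : ℝ), (1 - FN (p ^ (k + 1)) r) / r) -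
      ∫ r in Ioc (0 : ℝ) 1, FN (p ^ (k + 1)) r / r) =
      3 * Z3 / (4 * Real.pi ^ 2) * ((9 - p) / (p + 1)) - 1 / 2 := by
  have hN : 2 ≤ p ^ (k + 1) := hp.two_le.trans (Nat.le_self_pow (by omega) p)
  have hp' : (0 : ℝ) < p := by exact_mod_cast hp.pos
  rw [upper_val _ hN ⟨p, k, hp, rfl⟩, lower_val _ hN]
  have hc : (((p ^ (k + 1)).totient : ℕ) : ℝ) / ((p ^ (k + 1) : ℕ) : ℝ) = 1 - 1 / p := by
    rw [Nat.totient_prime_pow_succ hp, Nat.cast_mul, Nat.cast_sub hp.one_le]
    push_cast
    rw [pow_succ]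
    field_simp
  have hρ : rho (p ^ (k + 1)) = 6 / Real.pi ^ 2 * ((p : ℝ) / (p + 1)) := by
    unfold rho
    rw [Nat.primeFactors_prime_pow (by omega) hp, Finset.prod_singleton]
  rw [hc, hρ]
  have hπ : Real.pi ≠ 0 := Real.pi_ne_zero
  have hp1 : (p : ℝ) + 1 ≠ 0 := by positivity
  field_simp
  ring

end Pool.Agent.Helper94.NA
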